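import Pool.Agent.V5helper80.One.Stage

/-!
# The first stage, and groups for the intervals
-/

set_option autoImplicit false

namespace Pool.Agent.V5helper80.One

open Monoid (CoprodI)
open Monoid.CoprodI (of)
open Pool.Agent.V5helper80.Rel
open Pool.Agent.TH625.LOG

/-- free products of locally indicable groups -/
theorem locInd_coprod {I : Type} {G : I → Type} [∀ i, Group (G i)] (h : ∀ i, LocInd (G i)) :
    LocInd (CoprodI G) := by
  let D : Dat I Empty G :=
    { ci := fun e => e.elim, cl := fun e => e.elim, ct := fun e => e.elim, x := fun e => e.elim,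
      y := fun e => e.elim, y' := fun e => e.elim, z := fun e => e.elim }
  refine locInd_rel D (fun _ => False) ?_ ?_ (fun _ => 1) (fun e => e.elim) h
    (MonoidHom.id _) (fun x => ⟨x, rfl⟩) ?_
  · intro U F hU _
    have : F = ∅ := Finset.eq_empty_of_isEmpty F
    rw [this, Finset.card_empty]
    exact Finset.card_pos.2 hU
  · intro U F hU _
    have : F = ∅ := Finset.eq_empty_of_isEmpty F
    rw [this, Finset.card_empty]
    exact Finset.card_pos.2 hU
  · rw [Set.range_eq_empty, Subgroup.normalClosure_empty]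
    ext x
    rfl

variable {I E : Type} {G : I → Type} [∀ i, Group (G i)] {T : Hg G}

/-- the factors of the first stage -/
def BG (T : Hg G) : I ⊕ I → Type
  | .inl i => (T.ht i).ker
  | .inr _ => Multiplicative ℤ

instance (T : Hg G) : ∀ i, Group (BG T i)
  | .inl i => inferInstanceAs (Group (T.ht i).ker)
  | .inr _ => inferInstanceAs (Group (Multiplicative ℤ))

/-- the inclusions of the first stage -/
def bk (T : Hg G) (i : I) : (T.ht i).ker →* CoprodI (BG T) := of (M := BG T) (i := .inl i)

/-- the letters of the first stage -/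
def bl (T : Hg G) (i : I) : Multiplicative ℤ →* CoprodI (BG T) := of (M := BG T) (i := .inr i)

/-- the universal property of the first stage -/
def bLift (T : Hg G) {H : Type} [Group H] (α : ∀ i, (T.ht i).ker →* H) (h : I → H) :
    CoprodI (BG T) →* H :=
  Monoid.CoprodI.lift fun i => match i with
    | .inl i => α i
    | .inr i => zpowersHom H (h i)

theorem bLift_bk (T : Hg G) {H : Type} [Group H] (α : ∀ i, (T.ht i).ker →* H) (h : I → H)
    (i : I) (g : (T.ht i).ker) : bLift T α h (bk T i g) = α i g := Monoid.CoprodI.lift_of _ _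

theorem bLift_bl (T : Hg G) {H : Type} [Group H] (α : ∀ i, (T.ht i).ker →* H) (h : I → H)
    (i : I) : bLift T α h (bl T i (Multiplicative.ofAdd 1)) = h i := by
  have h1 : bLift T α h (bl T i (Multiplicative.ofAdd 1)) =
      zpowersHom H (h i) (Multiplicative.ofAdd (1 : ℤ)) := Monoid.CoprodI.lift_of _ _
  rw [h1, zpowersHom_apply]
  simp

theorem locInd_BG (T : Hg G) (hLI : ∀ i, LocInd (G i)) : LocInd (CoprodI (BG T)) := by
  refine locInd_coprod fun i => ?_
  cases i with
  | inl i =>
    exact locInd_of_injective (hLI i) (T.ht i).ker.subtype (Subgroup.subtype_injective _)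
  | inr i => exact locInd_int

open Classical in
/-- **The first stage.** -/
theorem first_stage (T : Hg G) (D : Dat I E G) (hLI : ∀ i, LocInd (G i)) (r s : I) (c : I → ℤ)
    (cr : c r = 0) (cs : c s = 1) : Nonempty (Stg T D r c 0) := by
  let p0 : I → CoprodI (BG T) := fun i =>
    if i = r ∨ i = s then 1 else bl T i (Multiplicative.ofAdd 1)
  let Y : I → ℤ → Ex (CoprodI (BG T)) := fun i k =>
    if k ≤ 0 then 1 else inA (p0 i) * zz ^ c i
  have hY0 : ∀ i k, k ≤ 0 → Y i k = 1 := fun i k hk => if_pos hk
  have hY1 : ∀ i k, 0 < k → Y i k = inA (p0 i) * zz ^ c i := fun i k hk => if_neg (by omega)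
  have hpr : p0 r = 1 := if_pos (Or.inl rfl)
  have hps : p0 s = 1 := if_pos (Or.inr rfl)
  refine ⟨{ P := CoprodI (BG T)
            li := locInd_BG T hLI
            a := fun i => inA.comp (bk T i)
            Y := Y
            Y0 := fun i => hY0 i 0 le_rfl
            gauge := ?_
            exa := fun i g => ex_inA _
            exY := ?_
            exT := ?_
            eqs := ?_
            univ := ?_ }⟩
  · intro k h0 hk
    push_cast at hk
    rcases (show k ≤ 0 ∨ 0 < k by omega) with h | h
    · exact hY0 _ _ h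
    · rw [hY1 _ _ h, hpr, cr, map_one, zpow_zero, one_mul]
  · intro i k h0 hk
    push_cast at hk
    rw [hY0 i k hk, map_one]
  · intro i
    rw [hY1 i _ (by norm_num), map_mul, ex_inA, one_mul, map_zpow, ex_zz, ← ofAdd_zsmul,
      smul_eq_mul, mul_one]
  · intro e k h0 hk
    push_cast at hk
    omega
  · intro H _ α Z hZ0 hZr _
    let F0 : CoprodI (BG T) →* H := bLift T α fun i => Z i 1 * (Z s 1 ^ c i)⁻¹
    refine ⟨liftE F0 (Z s 1), fun i g => ?_, fun i k h0 hk => ?_⟩
    · show liftE F0 (Z s 1) (inA (bk T i g)) = _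
      rw [liftE_inA, bLift_bk]
    · push_cast at hk
      rcases (show k = 0 ∨ k = 1 by omega) with h | h
      · rw [h, hY0 i 0 le_rfl, map_one, hZ0]
      · rw [h, hY1 i 1 (by omega), map_mul, liftE_inA, map_zpow, liftE_zz]
        by_cases hr : i = r
        · rw [hr, hpr, cr, map_one, hZr, zpow_zero, one_mul]
        · by_cases hs : i = s
          · rw [hs, hps, cs, map_one, one_mul, zpow_one]
          · have : p0 i = bl T i (Multiplicative.ofAdd 1) := if_neg (by tauto)
            rw [this, bLift_bl, inv_mul_cancel_right]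

/-- a stage of any kind: a locally indicable group with the universal property -/
structure Sta (T : Hg G) (D : Dat I E G) (r : I) (m : ℤ) where
  X : Type
  [grp : Group X]
  li : LocInd X
  a : ∀ i, (T.ht i).ker →* X
  Y : I → ℤ → X
  eqs : Eqs D a Y m
  univ : ∀ (H : Type) [Group H] (α : ∀ i, (T.ht i).ker →* H) (Z : I → ℤ → H),
    (∀ i, Z i 0 = 1) → (∀ k, Z r k = 1) → Eqs D α Z m →
    ∃ F : X →* H, (∀ i g, F (a i g) = α i g) ∧
      ∀ (i : I) (k : ℤ), 0 ≤ k → k ≤ m → F (Y i k) = Z i k

attribute [instance] Sta.grp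

/-- the stages of the recursion -/
def Stg.sta {D : Dat I E G} {r : I} {c : I → ℤ} {b : ℕ} (S : Stg T D r c b) :
    Sta T D r (b + 1) where
  X := Ex S.P
  li := locInd_coprod fun i => match i with
    | .a => S.li
    | .z => locInd_int
  a := S.a
  Y := S.Y
  eqs := S.eqs
  univ := S.univ

/-- the factors of the group of an interval -/
def IG (X : Type) (I : Type) : Option (I × ℤ) → Type
  | none => X
  | some _ => Multiplicative ℤ

instance (X : Type) [Group X] (I : Type) : ∀ i, Group (IG X I i)
  | none => inferInstanceAs (Group X)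
  | some _ => inferInstanceAs (Group (Multiplicative ℤ))

section
variable (X : Type) [Group X] (I : Type)

/-- the inclusion of `X` -/
def ix : X →* CoprodI (IG X I) := of (M := IG X I) (i := none)

/-- the letters -/
def il (x : I × ℤ) : Multiplicative ℤ →* CoprodI (IG X I) := of (M := IG X I) (i := some x)

/-- the universal property -/
def iLift {H : Type} [Group H] (f : X →* H) (h : I × ℤ → H) : CoprodI (IG X I) →* H :=
  Monoid.CoprodI.lift fun i => match i with
    | none => f
    | some x => zpowersHom H (h x)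

theorem iLift_ix {H : Type} [Group H] (f : X →* H) (h : I × ℤ → H) (x : X) :
    iLift X I f h (ix X I x) = f x := Monoid.CoprodI.lift_of _ _

theorem iLift_il {H : Type} [Group H] (f : X →* H) (h : I × ℤ → H) (x : I × ℤ) :
    iLift X I f h (il X I x (Multiplicative.ofAdd 1)) = h x := by
  have h1 : iLift X I f h (il X I x (Multiplicative.ofAdd 1)) =
      zpowersHom H (h x) (Multiplicative.ofAdd (1 : ℤ)) := Monoid.CoprodI.lift_of _ _
  rw [h1, zpowersHom_apply]
  simp

end

open Classical in
/-- a stage gives a group for the interval -/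
theorem Sta.interval {D : Dat I E G} (hD : AllOne T D) {r : I} {m : ℤ} (S : Sta T D r m) {Q : Type} [Group Q]
    (π : CoprodI G →* Q) (hπ : ∀ e, π (D.rel e) = 1) :
    Interval T D π (π (of (T.t r))) m := by
  let τ := π (of (T.t r))
  let α' : ∀ i, (T.ht i).ker →* Q := fun i => (π.comp of).comp (T.ht i).ker.subtype
  let Z : I → ℤ → Q := fun i k => π (of (T.t i)) ^ k * (τ ^ k)⁻¹
  have hcc : ∀ i k (g : G i), cc T α' Z i k g = τ ^ k * π (of g) * (τ ^ (k + T.hz i g))⁻¹ := by
    intro i k g
    unfold cc
    have h1 : α' i (T.ka i k g) = π (of (T.t i)) ^ k * π (of g) *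
        (π (of (T.t i)) ^ (k + T.hz i g))⁻¹ := by
      show π (of (T.t i ^ k * g * (T.t i ^ (k + T.hz i g))⁻¹)) = _
      rw [map_mul, map_mul, map_mul, map_mul, map_inv, map_inv, map_zpow, map_zpow, map_zpow,
        map_zpow]
    rw [h1]
    simp only [Z]
    group
  obtain ⟨F, hFa, hFY⟩ := S.univ Q α' Z (fun i => by simp [Z])
    (fun k => by simp only [Z, τ]; rw [mul_inv_cancel]) (by
      intro e k _ _
      obtain ⟨e1, e2, e3, e4⟩ := hD e
      rw [hcc, hcc, hcc, hcc, e1, e2, e3, e4]
      have h1 := hπ e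
      have h2 : D.rel e = (of (D.x e) * of (D.y e)) * (of (D.y' e) * of (D.z e))⁻¹ := rfl
      rw [h2, map_mul, map_inv, mul_inv_eq_one, map_mul, map_mul] at h1
      calc τ ^ k * π (of (D.x e)) * (τ ^ (k + 1))⁻¹ *
          (τ ^ (k + 1) * π (of (D.y e)) * (τ ^ (k + 1 + 1))⁻¹) =
          τ ^ k * (π (of (D.x e)) * π (of (D.y e))) * (τ ^ (k + 1 + 1))⁻¹ := by group
        _ = _ := by rw [h1]; group)
  let Y : I → ℤ → CoprodI (IG S.X I) := fun i k =>
    if 0 ≤ k ∧ k ≤ m then ix S.X I (S.Y i k) else il S.X I (i, k) (Multiplicative.ofAdd 1)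
  refine ⟨CoprodI (IG S.X I), inferInstance, fun i => (ix S.X I).comp (S.a i), Y,
    iLift S.X I F (fun x => Z x.1 x.2), ?_, ?_, ?_, ?_⟩
  · refine locInd_coprod fun i => ?_
    cases i with
    | none => exact S.li
    | some _ => exact locInd_int
  · exact Eqs.map hD (ix S.X I) (fun _ _ => rfl) m
      (fun i k h0 hk => (if_pos ⟨h0, hk⟩ : Y i k = _).symm) S.eqs
  · intro i g
    show iLift S.X I F _ (ix S.X I (S.a i g)) = _
    rw [iLift_ix, hFa]
    rfl
  · intro i k
    by_cases h : 0 ≤ k ∧ k ≤ m
    · have h1 : Y i k = ix S.X I (S.Y i k) := if_pos h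
      rw [h1, iLift_ix, hFY i k h.1 h.2]
    · have h1 : Y i k = il S.X I (i, k) (Multiplicative.ofAdd 1) := if_neg h
      rw [h1, iLift_il]

/-- **The theorem on levels.** -/
theorem locInd_of_sta (D : Dat I E G) (hD : AllOne T D) (r : I)
    (hsta : ∀ m : ℕ, Nonempty (Sta T D r (m + 1))) {Q : Type} [Group Q]
    (π : CoprodI G →* Q) (hsurj : Function.Surjective π)
    (hker : π.ker = Subgroup.normalClosure (Set.range D.rel)) : LocInd Q := by
  have hπ : ∀ e, π (D.rel e) = 1 := by
    intro e
    rw [← MonoidHom.mem_ker, hker]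
    exact Subgroup.subset_normalClosure ⟨e, rfl⟩
  refine locInd_of_levels D hD r π hsurj hker fun m => ?_
  obtain ⟨S⟩ := hsta m
  obtain ⟨X, _, α, Y, F, h1, h2, h3, h4⟩ := S.interval hD π hπ
  exact ⟨X, _, α, Y, F, h1, fun e k h0 hk => h2 e k h0 (by omega), h3, h4⟩

end Pool.Agent.V5helper80.One
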