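import Pool.Agent.V5helper80.One.Base
import Pool.Agent.V5helper80.Rel.Inj

/-!
# Potentials on trees
-/

set_option autoImplicit false

namespace Pool.Agent.V5helper80.One

open Monoid (CoprodI)
open Monoid.CoprodI (of)
open Pool.Agent.V5helper80.Rel
open Pool.Agent.TH625.LOG

section pot
variable {I E : Type}

/-- potentials on forests -/
theorem pot_aux [DecidableEq I] [DecidableEq E] (p q : E → I) (hF : Forest p q) {Q : Type}
    [Group Q] (γ : E → Q) : ∀ (n : ℕ) (U : Finset I) (F : Finset E), U.card = n →
    (∀ e ∈ F, p e ∈ U ∧ q e ∈ U) → ∃ u : I → Q, ∀ e ∈ F, u (p e) = γ e * u (q e) := by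
  intro n
  induction n with
  | zero =>
    intro U F hU hFU
    refine ⟨fun _ => 1, fun e he => ?_⟩
    rw [Finset.card_eq_zero] at hU
    rw [hU] at hFU
    exact absurd (hFU e he).1 (Finset.notMem_empty _)
  | succ n ih =>
    intro U F hU hFU
    have hUne : U.Nonempty := Finset.card_pos.1 (by omega)
    let en : E × Bool → I := fun x => if x.2 then p x.1 else q x.1
    let S : Finset (E × Bool) := F ×ˢ Finset.univ
    have hS : ∀ x ∈ S, en x ∈ U := by
      intro x hx
      have hx1 := (Finset.mem_product.1 hx).1
      simp only [en]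
      split_ifs
      · exact (hFU _ hx1).1
      · exact (hFU _ hx1).2
    have hcard := Finset.card_eq_sum_card_fiberwise (f := en) (s := S) (t := U) hS
    have hS2 : S.card = 2 * F.card := by
      simp only [S]
      rw [Finset.card_product, Finset.card_univ, Fintype.card_bool, mul_comm]
    have hFc := hF U F hUne hFU
    obtain ⟨i, hi, hdeg⟩ : ∃ i ∈ U, (S.filter fun x => en x = i).card ≤ 1 := by
      by_contra hcon
      push Not at hcon
      have h1 : ∑ _i ∈ U, 2 ≤ ∑ i ∈ U, (S.filter fun x => en x = i).card :=
        Finset.sum_le_sum fun i hi => hcon i hi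
      rw [Finset.sum_const, smul_eq_mul] at h1
      omega
    rw [Finset.card_le_one] at hdeg
    have huniq : ∀ x y : E × Bool, x.1 ∈ F → y.1 ∈ F → en x = i → en y = i → x = y := by
      intro x y hx hy h1 h2
      exact hdeg x (Finset.mem_filter.2 ⟨Finset.mem_product.2 ⟨hx, Finset.mem_univ _⟩, h1⟩) y
        (Finset.mem_filter.2 ⟨Finset.mem_product.2 ⟨hy, Finset.mem_univ _⟩, h2⟩)
    have hUc : (U.erase i).card = n := by
      rw [Finset.card_erase_of_mem hi, hU]
      rfl
    by_cases hex : ∃ x : E × Bool, x.1 ∈ F ∧ en x = i
    · obtain ⟨⟨e1, β⟩, he1, hx⟩ := hex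
      have hother : ∀ e ∈ F, e ≠ e1 → p e ≠ i ∧ q e ≠ i := by
        intro e he hne
        constructor
        · intro h
          have := huniq (e, true) (e1, β) he he1 (by simp only [en]; exact h) hx
          exact hne (congrArg Prod.fst this)
        · intro h
          have := huniq (e, false) (e1, β) he he1 (by
            simp only [en]
            rw [if_neg (by decide)]
            exact h) hx
          exact hne (congrArg Prod.fst this)
      obtain ⟨u, hu⟩ := ih (U.erase i) (F.erase e1) hUc (by
        intro e he
        have he' := Finset.mem_of_mem_erase he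
        have hne := Finset.ne_of_mem_erase he
        have h1 := hother e he' hne
        exact ⟨Finset.mem_erase.2 ⟨h1.1, (hFU e he').1⟩, Finset.mem_erase.2 ⟨h1.2, (hFU e he').2⟩⟩)
      cases β with
      | true =>
        have hp : p e1 = i := hx
        have hq : q e1 ≠ i := by
          intro h
          have := huniq (e1, false) (e1, true) he1 he1 (by
            simp only [en]
            rw [if_neg (by decide)]
            exact h) hx
          exact absurd (congrArg Prod.snd this) (by simp)
        refine ⟨Function.update u i (γ e1 * u (q e1)), fun e he => ?_⟩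
        by_cases hne : e = e1
        · subst hne
          rw [hp, Function.update_self, Function.update_of_ne hq]
        · rw [Function.update_of_ne (hother e he hne).1, Function.update_of_ne (hother e he hne).2]
          exact hu e (Finset.mem_erase.2 ⟨hne, he⟩)
      | false =>
        have hq : q e1 = i := hx
        have hp : p e1 ≠ i := by
          intro h
          have := huniq (e1, true) (e1, false) he1 he1 (by simp only [en]; exact h) hx
          exact absurd (congrArg Prod.snd this) (by simp)
        refine ⟨Function.update u i ((γ e1)⁻¹ * u (p e1)), fun e he => ?_⟩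
        by_cases hne : e = e1
        · subst hne
          rw [hq, Function.update_self, Function.update_of_ne hp, mul_inv_cancel_left]
        · rw [Function.update_of_ne (hother e he hne).1, Function.update_of_ne (hother e he hne).2]
          exact hu e (Finset.mem_erase.2 ⟨hne, he⟩)
    · push Not at hex
      refine ih (U.erase i) F hUc fun e he => ?_
      have h1 : p e ≠ i := hex (e, true) he
      have h2 : q e ≠ i := by
        have := hex (e, false) he
        simp only [en] at this
        rwa [if_neg (by decide)] at this
      exact ⟨Finset.mem_erase.2 ⟨h1, (hFU e he).1⟩, Finset.mem_erase.2 ⟨h2, (hFU e he).2⟩⟩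

open Classical in
/-- **Potentials on a tree.** -/
theorem exists_pot [Fintype I] [Fintype E] (p q : E → I) (hF : Forest p q) (r : I) {Q : Type}
    [Group Q] (γ : E → Q) : ∃ u : I → Q, u r = 1 ∧ ∀ e, u (p e) = γ e * u (q e) := by
  obtain ⟨u, hu⟩ := pot_aux p q hF γ _ Finset.univ Finset.univ rfl
    (fun e _ => ⟨Finset.mem_univ _, Finset.mem_univ _⟩)
  refine ⟨fun i => u i * (u r)⁻¹, mul_inv_cancel _, fun e => ?_⟩
  simp only
  rw [hu e (Finset.mem_univ _), mul_assoc]

open Classical in
/-- the incidence matrix of a tree is injective -/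
theorem tinj [Fintype I] [Fintype E] {K : Type} [Field K] (p q : E → I) (hF : Forest p q) (r : I)
    (μ : E → K) (h : ∀ i, i ≠ r →
      ∑ e, μ e * ((if p e = i then 1 else 0) - (if q e = i then 1 else 0)) = 0) : μ = 0 := by
  funext e0
  obtain ⟨u, hur, hu⟩ := exists_pot (Q := Multiplicative K) p q hF r
    (fun e => Multiplicative.ofAdd (if e = e0 then 1 else 0))
  let c : I → K := fun i => (u i).toAdd
  have hcr : c r = 0 := by simp only [c]; rw [hur, toAdd_one]
  have hc : ∀ e, c (p e) - c (q e) = if e = e0 then 1 else 0 := by
    intro e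
    simp only [c]
    rw [hu e, toAdd_mul, toAdd_ofAdd, add_sub_cancel_right]
  have h1 : ∑ i, c i * ∑ e, μ e * ((if p e = i then 1 else 0) - (if q e = i then 1 else 0)) =
      (0 : K) := by
    refine Finset.sum_eq_zero fun i _ => ?_
    by_cases hi : i = r
    · rw [hi, hcr, zero_mul]
    · rw [h i hi, mul_zero]
  have h2 : ∑ i, c i * ∑ e, μ e * ((if p e = i then 1 else 0) - (if q e = i then 1 else 0)) =
      ∑ e, μ e * (c (p e) - c (q e)) := by
    simp only [Finset.mul_sum]
    rw [Finset.sum_comm]
    refine Finset.sum_congr rfl fun e _ => ?_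
    have h3 : ∀ j, ∑ i, c i * (if j = i then 1 else 0) = c j := by
      intro j
      simp
    calc ∑ i, c i * (μ e * ((if p e = i then 1 else 0) - (if q e = i then 1 else 0))) =
        μ e * (∑ i, c i * (if p e = i then 1 else 0) - ∑ i, c i * (if q e = i then 1 else 0)) := by
          rw [← Finset.sum_sub_distrib, Finset.mul_sum]
          exact Finset.sum_congr rfl fun i _ => by ring
      _ = _ := by rw [h3, h3]
  rw [h2] at h1
  simp only [hc] at h1
  simpa using h1

end pot

section cmb
variable {I E : Type} {G : I → Type}

open Classical in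
/-- the combinatorial data from connectivity -/
theorem cmb_of [Fintype I] [Fintype E] (D : Dat I E G) (r s : I) (e0 : E) (c : I → ℤ)
    (hc : ∀ e, c (D.cl e) = c (D.ct e)) (cr : c r = 0) (cs : c s = 1)
    (hcard : Fintype.card I = Fintype.card E + 1)
    (hconn : ∀ f : I → ℚ, f r = f s → (∀ e, e ≠ e0 → f (D.cl e) = f (D.ct e)) →
      ∀ x y, f x = f y)
    (nophi : ¬ ∃ φ : I → ℤ, ∀ e, φ (D.cl e) - φ (D.ct e) = c (D.cl e) - c (D.ci e)) :
    Cmb D r s e0 c := by
  let p' : E → I := fun e => if e = e0 then r else D.cl e
  let q' : E → I := fun e => if e = e0 then s else D.ct e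
  have hp0 : p' e0 = r := if_pos rfl
  have hq0 : q' e0 = s := if_pos rfl
  have hp1 : ∀ e, e ≠ e0 → p' e = D.cl e := fun e he => if_neg he
  have hq1 : ∀ e, e ≠ e0 → q' e = D.ct e := fun e he => if_neg he
  have hF : Forest p' q' := by
    refine forest_of_conn p' q' (fun f hf x y => ?_) hcard
    refine hconn f ?_ (fun e he => ?_) x y
    · have := hf e0
      rwa [hp0, hq0] at this
    · have := hf e
      rwa [hp1 e he, hq1 e he] at this
  refine ⟨hc, cr, cs, ?_, ?_, nophi⟩
  · intro Q _ γ
    obtain ⟨u, hur, hu⟩ := exists_pot p' q' hF r (fun e => if e = e0 then 1 else γ e)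
    refine ⟨u, hur, ?_, fun e he => ?_⟩
    · have := hu e0
      rw [hp0, hq0, if_pos rfl, one_mul, hur] at this
      exact this.symm
    · have := hu e
      rwa [hp1 e he, hq1 e he, if_neg he] at this
  · intro H _ γ u h hr hs h1 h2
    let f : I → ℚ := fun i => if u i = h i then 1 else 0
    have hf := hconn f (by simp only [f]; rw [if_pos hr, if_pos hs]) (fun e he => by
      simp only [f]
      have : u (D.cl e) = h (D.cl e) ↔ u (D.ct e) = h (D.ct e) := by
        rw [h1 e he, h2 e he, mul_right_inj]
      simp only [this])
    funext i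
    by_contra hne
    have h3 := hf i r
    simp only [f] at h3
    rw [if_neg hne, if_pos hr] at h3
    exact absurd h3 (by norm_num)

end cmb

end Pool.Agent.V5helper80.One
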