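import Mathlib

/-!
# Relatively convex subgroups
-/

set_option autoImplicit false

namespace Pool.Agent.V5helper80.One

variable {L : Type} [Group L]

/-- the products of the signed elements of `T` and elements of `C` with at least one signed
element -/
inductive Sg (C : Subgroup L) (T : Set L) (σ : L → Bool) : L → Prop
  | base (g : L) (hg : g ∈ T) (hC : g ∉ C) : Sg C T σ (if σ g then g else g⁻¹)
  | mul (x y : L) (hx : Sg C T σ x) (hy : Sg C T σ y) : Sg C T σ (x * y)
  | left (c x : L) (hc : c ∈ C) (hx : Sg C T σ x) : Sg C T σ (c * x)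
  | right (c x : L) (hc : c ∈ C) (hx : Sg C T σ x) : Sg C T σ (x * c)

/-- the finite signs -/
theorem exists_sign (r : L)
    (hconv : ∀ M : Subgroup L, M.FG → ∀ hr : r ∈ M, ¬ M ≤ Subgroup.zpowers r →
      ∃ ψ : M →* Multiplicative ℚ, ψ ⟨r, hr⟩ = 1 ∧ ψ ≠ 1) :
    ∀ (n : ℕ) (T : Finset L), T.card = n → (∀ g ∈ T, g ∉ Subgroup.zpowers r) →
      ∃ σ : L → Bool, ∀ x, Sg (Subgroup.zpowers r) T σ x → x ∉ Subgroup.zpowers r := by
  classical
  intro n
  induction n using Nat.strong_induction_on with
  | _ n ih =>
  intro T hn hT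
  rcases T.eq_empty_or_nonempty with rfl | ⟨t, ht⟩
  · refine ⟨fun _ => true, fun x hx => ?_⟩
    exfalso
    induction hx with
    | base g hg _ => simp at hg
    | mul _ _ _ _ h _ => exact h
    | left _ _ _ _ h => exact h
    | right _ _ _ _ h => exact h
  · let M : Subgroup L := Subgroup.closure ((insert r T : Finset L) : Set L)
    have hrM : r ∈ M := Subgroup.subset_closure (by simp)
    have hTM : ∀ g ∈ T, g ∈ M := fun g hg => Subgroup.subset_closure (by simp [hg])
    obtain ⟨ψ, hψr, hψ⟩ := hconv M ⟨insert r T, rfl⟩ hrM (fun h => hT t ht (h (hTM t ht)))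
    let v : L → ℚ := fun g => if h : g ∈ M then (ψ ⟨g, h⟩).toAdd else 0
    have hv : ∀ g (h : g ∈ M), v g = (ψ ⟨g, h⟩).toAdd := fun g h => dif_pos h
    have hvmul : ∀ g h, g ∈ M → h ∈ M → v (g * h) = v g + v h := by
      intro g h hg hh
      rw [hv _ (M.mul_mem hg hh), hv _ hg, hv _ hh, ← toAdd_mul, ← map_mul]
      rfl
    have hvinv : ∀ g, g ∈ M → v g⁻¹ = - v g := by
      intro g hg
      rw [hv _ (M.inv_mem hg), hv _ hg, ← toAdd_inv, ← map_inv]
      rfl
    have hCM : ∀ c ∈ Subgroup.zpowers r, c ∈ M := fun c hc =>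
      (Subgroup.zpowers_le.2 hrM) hc
    have hvC : ∀ c ∈ Subgroup.zpowers r, v c = 0 := by
      intro c hc
      obtain ⟨k, rfl⟩ := Subgroup.mem_zpowers_iff.1 hc
      rw [hv _ (hCM _ hc)]
      have h1 : (⟨r ^ k, hCM _ hc⟩ : M) = ⟨r, hrM⟩ ^ k := rfl
      rw [h1, map_zpow, hψr, one_zpow]
      rfl
    let T0 := T.filter fun g => v g = 0
    have hT0 : T0.card < n := by
      rw [← hn]
      refine Finset.card_lt_card (Finset.filter_ssubset.2 ?_)
      by_contra hno
      push Not at hno
      refine hψ ?_
      have h1 : ∀ m (hm : m ∈ M), v m = 0 := by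
        intro m hm
        refine Subgroup.closure_induction (p := fun m _ => v m = 0) ?_ ?_ ?_ ?_ hm
        · intro x hx
          rcases Finset.mem_insert.1 (Finset.mem_coe.1 hx) with rfl | hx
          · exact hvC _ (Subgroup.mem_zpowers _)
          · exact hno x hx
        · exact hvC _ (Subgroup.one_mem _)
        · intro x y hx hy h1 h2
          rw [hvmul x y hx hy, h1, h2, add_zero]
        · intro x hx h1
          rw [hvinv x hx, h1, neg_zero]
      ext m
      have h2 := h1 m.1 m.2
      rw [hv _ m.2] at h2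
      exact h2
    obtain ⟨σ0, hσ0⟩ := ih _ hT0 T0 rfl (fun g hg => hT g (Finset.mem_filter.1 hg).1)
    let σ : L → Bool := fun g => if v g = 0 then σ0 g else decide (0 < v g)
    have key : ∀ x, Sg (Subgroup.zpowers r) T σ x → x ∈ M ∧
        (0 < v x ∨ (v x = 0 ∧ Sg (Subgroup.zpowers r) T0 σ0 x)) := by
      intro x hx
      induction hx with
      | base g hg hC =>
        have hgM := hTM g (Finset.mem_coe.1 hg)
        by_cases h0 : v g = 0
        · have h1 : σ g = σ0 g := if_pos h0
          rw [h1]
          have h2 : v (if σ0 g = true then g else g⁻¹) = 0 := by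
            split_ifs
            · exact h0
            · rw [hvinv g hgM, h0, neg_zero]
          have h3 : (if σ0 g = true then g else g⁻¹) ∈ M := by
            split_ifs
            · exact hgM
            · exact M.inv_mem hgM
          exact ⟨h3, Or.inr ⟨h2, Sg.base g (Finset.mem_coe.2 (Finset.mem_filter.2 ⟨hg, h0⟩)) hC⟩⟩
        · have h1 : σ g = decide (0 < v g) := if_neg h0
          rw [h1]
          by_cases h2 : 0 < v g
          · rw [if_pos (by simpa using h2)]
            exact ⟨hgM, Or.inl h2⟩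
          · rw [if_neg (by simpa using h2)]
            refine ⟨M.inv_mem hgM, Or.inl ?_⟩
            rw [hvinv g hgM]
            have : v g < 0 := lt_of_le_of_ne (not_lt.1 h2) h0
            linarith
      | mul x y _ _ hx hy =>
        obtain ⟨hxM, hx⟩ := hx
        obtain ⟨hyM, hy⟩ := hy
        refine ⟨M.mul_mem hxM hyM, ?_⟩
        rw [hvmul x y hxM hyM]
        rcases hx with hx | ⟨hx, hx'⟩
        · rcases hy with hy | ⟨hy, hy'⟩
          · left; linarith
          · left; linarith
        · rcases hy with hy | ⟨hy, hy'⟩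
          · left; linarith
          · right; exact ⟨by rw [hx, hy, add_zero], Sg.mul _ _ hx' hy'⟩
      | left c x hc _ hx =>
        obtain ⟨hxM, hx⟩ := hx
        refine ⟨M.mul_mem (hCM c hc) hxM, ?_⟩
        rw [hvmul c x (hCM c hc) hxM, hvC c hc, zero_add]
        rcases hx with hx | ⟨hx, hx'⟩
        · exact Or.inl hx
        · exact Or.inr ⟨hx, Sg.left _ _ hc hx'⟩
      | right c x hc _ hx =>
        obtain ⟨hxM, hx⟩ := hx
        refine ⟨M.mul_mem hxM (hCM c hc), ?_⟩
        rw [hvmul x c hxM (hCM c hc), hvC c hc, add_zero]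
        rcases hx with hx | ⟨hx, hx'⟩
        · exact Or.inl hx
        · exact Or.inr ⟨hx, Sg.right _ _ hc hx'⟩
    refine ⟨σ, fun x hx hC => ?_⟩
    rcases (key x hx).2 with h | ⟨_, h⟩
    · rw [hvC x hC] at h
      exact lt_irrefl _ h
    · exact hσ0 x h hC

/-- a positive cone relative to a subgroup -/
structure Cone (C : Subgroup L) where
  P : L → Prop
  mul : ∀ x y, P x → P y → P (x * y)
  left : ∀ c x, c ∈ C → P x → P (c * x)
  right : ∀ c x, c ∈ C → P x → P (x * c)
  total : ∀ x, x ∉ C → P x ∨ P x⁻¹
  notC : ∀ x, P x → x ∉ C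

/-- **Relative convexity from homomorphisms.** -/
theorem exists_cone (r : L)
    (hconv : ∀ M : Subgroup L, M.FG → ∀ hr : r ∈ M, ¬ M ≤ Subgroup.zpowers r →
      ∃ ψ : M →* Multiplicative ℚ, ψ ⟨r, hr⟩ = 1 ∧ ψ ≠ 1) :
    Nonempty (Cone (Subgroup.zpowers r)) := by
  classical
  have h := fun T : Finset L => exists_sign r hconv _ (T.filter fun g => g ∉ Subgroup.zpowers r) rfl
    (fun g hg => (Finset.mem_filter.1 hg).2)
  choose σ hσ using h
  let U : Ultrafilter (Finset L) := Ultrafilter.of Filter.atTop
  have hU : (U : Filter (Finset L)) ≤ Filter.atTop := Ultrafilter.of_le _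
  let X : Finset L → L → Prop := fun T x =>
    Sg (Subgroup.zpowers r) ((T.filter fun g => g ∉ Subgroup.zpowers r : Finset L) : Set L) (σ T) x
  refine ⟨⟨fun x => ∀ᶠ T in (U : Filter (Finset L)), X T x, ?_, ?_, ?_, ?_, ?_⟩⟩
  · intro x y hx hy
    filter_upwards [hx, hy] with T h1 h2 using Sg.mul _ _ h1 h2
  · intro c x hc hx
    filter_upwards [hx] with T h1 using Sg.left _ _ hc h1
  · intro c x hc hx
    filter_upwards [hx] with T h1 using Sg.right _ _ hc h1
  · intro x hx
    rw [← Ultrafilter.eventually_or]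
    have h1 := (Filter.eventually_ge_atTop ({x} : Finset L)).filter_mono hU
    filter_upwards [h1] with T hT
    have h2 : x ∈ ((T.filter fun g => g ∉ Subgroup.zpowers r : Finset L) : Set L) :=
      Finset.mem_coe.2 (Finset.mem_filter.2 ⟨hT (Finset.mem_singleton_self _), hx⟩)
    have h3 := Sg.base (σ := σ T) x h2 hx
    by_cases h4 : σ T x = true
    · rw [if_pos h4] at h3
      exact Or.inl h3
    · rw [if_neg h4] at h3
      exact Or.inr h3
  · intro x hx
    obtain ⟨T, hT⟩ := hx.exists
    exact hσ T x hT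

namespace Cone

variable {C : Subgroup L} (K : Cone C)

/-- the order of the cosets -/
def lt (x y : L) : Prop := K.P (x⁻¹ * y)

theorem lt_trans {x y z : L} (h1 : K.lt x y) (h2 : K.lt y z) : K.lt x z := by
  have := K.mul _ _ h1 h2
  unfold lt
  rwa [mul_assoc, mul_inv_cancel_left] at this

theorem lt_irrefl_coset {x y : L} (h : K.lt x y) : x⁻¹ * y ∉ C := K.notC _ h

theorem lt_irrefl (x : L) : ¬ K.lt x x := fun h => K.lt_irrefl_coset h (by simp [C.one_mem])

theorem lt_asymm {x y : L} (h1 : K.lt x y) : ¬ K.lt y x := fun h2 =>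
  K.lt_irrefl x (K.lt_trans h1 h2)

theorem lt_total {x y : L} (h : x⁻¹ * y ∉ C) : K.lt x y ∨ K.lt y x := by
  rcases K.total _ h with h1 | h1
  · exact Or.inl h1
  · right
    unfold lt
    rwa [mul_inv_rev, inv_inv] at h1

theorem lt_mul_left (g : L) {x y : L} : K.lt (g * x) (g * y) ↔ K.lt x y := by
  unfold lt
  rw [mul_inv_rev, mul_assoc, inv_mul_cancel_left]

theorem lt_mul_right {c x y : L} (hc : c ∈ C) : K.lt (x * c) y ↔ K.lt x y := by
  unfold lt
  rw [mul_inv_rev, mul_assoc]
  constructor
  · intro h
    have := K.left c _ hc h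
    rwa [mul_inv_cancel_left] at this
  · intro h
    exact K.left _ _ (C.inv_mem hc) h

theorem lt_mul_right' {c x y : L} (hc : c ∈ C) : K.lt x (y * c) ↔ K.lt x y := by
  unfold lt
  rw [← mul_assoc]
  constructor
  · intro h
    have := K.right _ _ (C.inv_mem hc) h
    rwa [mul_inv_cancel_right] at this
  · intro h
    exact K.right c _ hc h

/-- a maximal value on a finite set -/
theorem exists_max {α : Type} (X : Finset α) (hX : X.Nonempty) (f : α → L) :
    ∃ m ∈ X, ∀ x ∈ X, ¬ K.lt (f m) (f x) := by
  classical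
  induction X using Finset.induction_on with
  | empty => exact absurd hX Finset.not_nonempty_empty
  | insert a s _ ih =>
    rcases s.eq_empty_or_nonempty with rfl | hs
    · refine ⟨a, by simp, fun x hx => ?_⟩
      have : x = a := by simpa using hx
      rw [this]
      exact K.lt_irrefl _
    · obtain ⟨m, hm, hmax⟩ := ih hs
      by_cases h : K.lt (f m) (f a)
      · refine ⟨a, by simp, fun x hx => ?_⟩
        rcases Finset.mem_insert.1 hx with rfl | hx
        · exact K.lt_irrefl _
        · intro h1
          exact hmax x hx (K.lt_trans h h1)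
      · refine ⟨m, Finset.mem_insert_of_mem hm, fun x hx => ?_⟩
        rcases Finset.mem_insert.1 hx with rfl | hx
        · exact h
        · exact hmax x hx

/-- a minimal value on a finite set -/
theorem exists_min {α : Type} (X : Finset α) (hX : X.Nonempty) (f : α → L) :
    ∃ m ∈ X, ∀ x ∈ X, ¬ K.lt (f x) (f m) := by
  classical
  induction X using Finset.induction_on with
  | empty => exact absurd hX Finset.not_nonempty_empty
  | insert a s _ ih =>
    rcases s.eq_empty_or_nonempty with rfl | hs
    · refine ⟨a, by simp, fun x hx => ?_⟩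
      have : x = a := by simpa using hx
      rw [this]
      exact K.lt_irrefl _
    · obtain ⟨m, hm, hmin⟩ := ih hs
      by_cases h : K.lt (f a) (f m)
      · refine ⟨a, by simp, fun x hx => ?_⟩
        rcases Finset.mem_insert.1 hx with rfl | hx
        · exact K.lt_irrefl _
        · intro h1
          exact hmin x hx (K.lt_trans h1 h)
      · refine ⟨m, Finset.mem_insert_of_mem hm, fun x hx => ?_⟩
        rcases Finset.mem_insert.1 hx with rfl | hx
        · exact h
        · exact hmin x hx

end Cone

end Pool.Agent.V5helper80.One
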