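import Pool.Agent.V5helper80.One.Rank
import Pool.Agent.V5helper80.One.Order

/-!
# The counting inequality for one relator
-/

set_option autoImplicit false

namespace Pool.Agent.V5helper80.One

open Monoid (CoprodI)
open Monoid.CoprodI (of)
open Pool.Agent.V5helper80.Rel

variable {I A : Type} {G : I → Type} [∀ i, Group (G i)]

/-- the coset of a pass -/
def Per.val (R : Per I G) (q : ℕ) : CoprodI G := (R.W ((q + 1) / 2))⁻¹

theorem W_mul_inv (R : Per I G) (k m : ℕ) :
    (R.W (k + m * R.n))⁻¹ = (R.W k)⁻¹ * (R.rel ^ m)⁻¹ := by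
  rw [R.W_add_mul, mul_inv_rev]

theorem pow_mem (R : Per I G) (m : ℕ) : (R.rel ^ m)⁻¹ ∈ Subgroup.zpowers R.rel :=
  Subgroup.inv_mem _ (Subgroup.pow_mem _ (Subgroup.mem_zpowers _) m)

theorem val_add (R : Per I G) (q m : ℕ) :
    R.val (q + m * (2 * R.n)) = R.val q * (R.rel ^ m)⁻¹ := by
  unfold Per.val
  rw [show (q + m * (2 * R.n) + 1) / 2 = (q + 1) / 2 + m * R.n by
    rw [show q + m * (2 * R.n) + 1 = (q + 1) + 2 * (m * R.n) by ring]
    omega, W_mul_inv]

theorem val_mod (R : Per I G) (q : ℕ) :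
    ∃ c ∈ Subgroup.zpowers R.rel, R.val q = R.val (q % (2 * R.n)) * c := by
  refine ⟨_, pow_mem R (q / (2 * R.n)), ?_⟩
  rw [← val_add]
  congr 1
  have h := Nat.mod_add_div q (2 * R.n)
  rw [mul_comm (2 * R.n)] at h
  exact h.symm

variable [MulAction (CoprodI G) A] {R : Per I G}

theorem pos_add_mul {a : A} (ha : R.Closed a) (k m : ℕ) :
    R.pos a (k + m * R.n) = R.pos a k := by
  induction m with
  | zero => simp
  | succ m ih =>
    rw [show k + (m + 1) * R.n = k + m * R.n + R.n by ring, R.pos_add ha, ih]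

theorem s_add_mul (k m : ℕ) : R.s (k + m * R.n) = R.s k := by
  induction m with
  | zero => simp
  | succ m ih =>
    rw [show k + (m + 1) * R.n = k + m * R.n + R.n by ring, R.per, ih]

theorem closed_zpow {a : A} (ha : R.Closed a) (m : ℤ) : mv (R.rel ^ m) a = a := by
  have h1 : ∀ m : ℕ, mv (R.rel ^ m) a = a := by
    intro m
    induction m with
    | zero => rw [pow_zero, mv_one]
    | succ m ih => rw [pow_succ, mv_mul, ih, ha]
  obtain ⟨m, rfl | rfl⟩ := m.eq_nat_or_neg
  · rw [zpow_natCast, h1]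
  · rw [zpow_neg, zpow_natCast]
    conv_lhs => rw [← h1 m]
    rw [mv_inv]

theorem eq_of_side (q q'' : ℕ) (h : (q + 1) / 2 = (q'' + 1) / 2)
    (hs : (R.s (q / 2)).1 = (R.s (q'' / 2)).1) : q = q'' := by
  by_contra hne
  have h1 : q / 2 + 1 = q'' / 2 ∨ q'' / 2 + 1 = q / 2 := by omega
  rcases h1 with h1 | h1
  · rw [← h1] at hs
    exact R.adj _ hs
  · rw [← h1] at hs
    exact R.adj _ hs.symm

/-- different passes over an edge have different cosets -/
theorem distinct {a a' : A} (ha : R.Closed a) (_ : R.Closed a') (q q' : ℕ)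
    (hts : R.ts a q = R.ts a' q') (hv : (R.val q)⁻¹ * R.val q' ∈ Subgroup.zpowers R.rel) :
    a = a' ∧ q % (2 * R.n) = q' % (2 * R.n) := by
  obtain ⟨m, hm⟩ := Subgroup.mem_zpowers_iff.1 hv
  unfold Per.val at hm
  rw [inv_inv, eq_mul_inv_iff_mul_eq] at hm
  unfold Per.ts at hts
  obtain ⟨h1, h2⟩ := Prod.mk.inj hts
  have haa : a = a' := by
    unfold Per.pos at h1
    rw [← hm, mv_mul, closed_zpow ha] at h1
    exact mv_inj _ h1
  refine ⟨haa, ?_⟩
  have h3 := R.W_zpow hm.symm
  have hn := R.hn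
  obtain ⟨m, rfl | rfl⟩ := m.eq_nat_or_neg
  · have h4 : (q + 1) / 2 = (q' + 1) / 2 + m * R.n := by exact_mod_cast h3
    have h5 := eq_of_side (R := R) q (q' + m * (2 * R.n)) (by
      rw [h4, show q' + m * (2 * R.n) + 1 = (q' + 1) + 2 * (m * R.n) by ring]
      omega) (by
      rw [h2, show q' + m * (2 * R.n) = q' + 2 * (m * R.n) by ring,
        show (q' + 2 * (m * R.n)) / 2 = q' / 2 + m * R.n by omega, s_add_mul])
    rw [h5, Nat.add_mul_mod_self_right]
  · have h4 : (q' + 1) / 2 = (q + 1) / 2 + m * R.n := by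
      have h5 : (((q' + 1) / 2 : ℕ) : ℤ) = (((q + 1) / 2 + m * R.n : ℕ) : ℤ) := by
        push_cast
        push_cast at h3
        linarith
      exact_mod_cast h5
    have h5 := eq_of_side (R := R) q' (q + m * (2 * R.n)) (by
      rw [h4, show q + m * (2 * R.n) + 1 = (q + 1) + 2 * (m * R.n) by ring]
      omega) (by
      rw [← h2, show q + m * (2 * R.n) = q + 2 * (m * R.n) by ring,
        show (q + 2 * (m * R.n)) / 2 = q / 2 + m * R.n by omega, s_add_mul])
    rw [h5, Nat.add_mul_mod_self_right]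

/-- highest passes -/
def Top (K : Cone (Subgroup.zpowers R.rel)) (F : Finset A) (a : A) (q : ℕ) : Prop :=
  ∀ a' ∈ F, ∀ q', R.ts a' q' = R.ts a q → ¬ K.lt (R.val q) (R.val q')

section
open Classical
variable (K : Cone (Subgroup.zpowers R.rel)) {S : Finset (A × I)} {F : Finset A}

theorem top_add {a : A} (ha : R.Closed a) (q : ℕ) :
    Top K F a (q + 2 * R.n) ↔ Top K F a q := by
  unfold Top
  have h1 : R.val (q + 2 * R.n) = R.val q * (R.rel ^ 1)⁻¹ := by
    rw [← val_add, one_mul]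
  simp only [R.ts_add ha, h1, K.lt_mul_right (pow_mem R 1)]

/-- there is a highest pass -/
theorem exists_top {a : A} : ∃ q < 2 * R.n, Top K F a q := by
  have hn := R.hn
  obtain ⟨q, hq, hmax⟩ := K.exists_max (Finset.range (2 * R.n))
    ⟨0, Finset.mem_range.2 (by omega)⟩ R.val
  refine ⟨q, Finset.mem_range.1 hq, fun a' _ q' _ => ?_⟩
  obtain ⟨c, hc, h⟩ := val_mod R q'
  rw [h, K.lt_mul_right' hc]
  exact hmax _ (Finset.mem_range.2 (Nat.mod_lt _ (by omega)))

/-- there is a pass which is not the highest -/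
theorem exists_not_top (hC : R.Cplx S F) (h2 : ∀ s ∈ S, 2 ≤ (R.passes F s).card) {a : A}
    (ha : a ∈ F) : ∃ q < 2 * R.n, ¬ Top K F a q := by
  have hn := R.hn
  obtain ⟨q, hq, hmin⟩ := K.exists_min (Finset.range (2 * R.n))
    ⟨0, Finset.mem_range.2 (by omega)⟩ R.val
  refine ⟨q, Finset.mem_range.1 hq, fun htop => ?_⟩
  have h3 := h2 _ ((hC a ha).2 q)
  obtain ⟨⟨a', q'⟩, hp, hne⟩ := Finset.exists_mem_ne (show 1 < _ from h3) (a, q)
  obtain ⟨ha', hq', hts⟩ := Per.mem_passes.1 hp
  simp only at ha' hq' hts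
  have h4 := htop a' ha' q' hts
  have h5 := hmin q' (Finset.mem_range.2 hq')
  have h6 : (R.val q)⁻¹ * R.val q' ∈ Subgroup.zpowers R.rel := by
    by_contra hno
    rcases K.lt_total hno with h | h
    · exact h4 h
    · exact h5 h
  obtain ⟨h7, h8⟩ := distinct (hC a ha).1 (hC a' ha').1 q q' hts.symm h6
  rw [Nat.mod_eq_of_lt (Finset.mem_range.1 hq), Nat.mod_eq_of_lt hq'] at h8
  exact hne (by rw [h7, h8])

/-- the tops -/
noncomputable def tops (F : Finset A) : Finset (A × ℕ) :=
  (F ×ˢ Finset.range (2 * R.n)).filter fun x => Top K F x.1 x.2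

/-- the pairs of neighbouring tops -/
noncomputable def prs (F : Finset A) : Finset (A × ℕ) :=
  (F ×ˢ Finset.range (2 * R.n)).filter fun x => Top K F x.1 x.2 ∧ Top K F x.1 (x.2 + 1)

theorem tops_card (hC : R.Cplx S F) : (tops K F).card ≤ S.card := by
  refine Finset.card_le_card_of_injOn (fun x => R.ts x.1 x.2) ?_ ?_
  · intro x hx
    obtain ⟨h1, _⟩ := Finset.mem_filter.1 (Finset.mem_coe.1 hx)
    exact (hC x.1 (Finset.mem_product.1 h1).1).2 x.2
  · rintro ⟨a, q⟩ hx ⟨a', q'⟩ hx' h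
    obtain ⟨h1, h2⟩ := Finset.mem_filter.1 (Finset.mem_coe.1 hx)
    obtain ⟨h1', h2'⟩ := Finset.mem_filter.1 (Finset.mem_coe.1 hx')
    obtain ⟨ha, hq⟩ := Finset.mem_product.1 h1
    obtain ⟨ha', hq'⟩ := Finset.mem_product.1 h1'
    simp only at ha hq ha' hq' h2 h2' h
    have h4 := h2 a' ha' q' h.symm
    have h5 := h2' a ha q h
    have h6 : (R.val q)⁻¹ * R.val q' ∈ Subgroup.zpowers R.rel := by
      by_contra hno
      rcases K.lt_total hno with h | h
      · exact h4 h
      · exact h5 h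
    obtain ⟨h7, h8⟩ := distinct (hC a ha).1 (hC a' ha').1 q q' h h6
    rw [Nat.mod_eq_of_lt (Finset.mem_range.1 hq), Nat.mod_eq_of_lt (Finset.mem_range.1 hq')] at h8
    rw [h7, h8]

theorem prs_card (hC : R.Cplx S F) (h2 : ∀ s ∈ S, 2 ≤ (R.passes F s).card) :
    (prs K F).card + F.card ≤ (tops K F).card := by
  have h : ∀ a ∈ F, ∃ q < 2 * R.n, Top K F a q ∧ ¬ Top K F a (q + 1) := by
    intro a ha
    have hcl := (hC a ha).1
    obtain ⟨q1, hq1, ht1⟩ := exists_top (F := F) K (a := a)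
    obtain ⟨q2, hq2, ht2⟩ := exists_not_top K hC h2 ha
    by_contra hno
    push Not at hno
    have hmod : ∀ q, Top K F a q ↔ Top K F a (q % (2 * R.n)) := by
      intro q
      have h1 : ∀ m r, Top K F a (r + m * (2 * R.n)) ↔ Top K F a r := by
        intro m r
        induction m with
        | zero => simp
        | succ m ih =>
          rw [show r + (m + 1) * (2 * R.n) = r + m * (2 * R.n) + 2 * R.n by ring,
            top_add K hcl, ih]
      have h3 := h1 (q / (2 * R.n)) (q % (2 * R.n))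
      rwa [mul_comm (q / (2 * R.n)), Nat.mod_add_div] at h3
    have hstep : ∀ q, Top K F a q → Top K F a (q + 1) := by
      intro q hq
      have hlt : q % (2 * R.n) < 2 * R.n := Nat.mod_lt _ (by omega)
      have h3 := hno _ hlt ((hmod q).1 hq)
      rw [hmod] at h3 ⊢
      rwa [Nat.mod_add_mod] at h3
    have hall : ∀ j, Top K F a (q1 + j) := by
      intro j
      induction j with
      | zero => exact ht1
      | succ j ih => exact hstep _ ih
    have h3 := hall (q2 + 2 * R.n - q1)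
    rw [show q1 + (q2 + 2 * R.n - q1) = q2 + 2 * R.n by omega, top_add K hcl] at h3
    exact ht2 h3
  choose! q0 hq0 using h
  have h1 : (F.image fun a => (a, q0 a)).card = F.card :=
    Finset.card_image_of_injective _ fun a b hab => congrArg Prod.fst hab
  rw [← h1, ← Finset.card_union_of_disjoint]
  · refine Finset.card_le_card fun x hx => ?_
    rcases Finset.mem_union.1 hx with hx | hx
    · obtain ⟨h3, h4⟩ := Finset.mem_filter.1 hx
      exact Finset.mem_filter.2 ⟨h3, h4.1⟩
    · obtain ⟨a, ha, rfl⟩ := Finset.mem_image.1 hx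
      exact Finset.mem_filter.2 ⟨Finset.mem_product.2 ⟨ha, Finset.mem_range.2 (hq0 a ha).1⟩,
        (hq0 a ha).2.1⟩
  · refine Finset.disjoint_left.2 fun x hx hx' => ?_
    obtain ⟨a, ha, rfl⟩ := Finset.mem_image.1 hx'
    exact (hq0 a ha).2.2 (Finset.mem_filter.1 hx).2.2

/-- reduction of a position to a position between one and `n` -/
theorem reduce (k : ℕ) : ∃ k' < R.n, ∃ c ∈ Subgroup.zpowers R.rel,
    (R.W k)⁻¹ = (R.W (k' + 1))⁻¹ * c ∧ ∀ a : A, R.Closed a → R.pos a (k' + 1) = R.pos a k := by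
  have hn := R.hn
  refine ⟨(k + R.n - 1) % R.n, Nat.mod_lt _ hn,
    (R.rel ^ ((k + R.n - 1) / R.n))⁻¹ * R.rel, ?_, ?_, ?_⟩
  · exact Subgroup.mul_mem _ (pow_mem R _) (Subgroup.mem_zpowers _)
  · have h1 : (k + R.n - 1) % R.n + 1 + ((k + R.n - 1) / R.n) * R.n = k + R.n := by
      have := Nat.mod_add_div (k + R.n - 1) R.n
      rw [mul_comm] at this
      omega
    rw [← mul_assoc, ← W_mul_inv, h1, R.W_add, mul_inv_rev, inv_mul_cancel_right]
  · intro a ha
    have h1 : (k + R.n - 1) % R.n + 1 + ((k + R.n - 1) / R.n) * R.n = k + R.n := by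
      have := Nat.mod_add_div (k + R.n - 1) R.n
      rw [mul_comm] at this
      omega
    rw [← pos_add_mul ha _ ((k + R.n - 1) / R.n), h1, R.pos_add ha]

/-- every vertex has a pair of neighbouring tops -/
theorem vertex_pair (hC : R.Cplx S F) (h2 : ∀ s ∈ S, 2 ≤ (R.passes F s).card) :
    S.image Prod.fst ⊆ ((prs K F).filter fun x => x.2 % 2 = 1).image
      fun x => R.pos x.1 ((x.2 + 1) / 2) := by
  intro b hb
  obtain ⟨⟨b', i⟩, hs, rfl⟩ := Finset.mem_image.1 hb
  have h3 := h2 _ hs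
  obtain ⟨⟨a1, q1⟩, hp⟩ := Finset.card_pos.1 (show 0 < (R.passes F (b', i)).card by omega)
  obtain ⟨ha1, hq1, hts⟩ := Per.mem_passes.1 hp
  simp only at ha1 hq1 hts
  let X := (F ×ˢ Finset.range R.n).filter fun x => R.pos x.1 (x.2 + 1) = b'
  have hred : ∀ a ∈ F, ∀ q, (R.ts a q).1 = b' → ∃ x ∈ X, ∃ c ∈ Subgroup.zpowers R.rel,
      R.val q = (R.W (x.2 + 1))⁻¹ * c := by
    intro a ha q hq
    obtain ⟨k', hk', c, hc, h4, h5⟩ := reduce (A := A) (R := R) ((q + 1) / 2)
    refine ⟨(a, k'), Finset.mem_filter.2 ⟨Finset.mem_product.2 ⟨ha, Finset.mem_range.2 hk'⟩, ?_⟩,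
      c, hc, h4⟩
    simp only
    rw [h5 a (hC a ha).1]
    exact hq
  have hX : X.Nonempty := by
    obtain ⟨x, hx, _⟩ := hred a1 ha1 q1 (congrArg Prod.fst hts)
    exact ⟨x, hx⟩
  obtain ⟨⟨a, k⟩, hx, hmax⟩ := K.exists_max X hX fun x => (R.W (x.2 + 1))⁻¹
  obtain ⟨h4, h5⟩ := Finset.mem_filter.1 hx
  obtain ⟨ha, hk⟩ := Finset.mem_product.1 h4
  simp only at ha hk h5 hmax
  have htop : ∀ q, (q + 1) / 2 = k + 1 → Top K F a q := by
    intro q hq a' ha' q' hts'
    have h6 : (R.ts a' q').1 = b' := by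
      rw [hts']
      unfold Per.ts
      rw [hq]
      exact h5
    obtain ⟨x, hx, c, hc, h7⟩ := hred a' ha' q' h6
    rw [h7, K.lt_mul_right' hc]
    have h8 : R.val q = (R.W (k + 1))⁻¹ := by unfold Per.val; rw [hq]
    rw [h8]
    exact hmax x hx
  refine Finset.mem_image.2 ⟨(a, 2 * k + 1), Finset.mem_filter.2 ⟨Finset.mem_filter.2
    ⟨Finset.mem_product.2 ⟨ha, Finset.mem_range.2 ?_⟩, htop _ (by simp only; omega),
      htop _ (by simp only; omega)⟩, by simp only; omega⟩, ?_⟩
  · have := Finset.mem_range.1 hk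
    simp only
    omega
  · simp only
    rw [show (2 * k + 1 + 1) / 2 = k + 1 by omega]
    exact h5

/-- every dead orbit has a pair of neighbouring tops -/
theorem dead_pair (hC : R.Cplx S F) (h2 : ∀ s ∈ S, 2 ≤ (R.passes F s).card)
    (hst : ∀ (i : I) (a : A) (g : G i), ¬ Live (orb G (a, i)) → mv (of g) a = a → g = 1) :
    ((S.image (orb G)).filter fun κ => ¬ Live κ) ⊆
      ((prs K F).filter fun x => x.2 % 2 = 0).image fun x => orb G (R.ts x.1 x.2) := by
  intro κ hκ
  obtain ⟨hκ1, hdead⟩ := Finset.mem_filter.1 hκ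
  obtain ⟨⟨b, i⟩, hs, rfl⟩ := Finset.mem_image.1 hκ1
  have hn := R.hn
  have h3 := h2 _ hs
  obtain ⟨⟨a1, q1⟩, hp⟩ := Finset.card_pos.1 (show 0 < (R.passes F (b, i)).card by omega)
  obtain ⟨ha1, hq1, hts⟩ := Per.mem_passes.1 hp
  simp only at ha1 hq1 hts
  -- coordinates in the orbit
  have hgb : ∀ c : A, ∃ g : G i, orb G (c, i) = orb G (b, i) → mv (of g) b = c := by
    intro c
    by_cases h : orb G (c, i) = orb G (b, i)
    · obtain ⟨g, hg⟩ := orb_eq.1 h.symm
      exact ⟨g, fun _ => (congrArg Prod.fst hg).symm⟩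
    · exact ⟨1, fun h' => absurd h' h⟩
  choose gb hgb using hgb
  have hgu : ∀ (c : A) (g : G i), mv (of g) b = c → gb c = g := by
    intro c g hg
    have h1 : orb G (c, i) = orb G (b, i) := by rw [← hg, orb_mv]
    have h4 := hgb c h1
    have h5 : mv (of (gb c * g⁻¹)) b = b := by
      rw [map_mul, mv_mul, h4, ← hg, map_inv, mv_inv]
    exact mul_inv_eq_one.1 (hst i b _ hdead h5)
  let f : A × ℕ → CoprodI G := fun x => of (gb (R.pos x.1 x.2)) * (R.W x.2)⁻¹
  have hval : ∀ (a : A) (q : ℕ) (c : A), R.ts a q = (c, i) → orb G (c, i) = orb G (b, i) →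
      of (gb c) * R.val q = f (a, q / 2) := by
    intro a q c hq hc
    simp only [f]
    rcases Nat.even_or_odd' q with ⟨k, rfl | rfl⟩
    · rw [R.ts_even] at hq
      rw [show 2 * k / 2 = k by omega]
      unfold Per.val
      rw [show (2 * k + 1) / 2 = k by omega, (Prod.mk.inj hq).1]
    · rw [R.ts_odd] at hq
      rw [show (2 * k + 1) / 2 = k by omega]
      unfold Per.val
      rw [show (2 * k + 1 + 1) / 2 = k + 1 by omega]
      obtain ⟨h5, h6⟩ := Prod.mk.inj hq
      rw [R.pos_succ] at h5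
      have hWs : R.W (k + 1) = R.W k * of (R.s k).2 := R.W_succ k
      rw [hWs]
      clear hq hWs
      generalize R.s k = y at h5 h6
      obtain ⟨j, y⟩ := y
      simp only at h5 h6
      subst h6
      have h7 : orb G (R.pos a k, j) = orb G (b, j) := by
        rw [← hc, ← h5, orb_mv]
      have h8 := hgu c (gb (R.pos a k) * y) (by rw [map_mul, mv_mul, hgb _ h7, h5])
      rw [h8, map_mul, mul_inv_rev]
      group
  let X := (F ×ˢ Finset.range R.n).filter fun x =>
    (R.s x.2).1 = i ∧ orb G (R.pos x.1 x.2, i) = orb G (b, i)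
  have hred : ∀ a ∈ F, ∀ q, orb G (R.ts a q) = orb G (b, i) → ∃ x ∈ X,
      ∃ c ∈ Subgroup.zpowers R.rel, f (a, q / 2) = f x * c := by
    intro a ha q hq
    have hcl := (hC a ha).1
    have h5 : orb G (R.ts a (2 * (q / 2))) = orb G (b, i) := by
      rcases Nat.even_or_odd' q with ⟨k, rfl | rfl⟩
      · rwa [show 2 * k / 2 = k by omega]
      · rw [show (2 * k + 1) / 2 = k by omega, R.ts_even]
        rw [R.ts_odd, R.pos_succ, orb_mv] at hq
        exact hq
    rw [R.ts_even] at h5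
    obtain ⟨g, hg⟩ := orb_eq.1 h5
    have h6 : (R.s (q / 2)).1 = i := (congrArg Prod.snd hg).symm
    have h7 : q / 2 % R.n + (q / 2 / R.n) * R.n = q / 2 := by
      rw [mul_comm]; exact Nat.mod_add_div _ _
    have h8 : R.s (q / 2) = R.s (q / 2 % R.n) := by
      conv_lhs => rw [← h7, s_add_mul]
    have h9 : R.pos a (q / 2) = R.pos a (q / 2 % R.n) := by
      conv_lhs => rw [← h7, pos_add_mul hcl]
    refine ⟨(a, q / 2 % R.n), Finset.mem_filter.2 ⟨Finset.mem_product.2
      ⟨ha, Finset.mem_range.2 (Nat.mod_lt _ hn)⟩, ?_, ?_⟩, _, pow_mem R (q / 2 / R.n), ?_⟩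
    · simp only
      rw [← h8, h6]
    · simp only
      rw [← h9]
      rw [h6] at h5
      exact h5
    · simp only [f]
      rw [h9, mul_assoc, ← W_mul_inv, h7]
  have hX : X.Nonempty := by
    obtain ⟨x, hx, _⟩ := hred a1 ha1 q1 (by rw [hts])
    exact ⟨x, hx⟩
  obtain ⟨⟨a, k⟩, hx, hmax⟩ := K.exists_max X hX f
  obtain ⟨h4, h5, h6⟩ := Finset.mem_filter.1 hx
  obtain ⟨ha, hk⟩ := Finset.mem_product.1 h4
  simp only at ha hk h5 h6
  have htop : ∀ q, q / 2 = k → Top K F a q := by
    intro q hq a' ha' q' hts'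
    have h7 : orb G (R.ts a q) = orb G (b, i) := by
      rcases Nat.even_or_odd' q with ⟨k', rfl | rfl⟩
      · rw [show 2 * k' / 2 = k' by omega] at hq
        subst hq
        rw [R.ts_even, h5]
        exact h6
      · rw [show (2 * k' + 1) / 2 = k' by omega] at hq
        subst hq
        rw [R.ts_odd, R.pos_succ, orb_mv, h5]
        exact h6
    have h8 : (R.ts a q).2 = i := by
      unfold Per.ts
      rw [hq]
      exact h5
    have h9 : R.ts a q = ((R.ts a q).1, i) := Prod.ext rfl h8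
    have h10 := hval a q (R.ts a q).1 h9 (by rw [← h9]; exact h7)
    have h11 := hval a' q' (R.ts a q).1 (by rw [hts']; exact h9) (by rw [← h9]; exact h7)
    rw [← K.lt_mul_left (of (gb (R.ts a q).1)), h10, h11]
    obtain ⟨x, hx, c, hc, h12⟩ := hred a' ha' q' (by rw [hts']; exact h7)
    rw [h12, K.lt_mul_right' hc, hq]
    exact hmax x hx
  refine Finset.mem_image.2 ⟨(a, 2 * k), Finset.mem_filter.2 ⟨Finset.mem_filter.2
    ⟨Finset.mem_product.2 ⟨ha, Finset.mem_range.2 ?_⟩, htop _ (by simp only; omega),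
      htop _ (by simp only; omega)⟩, by simp only; omega⟩, ?_⟩
  · have := Finset.mem_range.1 hk
    simp only
    omega
  · simp only
    rw [R.ts_even, h5]
    exact h6

include K in
/-- **The counting inequality.** -/
theorem ineq (hC : R.Cplx S F) (h2 : ∀ s ∈ S, 2 ≤ (R.passes F s).card)
    (hst : ∀ (i : I) (a : A) (g : G i), ¬ Live (orb G (a, i)) → mv (of g) a = a → g = 1) :
    F.card + (S.image Prod.fst).card + ((S.image (orb G)).filter fun κ => ¬ Live κ).card ≤
      S.card := by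
  have h3 := tops_card K hC
  have h4 := prs_card K hC h2
  have h5 := (Finset.card_le_card (vertex_pair K hC h2)).trans Finset.card_image_le
  have h6 := (Finset.card_le_card (dead_pair K hC h2 hst)).trans Finset.card_image_le
  have h7 : ((prs K F).filter fun x => x.2 % 2 = 1).card +
      ((prs K F).filter fun x => x.2 % 2 = 0).card ≤ (prs K F).card := by
    rw [← Finset.card_union_of_disjoint]
    · exact Finset.card_le_card (Finset.union_subset (Finset.filter_subset _ _)
        (Finset.filter_subset _ _))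
    · refine Finset.disjoint_left.2 fun x hx hx' => ?_
      have e1 := (Finset.mem_filter.1 hx).2
      have e2 := (Finset.mem_filter.1 hx').2
      omega
  omega

end

end Pool.Agent.V5helper80.One
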