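import Pool.Agent.V5helper80.One.Rank
import Pool.Agent.V5helper80.Rel.Li

/-!
# Subgroups without homomorphisms that kill the relator are cyclic
-/

set_option autoImplicit false

namespace Pool.Agent.V5helper80.One

open Monoid (CoprodI)
open Monoid.CoprodI (of)
open Pool.Agent.V5helper80.Rel

variable {I A : Type} {G : I → Type} [∀ i, Group (G i)] [MulAction (CoprodI G) A]

/-- twisted potentials -/
def Tw (S : Set (A × I)) (θ : ∀ i, A → G i → ℤ) (u : CoprodI G) (p : A → CoprodI G) : Prop :=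
  ∀ (i : I) (a : A) (g : G i), (a, i) ∈ S → (mv (of g) a, i) ∈ S →
    u ^ θ i a g * p (mv (of g) a) = p a * of g

theorem Tw.mono {S T : Set (A × I)} {θ : ∀ i, A → G i → ℤ} {u : CoprodI G} {p : A → CoprodI G}
    (h : Tw S θ u p) (hT : T ⊆ S) : Tw T θ u p := fun i a g h1 h2 => h i a g (hT h1) (hT h2)

theorem coc_inv {θ : ∀ i, A → G i → ℤ} (hθ : IsCoc θ) (i : I) (a : A) (g : G i) :
    θ i (mv (of g) a) g⁻¹ = - θ i a g := by
  have h := hθ i a g g⁻¹
  rw [mul_inv_cancel, coc_one hθ] at h
  linarith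

theorem Tw.extend {T : Set (A × I)} {θ : ∀ i, A → G i → ℤ} (hθ : IsCoc θ) {u : CoprodI G}
    {p : A → CoprodI G} (hp : Tw T θ u p) (i : I) (b : A) (h : G i) (hb : (b, i) ∈ T)
    (hpa : u ^ θ i b h * p (mv (of h) b) = p b * of h) : Tw (insert (mv (of h) b, i) T) θ u p := by
  have h1 : ∀ g : G i, (mv (of g) (mv (of h) b), i) ∈ T →
      u ^ θ i (mv (of h) b) g * p (mv (of g) (mv (of h) b)) = p (mv (of h) b) * of g := by
    intro g hg
    have h2 : mv (of g) (mv (of h) b) = mv (of (h * g)) b := by rw [map_mul, mv_mul]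
    rw [h2] at hg ⊢
    have h3 := hp i b (h * g) hb hg
    rw [hθ, map_mul, zpow_add, ← mul_assoc (p b), ← hpa, mul_assoc, mul_assoc] at h3
    have h4 := mul_left_cancel h3
    rw [map_mul]
    exact h4
  have h2 : ∀ g : G i, mv (of g) (mv (of h) b) = mv (of h) b →
      u ^ θ i (mv (of h) b) g * p (mv (of h) b) = p (mv (of h) b) * of g := by
    intro g hg
    have h3 : mv (of (h * g * h⁻¹)) b = b := by
      rw [map_mul, map_mul, mv_mul, mv_mul, hg, map_inv, mv_inv]
    have h4 := hp i b (h * g * h⁻¹) hb (by rw [h3]; exact hb)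
    have h5 : θ i b (h * g * h⁻¹) = θ i (mv (of h) b) g := by
      rw [hθ, hθ, map_mul, mv_mul, hg, coc_inv hθ]
      ring
    rw [h3, h5, map_mul, map_mul, map_inv, ← mul_assoc, ← mul_assoc, eq_mul_inv_iff_mul_eq,
      mul_assoc, ← hpa, ← mul_assoc, ← zpow_add, add_comm, zpow_add, mul_assoc, mul_assoc] at h4
    exact mul_left_cancel h4
  intro j a g ha hga
  rcases ha with ha | ha
  · obtain ⟨rfl, rfl⟩ := Prod.mk.inj ha
    rcases hga with hga | hga
    · have h3 := congrArg Prod.fst hga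
      simp only at h3
      have h4 := h2 g h3
      rw [h3]
      exact h4
    · exact h1 g hga
  · rcases hga with hga | hga
    · obtain ⟨h4, rfl⟩ := Prod.mk.inj hga
      have h5 : a = mv (of g⁻¹) (mv (of h) b) := by rw [← h4, map_inv, mv_inv]
      have h6 := h1 g⁻¹ (by rw [← h5]; exact ha)
      rw [← h5] at h6
      have h7 : θ j (mv (of h) b) g⁻¹ = - θ j a g := by rw [← h4, coc_inv hθ]
      rw [h7, zpow_neg, map_inv, eq_mul_inv_iff_mul_eq, mul_assoc, inv_mul_eq_iff_eq_mul] at h6
      rw [h4]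
      exact h6.symm
    · exact hp j a g ha hga

section
open Classical
variable {R : Per I G}

/-- outside live orbits a cocycle is a coboundary on the edges -/
theorem exists_tau (S : Finset (A × I)) (hlive : ∀ s ∈ S, ¬ Live (orb G s))
    (c : ∀ i, A → G i → ℚ) (hc : IsCoc c) :
    ∃ τ : A × I → ℚ, ∀ (i : I) (a : A) (g : G i), (a, i) ∈ S → (mv (of g) a, i) ∈ S →
      c i a g = τ (mv (of g) a, i) - τ (a, i) := by
  have hrep : ∀ κ : Quotient (clu A G), ∃ x : A × I, orb G x = κ := fun κ => Quotient.exists_rep κ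
  choose rep hrep using hrep
  have hg : ∀ s : A × I, ∃ g : G s.2, mv (of g) (rep (orb G s)).1 = s.1 := by
    rintro ⟨b, j⟩
    have h1 := hrep (orb G (b, j))
    obtain ⟨g, hg⟩ := orb_eq.1 (show orb G ((rep (orb G (b, j))).1, (rep (orb G (b, j))).2) =
      orb G (b, j) from h1)
    have h2 : j = (rep (orb G (b, j))).2 := congrArg Prod.snd hg
    have h3 := congrArg Prod.fst hg
    simp only at h3
    revert g
    rw [← h2]
    intro g _ h3
    exact ⟨g, h3.symm⟩
  choose g0 hg0 using hg
  have hidx : ∀ s : A × I, (rep (orb G s)).2 = s.2 := by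
    rintro ⟨b, j⟩
    have h1 := hrep (orb G (b, j))
    obtain ⟨g, hg⟩ := orb_eq.1 (show orb G ((rep (orb G (b, j))).1, (rep (orb G (b, j))).2) =
      orb G (b, j) from h1)
    exact (congrArg Prod.snd hg).symm
  refine ⟨fun s => c s.2 (rep (orb G s)).1 (g0 s), ?_⟩
  intro i a g ha hga
  have h1 : orb G (mv (of g) a, i) = orb G (a, i) := orb_mv a i g
  have e1 := hg0 (a, i)
  have e2 := hg0 (mv (of g) a, i)
  have e3 := hidx (a, i)
  simp only
  generalize hgg2 : g0 (mv (of g) a, i) = y at e2 ⊢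
  clear hgg2
  revert y
  rw [h1]
  intro y e2
  generalize g0 (a, i) = x at e1 ⊢
  set a' := (rep (orb G (a, i))).1 with ha'
  simp only at x y e1 e2
  have e4 : orb G (a', i) = orb G (a, i) := by
    have e5 : (a', i) = rep (orb G (a, i)) := Prod.ext rfl e3.symm
    rw [e5]
    exact hrep _
  have h2 : mv (of (x * g * y⁻¹)) a' = a' := by
    rw [map_mul, map_mul, mv_mul, mv_mul, e1, ← e2, map_inv, mv_inv]
  have h3 : c i a' (x * g * y⁻¹) = 0 := by
    by_contra hne
    refine hlive _ ha ⟨fun j b h => if orb G (b, j) = orb G (a, i) then c j b h else 0, ?_, ?_,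
      i, a', x * g * y⁻¹, e4, h2, ?_⟩
    · intro j b h h'
      simp only [orb_mv]
      split_ifs
      · exact hc j b h h'
      · ring
    · intro j b h hne'
      simp only [if_neg hne']
    · simp only [if_pos e4]
      exact hne
  have h4 := hc i a' x g
  have h5 := hc i a' (x * g * y⁻¹) y
  rw [h2, h3, inv_mul_cancel_right, h4, e1] at h5
  linarith

theorem ar_of_tau (S : Finset (A × I)) (a : A) (ha : ∀ q, R.ts a q ∈ S)
    (c : ∀ i, A → G i → ℚ) (τ : A × I → ℚ)
    (h : ∀ (i : I) (a : A) (g : G i), (a, i) ∈ S → (mv (of g) a, i) ∈ S →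
      c i a g = τ (mv (of g) a, i) - τ (a, i)) :
    R.ar c a = ∑ s ∈ S, τ s * R.ar (ind G s) a := by
  unfold Per.ar
  simp only [Finset.mul_sum]
  rw [Finset.sum_comm]
  refine Finset.sum_congr rfl fun k _ => ?_
  have h1 := ha (2 * k)
  have h2 := ha (2 * k + 1)
  have h3 : c _ (R.pos a k) (R.s k).2 = τ (R.ts a (2 * k + 1)) - τ (R.ts a (2 * k)) := by
    rw [R.ts_odd, R.ts_even]
    rw [R.ts_even] at h1
    rw [R.ts_odd] at h2
    rw [R.pos_succ] at h2 ⊢
    exact h _ _ _ h1 h2
  rw [h3]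
  simp only [ind_side, mul_sub, Finset.sum_sub_distrib, mul_ite, mul_one, mul_zero]
  rw [Finset.sum_ite_eq, Finset.sum_ite_eq, if_pos h1, if_pos h2]

/-- the integral version of `ind` -/
noncomputable def indZ (G : I → Type) [∀ i, Group (G i)] [MulAction (CoprodI G) A] (s : A × I) :
    ∀ i, A → G i → ℤ := fun i a g =>
  (if (mv (of g) a, i) = s then 1 else 0) - (if (a, i) = s then 1 else 0)

theorem isCoc_indZ (s : A × I) : IsCoc (indZ G s) := by
  intro i a g h
  unfold indZ
  rw [map_mul, mv_mul]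
  ring

/-- **Subgroups without homomorphisms that kill the relator**, geometric form -/
theorem cyc (hst : ∀ (i : I) (a : A) (g : G i), ¬ Live (orb G (a, i)) → mv (of g) a = a → g = 1)
    (a0 : A) : ∀ (m : ℕ) (S : Finset (A × I)), S.card = m → R.Cplx S {a0} → R.HZ S {a0} →
      ∃ (θ : ∀ i, A → G i → ℤ) (u : CoprodI G) (p : A → CoprodI G), IsCoc θ ∧
        Tw (S : Set (A × I)) θ u p := by
  intro m
  induction m using Nat.strong_induction_on with
  | _ m ih =>
  intro S hm hC hz
  have hcl : R.Closed a0 := (hC a0 (Finset.mem_singleton_self _)).1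
  have hts : ∀ q, R.ts a0 q ∈ S := (hC a0 (Finset.mem_singleton_self _)).2
  have hSne : S.Nonempty := ⟨_, hts 0⟩
  -- the trivial extension
  have triv_ext : ∀ s ∈ S, (∀ x ∈ S, orb G x = orb G s → x = s) → ¬ Live (orb G s) →
      ∀ (θ : ∀ i, A → G i → ℤ) (u : CoprodI G) (p : A → CoprodI G), IsCoc θ →
        Tw ((S.erase s : Finset (A × I)) : Set (A × I)) θ u p →
        Tw (S : Set (A × I)) θ u p := by
    intro s hs hB hd θ u p hθ hp i a g ha hga
    by_cases hbs : (a, i) = s
    · subst hbs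
      have h1 := hB _ (Finset.mem_coe.1 hga) (orb_mv _ _ _)
      have h2 : mv (of g) a = a := congrArg Prod.fst h1
      have h3 := hst i a g hd h2
      subst h3
      rw [map_one, mv_one, coc_one hθ, zpow_zero, one_mul, mul_one]
    · have hgbs : (mv (of g) a, i) ≠ s := by
        intro h
        refine hbs (hB _ (Finset.mem_coe.1 ha) ?_)
        rw [← h, orb_mv]
      exact hp i a g (Finset.mem_coe.2 (Finset.mem_erase.2 ⟨hbs, ha⟩))
        (Finset.mem_coe.2 (Finset.mem_erase.2 ⟨hgbs, hga⟩))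
  have single_of : ∀ (b : A) (i : I), (∀ g : G i, (mv (of g) b, i) ∉ S.erase (b, i)) →
      ∀ x ∈ S, orb G x = orb G (b, i) → x = (b, i) := by
    rintro b i hB ⟨c, j⟩ hx hxo
    obtain ⟨g, hg⟩ := orb_eq.1 hxo.symm
    by_contra hne'
    refine hB g ?_
    rw [← hg]
    exact Finset.mem_erase.2 ⟨hne', hx⟩
  by_cases hA : ∃ b i, (b, i) ∈ S ∧ ∀ j, (b, j) ∈ S → j = i
  · -- a point of degree one
    obtain ⟨b, i, hs, hdeg⟩ := hA
    have hpass : R.passes {a0} (b, i) = ∅ := by
      rw [Finset.eq_empty_iff_forall_notMem]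
      rintro ⟨a, q⟩ hq0
      obtain ⟨ha, _, hq1⟩ := Per.mem_passes.1 hq0
      have ha' : a = a0 := Finset.mem_singleton.1 ha
      have hq : R.ts a q = (b, i) := hq1
      clear hq1 hq0 ha
      subst ha'
      rcases Nat.even_or_odd' q with ⟨k, rfl | rfl⟩
      · have h1 : R.ts a (2 * (k + R.n - 1) + 1) ∈ S := hts _
        have hn := R.hn
        rw [R.ts_odd, show k + R.n - 1 + 1 = k + R.n by omega, R.pos_add hcl] at h1
        rw [R.ts_even] at hq
        obtain ⟨h2, h3⟩ := Prod.mk.inj hq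
        rw [h2] at h1
        have h4 := hdeg _ h1
        have h5 := R.adj (k + R.n - 1)
        rw [show k + R.n - 1 + 1 = k + R.n by omega, R.per, h3] at h5
        exact h5 h4
      · have h1 : R.ts a (2 * (k + 1)) ∈ S := hts _
        rw [R.ts_even] at h1
        rw [R.ts_odd] at hq
        obtain ⟨h2, h3⟩ := Prod.mk.inj hq
        rw [h2] at h1
        have h4 := hdeg _ h1
        have h5 := R.adj k
        rw [h3] at h5
        exact h5 h4.symm
    obtain ⟨θ, u, p, hθ, hp⟩ := ih _ (by rw [← hm]; exact Finset.card_erase_lt_of_mem hs) _ rfl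
      (Cplx.erase_edge hC _ hpass) (HZ.erase hz (b, i))
    by_cases hB : ∃ g0 : G i, (mv (of g0) b, i) ∈ S.erase (b, i)
    · obtain ⟨g0, hg0⟩ := hB
      have hg0ne : mv (of g0) b ≠ b := by
        intro h
        rw [h] at hg0
        exact Finset.ne_of_mem_erase hg0 rfl
      let p' : A → CoprodI G := Function.update p b
        (u ^ θ i b g0 * p (mv (of g0) b) * (of g0)⁻¹)
      have hpt : ∀ c j, (c, j) ∈ S.erase (b, i) → c ≠ b := by
        intro c j hc hcb
        subst hcb
        have := hdeg j (Finset.mem_of_mem_erase hc)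
        subst this
        exact Finset.ne_of_mem_erase hc rfl
      have hp' : Tw ((S.erase (b, i) : Finset (A × I)) : Set (A × I)) θ u p' := by
        intro j c g hc hgc
        have h1 := hpt _ _ (Finset.mem_coe.1 hc)
        have h2 := hpt _ _ (Finset.mem_coe.1 hgc)
        simp only [p', Function.update_of_ne h1, Function.update_of_ne h2]
        exact hp j c g hc hgc
      have h7 : u ^ θ i (mv (of g0) b) g0⁻¹ * p' (mv (of g0⁻¹) (mv (of g0) b)) =
          p' (mv (of g0) b) * of g0⁻¹ := by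
        rw [map_inv, mv_inv, coc_inv hθ]
        simp only [p', Function.update_self, Function.update_of_ne hg0ne]
        rw [zpow_neg, mul_assoc, inv_mul_cancel_left]
      have h8 := hp'.extend hθ i (mv (of g0) b) g0⁻¹ (Finset.mem_coe.2 hg0) h7
      refine ⟨θ, u, p', hθ, h8.mono ?_⟩
      intro x hx
      by_cases hxs : x = (b, i)
      · left
        rw [hxs, map_inv, mv_inv]
      · right
        exact Finset.mem_coe.2 (Finset.mem_erase.2 ⟨hxs, hx⟩)
    · push Not at hB
      have hB' := single_of b i hB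
      exact ⟨θ, u, p, hθ, triv_ext _ hs hB' (dead_of_single hC hz b i hs hpass hB') θ u p hθ hp⟩
  by_cases hD : ∃ s ∈ S, ¬ Live (orb G s) ∧ ∀ x ∈ S, orb G x = orb G s → x = s
  · -- a dead orbit of degree one
    obtain ⟨⟨b, i⟩, hs, hd, hB⟩ := hD
    have hpass : R.passes {a0} (b, i) = ∅ := by
      rw [Finset.eq_empty_iff_forall_notMem]
      rintro ⟨a, q⟩ hq0
      obtain ⟨ha, _, hq1⟩ := Per.mem_passes.1 hq0
      have ha' : a = a0 := Finset.mem_singleton.1 ha
      have hq : R.ts a q = (b, i) := hq1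
      clear hq1 hq0 ha
      subst ha'
      have key : ∀ k, R.ts a (2 * k) = (b, i) → R.ts a (2 * k + 1) = (b, i) → False := by
        intro k h1 h2
        rw [R.ts_even] at h1
        rw [R.ts_odd, R.pos_succ] at h2
        have h3 : mv (of (R.s k).2) (R.pos a k) = R.pos a k :=
          (congrArg Prod.fst h2).trans (congrArg Prod.fst h1).symm
        refine R.ne1 k (hst _ (R.pos a k) _ ?_ h3)
        rw [h1]
        exact hd
      rcases Nat.even_or_odd' q with ⟨k, rfl | rfl⟩
      · refine key k hq (hB _ (hts _) ?_)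
        rw [← hq, R.ts_odd, R.ts_even, R.pos_succ, orb_mv]
      · refine key k (hB _ (hts _) ?_) hq
        rw [← hq, R.ts_odd, R.ts_even, R.pos_succ, orb_mv]
    obtain ⟨θ, u, p, hθ, hp⟩ := ih _ (by rw [← hm]; exact Finset.card_erase_lt_of_mem hs) _ rfl
      (Cplx.erase_edge hC _ hpass) (HZ.erase hz (b, i))
    exact ⟨θ, u, p, hθ, triv_ext _ hs hB hd θ u p hθ hp⟩
  push Not at hA hD
  -- the count
  have hnl : ∀ s ∈ S, ¬ Live (orb G s) := by
    have h1 : 2 * (S.image Prod.fst).card ≤ S.card := by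
      rw [Finset.card_eq_sum_card_fiberwise (f := Prod.fst) (t := S.image Prod.fst)
        fun x hx => Finset.mem_image_of_mem _ hx]
      calc 2 * (S.image Prod.fst).card = ∑ _x ∈ S.image Prod.fst, 2 := by
            rw [Finset.sum_const, smul_eq_mul, mul_comm]
        _ ≤ _ := Finset.sum_le_sum fun b hb => ?_
      obtain ⟨⟨b', i⟩, hs, rfl⟩ := Finset.mem_image.1 hb
      obtain ⟨j, hj, hji⟩ := hA b' i hs
      have h2 : ({(b', i), (b', j)} : Finset (A × I)) ⊆ S.filter fun x => x.1 = b' := by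
        intro x hx
        rcases Finset.mem_insert.1 hx with rfl | hx
        · exact Finset.mem_filter.2 ⟨hs, rfl⟩
        · rw [Finset.mem_singleton] at hx
          subst hx
          exact Finset.mem_filter.2 ⟨hj, rfl⟩
      have h3 := Finset.card_le_card h2
      rwa [Finset.card_pair (by intro h; exact hji (congrArg Prod.snd h).symm)] at h3
    have h2 : 2 * ((S.image (orb G)).filter fun κ => ¬ Live κ).card +
        ((S.image (orb G)).filter fun κ => Live κ).card ≤ S.card := by
      rw [Finset.card_eq_sum_card_fiberwise (s := S) (f := orb G) (t := S.image (orb G))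
        fun x hx => Finset.mem_image_of_mem _ hx]
      rw [← Finset.sum_filter_add_sum_filter_not (S.image (orb G)) (fun κ => ¬ Live κ)]
      refine Nat.add_le_add ?_ ?_
      · calc _ = ∑ _x ∈ (S.image (orb G)).filter fun κ => ¬ Live κ, 2 := by
              rw [Finset.sum_const, smul_eq_mul, mul_comm]
          _ ≤ _ := Finset.sum_le_sum fun κ hκ => ?_
        obtain ⟨h3, h4⟩ := Finset.mem_filter.1 hκ
        obtain ⟨s, hs, rfl⟩ := Finset.mem_image.1 h3
        obtain ⟨x, hx, hxo, hxs⟩ := hD s hs h4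
        have h5 : ({s, x} : Finset (A × I)) ⊆ S.filter fun x => orb G x = orb G s := by
          intro y hy
          rcases Finset.mem_insert.1 hy with rfl | hy
          · exact Finset.mem_filter.2 ⟨hs, rfl⟩
          · rw [Finset.mem_singleton] at hy
            subst hy
            exact Finset.mem_filter.2 ⟨hx, hxo⟩
        have h6 := Finset.card_le_card h5
        rwa [Finset.card_pair hxs.symm] at h6
      · calc _ = ∑ _x ∈ (S.image (orb G)).filter fun κ => ¬ ¬ Live κ, 1 := by
              rw [Finset.sum_const, smul_eq_mul, mul_one]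
              congr 1
              ext κ
              simp
          _ ≤ _ := Finset.sum_le_sum fun κ hκ => ?_
        obtain ⟨h3, h4⟩ := Finset.mem_filter.1 hκ
        obtain ⟨s, hs, rfl⟩ := Finset.mem_image.1 h3
        exact Finset.card_pos.2 ⟨s, Finset.mem_filter.2 ⟨hs, rfl⟩⟩
    have h3 := rank_ineq R S {a0} hSne hz
    rw [Finset.card_singleton] at h3
    have h4 : ((S.image (orb G)).filter fun κ => Live κ).card = 0 := by omega
    intro s hs hl
    rw [Finset.card_eq_zero] at h4
    have h5 : orb G s ∈ (S.image (orb G)).filter fun κ => Live κ :=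
      Finset.mem_filter.2 ⟨Finset.mem_image_of_mem _ hs, hl⟩
    rw [h4] at h5
    exact absurd h5 (Finset.notMem_empty _)
  have hst' : ∀ (i : I) (a : A) (g : G i), ¬ Live (orb G (a, i)) → mv (of g) a = a →
      (MonoidHom.id (CoprodI G)) (of g) = 1 := by
    intro i a g h1 h2
    rw [hst i a g h1 h2, map_one, map_one]
  by_cases hE : ∃ s ∈ S, R.ar (ind G s) a0 ≠ 0
  · obtain ⟨⟨b, i⟩, hs, hne⟩ := hE
    have h1 := HZ.erase_line hz (b, i) a0 hne (by
      intro c hc hca
      exact absurd (Finset.mem_singleton.1 hc) hca)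
    have h2 : ({a0} : Finset A).erase a0 = ∅ := by simp
    rw [h2] at h1
    obtain ⟨p, hp⟩ := (triv_iff _ _).1
      (triv_of_HZ_empty (R := R) (MonoidHom.id (CoprodI G)) hst' _ _ rfl h1)
    have hp0 : ∀ u, Tw ((S.erase (b, i) : Finset (A × I)) : Set (A × I)) (indZ G (b, i)) u p := by
      intro u j c g hc hgc
      have h3 : indZ G (b, i) j c g = 0 := by
        unfold indZ
        rw [if_neg (Finset.ne_of_mem_erase (Finset.mem_coe.1 hc)),
          if_neg (Finset.ne_of_mem_erase (Finset.mem_coe.1 hgc)), sub_zero]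
      rw [h3, zpow_zero, one_mul]
      exact hp j c g hc hgc
    by_cases hB : ∃ g0 : G i, (mv (of g0) b, i) ∈ S.erase (b, i)
    · obtain ⟨g0, hg0⟩ := hB
      have hg0ne := Finset.ne_of_mem_erase hg0
      set u := p (mv (of g0) b) * (of g0)⁻¹ * (p b)⁻¹ with hu
      have h7 : u ^ indZ G (b, i) i (mv (of g0) b) g0⁻¹ * p (mv (of g0⁻¹) (mv (of g0) b)) =
          p (mv (of g0) b) * of g0⁻¹ := by
        have h3 : indZ G (b, i) i (mv (of g0) b) g0⁻¹ = 1 := by
          unfold indZ
          rw [map_inv, mv_inv, if_pos rfl, if_neg hg0ne, sub_zero]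
        rw [h3, zpow_one, map_inv, mv_inv, hu, inv_mul_cancel_right]
      have h8 := (hp0 u).extend (isCoc_indZ _) i (mv (of g0) b) g0⁻¹ (Finset.mem_coe.2 hg0) h7
      refine ⟨indZ G (b, i), u, p, isCoc_indZ _, h8.mono ?_⟩
      intro x hx
      by_cases hxs : x = (b, i)
      · left
        rw [hxs, map_inv, mv_inv]
      · right
        exact Finset.mem_coe.2 (Finset.mem_erase.2 ⟨hxs, hx⟩)
    · push Not at hB
      exact ⟨indZ G (b, i), 1, p, isCoc_indZ _,
        triv_ext _ hs (single_of b i hB) (hnl _ hs) _ _ _ (isCoc_indZ _) (hp0 1)⟩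
  · push Not at hE
    have h1 : R.HZ S ∅ := by
      intro c hc _
      refine hz c hc fun a ha => ?_
      rw [Finset.mem_singleton] at ha
      subst ha
      obtain ⟨τ, hτ⟩ := exists_tau S hnl c hc
      rw [ar_of_tau S a hts c τ hτ]
      exact Finset.sum_eq_zero fun s hs => by rw [hE s hs, mul_zero]
    obtain ⟨p, hp⟩ := (triv_iff _ _).1
      (triv_of_HZ_empty (R := R) (MonoidHom.id (CoprodI G)) hst' _ _ rfl h1)
    refine ⟨fun _ _ _ => 0, 1, p, fun _ _ _ _ => by simp, ?_⟩
    intro j c g hc hgc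
    rw [zpow_zero, one_mul]
    exact hp j c g hc hgc

end

/-- the edges of a path -/
theorem path_tw (M : Subgroup (CoprodI G)) (w : CoprodI G) : ∀ a : CoprodI G ⧸ M,
    ∃ P : Finset ((CoprodI G ⧸ M) × I), ∀ θ u (p : (CoprodI G ⧸ M) → CoprodI G),
      Tw (P : Set ((CoprodI G ⧸ M) × I)) θ u p → ∃ m : ℤ, u ^ m * p (mv w a) = p a * w := by
  classical
  induction w using Monoid.CoprodI.induction_on with
  | one =>
    intro a
    refine ⟨∅, fun θ u p _ => ⟨0, ?_⟩⟩
    rw [mv_one, zpow_zero, one_mul, mul_one]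
  | of i g =>
    intro a
    refine ⟨{(a, i), (mv (of g) a, i)}, fun θ u p hp => ⟨θ i a g, ?_⟩⟩
    exact hp i a g (by simp) (by simp)
  | mul x y hx hy =>
    intro a
    obtain ⟨P, hP⟩ := hx a
    obtain ⟨P', hP'⟩ := hy (mv x a)
    refine ⟨P ∪ P', fun θ u p hp => ?_⟩
    obtain ⟨m, hm⟩ := hP θ u p (hp.mono (by simp))
    obtain ⟨m', hm'⟩ := hP' θ u p (hp.mono (by simp))
    refine ⟨m + m', ?_⟩
    rw [mv_mul, zpow_add, mul_assoc, hm', ← mul_assoc, hm, mul_assoc]

/-- **Subgroups without homomorphisms that kill the relator.** -/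
theorem cyclic_of (R : Per I G) (hLI : ∀ i, Pool.Agent.TH625.LOG.LocInd (G i))
    (M : Subgroup (CoprodI G)) (hM : M.FG) (hr : R.rel ∈ M)
    (hψ : ∀ ψ : M →* Multiplicative ℚ, ψ ⟨R.rel, hr⟩ = 1 → ψ = 1) :
    ∃ v : CoprodI G, M ≤ Subgroup.zpowers v := by
  classical
  obtain ⟨Wg, hWg⟩ := hM
  have hMfg : M.FG := ⟨Wg, hWg⟩
  have hWM : ∀ w ∈ Wg, w ∈ M := fun w hw => by
    rw [← hWg]; exact Subgroup.subset_closure hw
  choose P hP using fun w => path_tw M w (bp M)
  have hcl : R.Closed (bp M) := mv_bp hr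
  let T : Finset ((CoprodI G ⧸ M) × I) :=
    ((Finset.range (2 * R.n)).image (R.ts (bp M))) ∪ Wg.biUnion P
  have hCx : R.Cplx T {bp M} := by
    intro a ha
    rw [Finset.mem_singleton] at ha
    subst ha
    refine ⟨hcl, fun q => Finset.mem_union_left _ ?_⟩
    rw [← ts_mod hcl]
    exact Finset.mem_image_of_mem _ (Finset.mem_range.2 (Nat.mod_lt _ (by have := R.hn; omega)))
  have hz : R.HZ T {bp M} := by
    intro c hc hcE
    have hint : ∀ k, J c hc (R.W k) (bp M) =
        ∑ j ∈ Finset.range k, c _ (R.pos (bp M) j) (R.s j).2 := by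
      intro k
      induction k with
      | zero => rw [R.W_zero, J_one]; simp
      | succ k ih => rw [R.W_succ, J_mul, ih, Finset.sum_range_succ, J_of]; rfl
    let ψ : M →* Multiplicative ℚ :=
      { toFun := fun m => Multiplicative.ofAdd (J c hc m.1 (bp M))
        map_one' := by
          show Multiplicative.ofAdd (J c hc 1 (bp M)) = 1
          rw [J_one]; rfl
        map_mul' := by
          intro m m'
          show Multiplicative.ofAdd (J c hc (m.1 * m'.1) (bp M)) = _
          rw [J_add hc m.2]; rfl }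
    have hψ1 : ψ ⟨R.rel, hr⟩ = 1 := by
      show Multiplicative.ofAdd (J c hc (R.W R.n) (bp M)) = 1
      rw [hint]
      have := hcE (bp M) (Finset.mem_singleton_self _)
      unfold Per.ar at this
      rw [this]; rfl
    have hψ2 := hψ ψ hψ1
    have hMZ : M ≤ Zer c hc := by
      intro m hm
      refine ⟨hm, ?_⟩
      have h1 := DFunLike.congr_fun hψ2 ⟨m, hm⟩
      exact Multiplicative.ofAdd.injective h1
    obtain ⟨δ, hδ⟩ := coboundary hc hMZ
    exact ⟨δ, fun i a g _ _ => hδ i a g⟩
  obtain ⟨θ, u, p, hθ, hp⟩ := cyc (R := R)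
    (fun i a g hd hg => stb_trivial hLI i a (stbF_fg M hMfg a) hd g hg) (bp M) _ T rfl hCx hz
  refine ⟨(p (bp M))⁻¹ * u * p (bp M), ?_⟩
  refine le_trans hWg.ge ?_
  rw [Subgroup.closure_le]
  intro w hw
  obtain ⟨m, hm⟩ := hP w θ u p (hp.mono (by
    intro x hx
    exact Finset.mem_coe.2 (Finset.mem_union_right _
      (Finset.mem_biUnion.2 ⟨w, hw, Finset.mem_coe.1 hx⟩))))
  rw [mv_bp (hWM w hw)] at hm
  refine Subgroup.mem_zpowers_iff.2 ⟨m, ?_⟩
  have h1 : ((p (bp M))⁻¹ * u * p (bp M)) ^ m = (p (bp M))⁻¹ * u ^ m * p (bp M) := by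
    have := conj_zpow (a := (p (bp M))⁻¹) (b := u) (i := m)
    rwa [inv_inv] at this
  rw [h1, mul_assoc, hm, inv_mul_cancel_left]

end Pool.Agent.V5helper80.One
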