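import Pool.Agent.V5helper80.Rel.Int

/-!
# One periodic relator over a free product

`s : ℕ → Σ i, G i` is a periodic sequence of nontrivial letters, neighbours belong to different
groups; `W k` is the product of the first `k` letters and `W n` the relator.
-/

set_option autoImplicit false

namespace Pool.Agent.V5helper80.One

open Monoid (CoprodI)
open Monoid.CoprodI (of Word)
open Pool.Agent.V5helper80.Rel

/-- a periodic sequence of letters -/
structure Per (I : Type) (G : I → Type) [∀ i, Group (G i)] where
  n : ℕ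
  hn : 0 < n
  s : ℕ → Σ i, G i
  per : ∀ k, s (k + n) = s k
  ne1 : ∀ k, (s k).2 ≠ 1
  adj : ∀ k, (s k).1 ≠ (s (k + 1)).1

variable {I A : Type} {G : I → Type} [∀ i, Group (G i)]

/-- the product of the first letters -/
def Per.W (R : Per I G) : ℕ → CoprodI G
  | 0 => 1
  | k + 1 => Per.W R k * of (R.s k).2

/-- the relator -/
def Per.rel (R : Per I G) : CoprodI G := R.W R.n

theorem Per.W_zero (R : Per I G) : R.W 0 = 1 := rfl

theorem Per.W_succ (R : Per I G) (k : ℕ) : R.W (k + 1) = R.W k * of (R.s k).2 := rfl

theorem Per.W_add (R : Per I G) (k : ℕ) : R.W (k + R.n) = R.rel * R.W k := by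
  induction k with
  | zero => rw [zero_add, R.W_zero, mul_one]; rfl
  | succ k ih =>
    rw [show k + 1 + R.n = (k + R.n) + 1 by omega, R.W_succ, ih, R.W_succ, R.per, mul_assoc]

theorem Per.W_add_mul (R : Per I G) (k m : ℕ) : R.W (k + m * R.n) = R.rel ^ m * R.W k := by
  induction m with
  | zero => simp
  | succ m ih =>
    rw [show k + (m + 1) * R.n = (k + m * R.n) + R.n by ring, R.W_add, ih, pow_succ', mul_assoc]

/-- a segment of the sequence as a reduced word -/
def Per.seg (R : Per I G) (k l : ℕ) : Word G where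
  toList := (List.range l).map fun j => R.s (k + j)
  ne_one := by
    intro x hx
    obtain ⟨j, _, rfl⟩ := List.mem_map.1 hx
    exact R.ne1 _
  chain_ne := by
    rw [List.isChain_iff_getElem]
    intro j hj
    simp only [List.getElem_map, List.getElem_range]
    exact R.adj (k + j)

theorem Per.seg_prod (R : Per I G) (k l : ℕ) : R.W k * (R.seg k l).prod = R.W (k + l) := by
  induction l with
  | zero => simp [Per.seg, Word.prod]
  | succ l ih =>
    have h : (R.seg k (l + 1)).prod = (R.seg k l).prod * of (R.s (k + l)).2 := by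
      simp [Per.seg, Word.prod, List.range_succ]
    rw [h, ← mul_assoc, ih]
    rfl

theorem prod_inj {w w' : Word G} (h : w.prod = w'.prod) : w = w' := by
  classical
  exact (Word.equiv (M := G)).symm.injective h

theorem Per.W_inj (R : Per I G) {k l : ℕ} (h : R.W k = R.W l) : k = l := by
  wlog hkl : k ≤ l generalizing k l
  · exact (this h.symm (by omega)).symm
  obtain ⟨m, rfl⟩ := Nat.exists_eq_add_of_le hkl
  rw [← R.seg_prod k m] at h
  have h1 : (R.seg k m).prod = (Word.empty : Word G).prod := by
    rw [Word.prod_empty]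
    exact (left_eq_mul.1 h)
  have h2 := congrArg (fun w : Word G => w.toList.length) (prod_inj h1)
  simp only [Per.seg, List.length_map, List.length_range] at h2
  have h3 : (Word.empty : Word G).toList.length = 0 := rfl
  omega

/-- if a segment lies in a factor then its length is one -/
theorem Per.W_of (R : Per I G) {k l : ℕ} (hkl : k < l) {i : I} {h : G i}
    (heq : R.W k * of h = R.W l) : l = k + 1 := by
  obtain ⟨m, rfl⟩ := Nat.exists_eq_add_of_lt hkl
  rw [show k + m + 1 = k + (m + 1) by omega, ← R.seg_prod k (m + 1)] at heq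
  have h1 := mul_left_cancel heq
  have hh : h ≠ 1 := by
    rintro rfl
    rw [map_one] at h1
    have h2 := congrArg (fun w : Word G => w.toList.length)
      (prod_inj (h1.symm.trans (Word.prod_empty (M := G)).symm))
    simp only [Per.seg, List.length_map, List.length_range] at h2
    have h3 : (Word.empty : Word G).toList.length = 0 := rfl
    omega
  let w : Word G := ⟨[⟨i, h⟩], by simpa using hh, by simp⟩
  have h2 : w.prod = of h := by simp [w, Word.prod]
  have h3 := congrArg (fun w : Word G => w.toList.length) (prod_inj (h2.trans h1))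
  simp only [Per.seg, List.length_map, List.length_range] at h3
  have h4 : w.toList.length = 1 := rfl
  omega

theorem Per.rel_ne_one (R : Per I G) : R.rel ≠ 1 := by
  intro h
  have h1 : R.W R.n = R.W 0 := h
  have := R.W_inj h1
  have := R.hn
  omega

/-- congruence of prefixes modulo the relator -/
theorem Per.W_zpow (R : Per I G) {k l : ℕ} {m : ℤ} (h : R.W k = R.rel ^ m * R.W l) :
    (k : ℤ) = l + m * R.n := by
  obtain ⟨m, rfl | rfl⟩ := m.eq_nat_or_neg
  · rw [zpow_natCast, ← R.W_add_mul] at h
    have := R.W_inj h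
    rw [this]
    push_cast
    ring
  · rw [zpow_neg, zpow_natCast, eq_inv_mul_iff_mul_eq, ← R.W_add_mul] at h
    have := R.W_inj h
    rw [← this]
    push_cast
    ring

variable [MulAction (CoprodI G) A]

/-- the points of the line based at `a` -/
def Per.pos (R : Per I G) (a : A) (k : ℕ) : A := mv (R.W k) a

theorem Per.pos_zero (R : Per I G) (a : A) : R.pos a 0 = a := mv_one a

theorem Per.pos_succ (R : Per I G) (a : A) (k : ℕ) :
    R.pos a (k + 1) = mv (of (R.s k).2) (R.pos a k) := by
  unfold Per.pos
  rw [R.W_succ, mv_mul]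

/-- the line closes up -/
def Per.Closed (R : Per I G) (a : A) : Prop := mv R.rel a = a

theorem Per.pos_add (R : Per I G) {a : A} (h : R.Closed a) (k : ℕ) :
    R.pos a (k + R.n) = R.pos a k := by
  unfold Per.pos
  rw [R.W_add, mv_mul, h]

/-- the edges passed by the line -/
def Per.ts (R : Per I G) (a : A) (q : ℕ) : A × I := (R.pos a ((q + 1) / 2), (R.s (q / 2)).1)

theorem Per.ts_even (R : Per I G) (a : A) (k : ℕ) : R.ts a (2 * k) = (R.pos a k, (R.s k).1) := by
  unfold Per.ts
  rw [show (2 * k + 1) / 2 = k by omega, show 2 * k / 2 = k by omega]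

theorem Per.ts_odd (R : Per I G) (a : A) (k : ℕ) :
    R.ts a (2 * k + 1) = (R.pos a (k + 1), (R.s k).1) := by
  unfold Per.ts
  rw [show (2 * k + 1 + 1) / 2 = k + 1 by omega, show (2 * k + 1) / 2 = k by omega]

theorem Per.ts_add (R : Per I G) {a : A} (h : R.Closed a) (q : ℕ) :
    R.ts a (q + 2 * R.n) = R.ts a q := by
  unfold Per.ts
  rw [show (q + 2 * R.n + 1) / 2 = (q + 1) / 2 + R.n by omega,
    show (q + 2 * R.n) / 2 = q / 2 + R.n by omega, R.pos_add h, R.per]

/-- a finite complex -/
def Per.Cplx (R : Per I G) (S : Finset (A × I)) (F : Finset A) : Prop :=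
  ∀ a ∈ F, R.Closed a ∧ ∀ q, R.ts a q ∈ S

/-- the sum of a cocycle around the line -/
def Per.ar (R : Per I G) (c : ∀ i, A → G i → ℚ) (a : A) : ℚ :=
  ∑ k ∈ Finset.range R.n, c _ (R.pos a k) (R.s k).2

/-- no cohomology in degree one -/
def Per.HZ (R : Per I G) (S : Finset (A × I)) (F : Finset A) : Prop :=
  ∀ c : ∀ i, A → G i → ℚ, IsCoc c → (∀ a ∈ F, R.ar c a = 0) →
    ∃ δ : A → ℚ, ∀ (i : I) (a : A) (g : G i), (a, i) ∈ S → (mv (of g) a, i) ∈ S →
      c i a g = δ (mv (of g) a) - δ a

open Classical in
/-- the passes over an edge -/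
noncomputable def Per.passes (R : Per I G) (F : Finset A) (s : A × I) : Finset (A × ℕ) :=
  (F ×ˢ Finset.range (2 * R.n)).filter fun q => R.ts q.1 q.2 = s

theorem Per.mem_passes {R : Per I G} {F : Finset A} {s : A × I} {q : A × ℕ} :
    q ∈ R.passes F s ↔ q.1 ∈ F ∧ q.2 < 2 * R.n ∧ R.ts q.1 q.2 = s := by
  simp [Per.passes, and_assoc]

end Pool.Agent.V5helper80.One
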