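import Mathlib

/-!
# The low coefficients of the Alexander determinant
-/

set_option autoImplicit false

namespace Pool.Agent.V5helper80.One

open Polynomial Matrix

section det
variable {I E : Type} [Fintype E] [DecidableEq E] [DecidableEq I] {r : I}
  (σ : E ≃ {i : I // i ≠ r})

/-- the matrix of a function `E → I`, without the column of `r` -/
def dl (K : Type) [Field K] (p : E → I) : Matrix E E K :=
  Matrix.of fun e a => if p e = (σ a).1 then 1 else 0

/-- the incidence matrix of a graph, without the column of `r` -/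
def inc (K : Type) [Field K] (p q : E → I) : Matrix E E K := dl σ K p - dl σ K q

/-- the matrix with the rows `(δ_l - δ_t) + X (δ_i - δ_l)` -/
noncomputable def amat (K : Type) [Field K] (i l t : E → I) : Matrix E E K[X] :=
  (X : K[X]) • (inc σ K i l).map C + (inc σ K l t).map C

/-- the determinant -/
noncomputable def alex (K : Type) [Field K] (i l t : E → I) : K[X] := (amat σ K i l t).det

variable {K : Type} [Field K] {σ}

theorem dl_mulVec (p : E → I) (f : I → K) (hf : f r = 0) :
    dl σ K p *ᵥ (fun a => f (σ a).1) = fun e => f (p e) := by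
  funext e
  show ∑ a, (if p e = (σ a).1 then (1 : K) else 0) * f (σ a).1 = f (p e)
  by_cases h : p e = r
  · rw [h, hf]
    refine Finset.sum_eq_zero fun a _ => ?_
    rw [if_neg (fun h' => (σ a).2 h'.symm), zero_mul]
  · rw [Finset.sum_eq_single (σ.symm ⟨p e, h⟩)]
    · rw [Equiv.apply_symm_apply, if_pos rfl, one_mul]
    · intro a _ ha
      rw [if_neg, zero_mul]
      intro h'
      apply ha
      rw [Equiv.eq_symm_apply]
      exact Subtype.ext h'.symm
    · intro h'
      exact absurd (Finset.mem_univ _) h'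

theorem inc_mulVec (p q : E → I) (f : I → K) (hf : f r = 0) :
    inc σ K p q *ᵥ (fun a => f (σ a).1) = fun e => f (p e) - f (q e) := by
  unfold inc
  rw [Matrix.sub_mulVec, dl_mulVec p f hf, dl_mulVec q f hf]
  rfl

/-- the extension of a vector by zero -/
theorem exists_ext (g : E → K) : ∃ f : I → K, f r = 0 ∧ (fun a => f (σ a).1) = g := by
  refine ⟨fun i => if h : i = r then 0 else g (σ.symm ⟨i, h⟩), dif_pos rfl, ?_⟩
  funext a
  simp only
  rw [dif_neg (σ a).2]
  congr 1
  exact (Equiv.symm_apply_apply σ a)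

theorem exists_ker {l t : E → I} (h : (inc σ K l t).det = 0) :
    ∃ f : I → K, f r = 0 ∧ (∃ s, f s ≠ 0) ∧ ∀ e, f (l e) = f (t e) := by
  obtain ⟨v, hv, hv2⟩ := Matrix.exists_mulVec_eq_zero_iff.2 h
  obtain ⟨f, hf, rfl⟩ := exists_ext (σ := σ) v
  rw [inc_mulVec l t f hf] at hv2
  refine ⟨f, hf, ?_, fun e => sub_eq_zero.1 (congrFun hv2 e)⟩
  obtain ⟨a, ha⟩ := Function.ne_iff.1 hv
  exact ⟨_, ha⟩

theorem exists_coker {l t : E → I} (h : (inc σ K l t).det = 0) :
    ∃ μ : E → K, μ ≠ 0 ∧ ∀ f : I → K, ∑ e, μ e * (f (l e) - f (t e)) = 0 := by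
  obtain ⟨v, hv, hv2⟩ := Matrix.exists_vecMul_eq_zero_iff.2 h
  refine ⟨v, hv, fun f => ?_⟩
  have h1 := Matrix.dotProduct_mulVec v (inc σ K l t) (fun a => f (σ a).1 - f r)
  rw [hv2, zero_dotProduct, inc_mulVec l t (fun i => f i - f r) (sub_self _)] at h1
  rw [← h1]
  show _ = ∑ e, v e * _
  refine Finset.sum_congr rfl fun e _ => ?_
  ring

theorem const_of_det {l t : E → I} (h : (inc σ K l t).det ≠ 0) (f : I → K)
    (hf : ∀ e, f (l e) = f (t e)) (x : I) : f x = f r := by
  have h1 := inc_mulVec (σ := σ) l t (fun i => f i - f r) (sub_self _)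
  have h2 : inc σ K l t *ᵥ (fun a => f (σ a).1 - f r) = 0 := by
    rw [h1]
    funext e
    show f (l e) - f r - (f (t e) - f r) = 0
    rw [hf e, sub_self]
  by_contra hne
  apply h
  rw [← Matrix.exists_mulVec_eq_zero_iff]
  refine ⟨_, ?_, h2⟩
  intro h3
  have hxr : x ≠ r := fun h => hne (by rw [h])
  have h4 := congrFun h3 (σ.symm ⟨x, hxr⟩)
  rw [Equiv.apply_symm_apply] at h4
  exact hne (sub_eq_zero.1 h4)

theorem coeff_zero (i l t : E → I) : (alex σ K i l t).coeff 0 = (inc σ K l t).det :=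
  coeff_det_X_add_C_zero _ _

theorem coeff_card (i l t : E → I) :
    (alex σ K i l t).coeff (Fintype.card E) = (inc σ K i l).det :=
  coeff_det_X_add_C_card _ _

theorem eval_amat (i l t : E → I) (x : K) : (evalRingHom x).mapMatrix (amat σ K i l t) =
    x • inc σ K i l + inc σ K l t := by
  ext a b
  simp [amat]
  ring

theorem eval_alex (i l t : E → I) (x : K) :
    (alex σ K i l t).eval x = (x • inc σ K i l + inc σ K l t).det := by
  rw [← eval_amat, ← RingHom.map_det]
  rfl

theorem amat_mulVec (i l t : E → I) (v w : I → K) (hv : v r = 0) (hw : w r = 0) :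
    amat σ K i l t *ᵥ (fun a => C (v (σ a).1) + X * C (w (σ a).1)) =
      fun e => C (v (l e) - v (t e)) + X * (C (v (i e) - v (l e)) + C (w (l e) - w (t e))) +
        X ^ 2 * C (w (i e) - w (l e)) := by
  have hC : ∀ (A : Matrix E E K) (u : E → K), A.map (C : K → K[X]) *ᵥ (fun a => C (u a)) =
      fun e => C ((A *ᵥ u) e) := by
    intro A u
    funext e
    simp only [Matrix.mulVec, dotProduct, map_sum, map_mul, Matrix.map_apply]
  have h1 : (fun a => C (v (σ a).1) + X * C (w (σ a).1)) =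
      (fun a => C (v (σ a).1)) + (X : K[X]) • fun a => C (w (σ a).1) := by
    funext a
    rfl
  rw [h1]
  unfold amat
  rw [Matrix.mulVec_add, Matrix.mulVec_smul, Matrix.add_mulVec, Matrix.add_mulVec,
    Matrix.smul_mulVec, Matrix.smul_mulVec, hC _ fun a => v (σ a).1, hC _ fun a => v (σ a).1,
    hC _ fun a => w (σ a).1, hC _ fun a => w (σ a).1, inc_mulVec _ _ v hv, inc_mulVec _ _ v hv,
    inc_mulVec _ _ w hw, inc_mulVec _ _ w hw]
  funext e
  simp only [Pi.add_apply, Pi.smul_apply, smul_eq_mul]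
  ring

theorem det_mul_apply (M : Matrix E E K[X]) (v : E → K[X]) (a : E) :
    M.det * v a = (M.adjugate *ᵥ (M *ᵥ v)) a := by
  rw [Matrix.mulVec_mulVec, Matrix.adjugate_mul, Matrix.smul_mulVec, Matrix.one_mulVec]
  rfl

/-- no function of the next order -/
theorem no_phi {i l t : E → I} (h1 : (alex σ K i l t).coeff 1 ≠ 0) (c φ : I → K) (cr : c r = 0)
    (s : I) (cs : c s ≠ 0) (hc : ∀ e, c (l e) = c (t e))
    (hφ : ∀ e, φ (l e) - φ (t e) = c (l e) - c (i e)) : False := by
  apply h1
  have hsr : s ≠ r := fun h => cs (by rw [h, cr])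
  have h2 := amat_mulVec (σ := σ) i l t c (fun i => φ i - φ r) cr (sub_self _)
  have h3 : amat σ K i l t *ᵥ (fun a => C (c (σ a).1) + X * C (φ (σ a).1 - φ r)) =
      (X ^ 2 : K[X]) • fun e => C ((φ (i e) - φ r) - (φ (l e) - φ r)) := by
    rw [h2]
    funext e
    simp only [Pi.smul_apply, smul_eq_mul]
    have e1 : c (l e) - c (t e) = 0 := sub_eq_zero.2 (hc e)
    have e2 : C (c (i e) - c (l e)) + C (φ (l e) - φ r - (φ (t e) - φ r)) = (0 : K[X]) := by
      rw [← C_add, show c (i e) - c (l e) + (φ (l e) - φ r - (φ (t e) - φ r)) = 0 by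
        have := hφ e
        linear_combination this, C_0]
    rw [e1, e2, C_0]
    ring
  have h4 := det_mul_apply (amat σ K i l t)
    (fun a => C (c (σ a).1) + X * C (φ (σ a).1 - φ r)) (σ.symm ⟨s, hsr⟩)
  rw [h3, Matrix.mulVec_smul] at h4
  simp only [Pi.smul_apply, smul_eq_mul, Equiv.apply_symm_apply] at h4
  have h5 : (X : K[X]) ^ 2 ∣ (amat σ K i l t).det * (C (c s) + X * C (φ s - φ r)) :=
    ⟨_, h4⟩
  have h6 : ¬ (X : K[X]) ∣ C (c s) + X * C (φ s - φ r) := by
    rw [X_dvd_iff]
    simp [cs]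
  have h7 := Polynomial.prime_X.pow_dvd_of_dvd_mul_right 2 h6 h5
  exact X_pow_dvd_iff.1 h7 1 (by norm_num)

/-- the kernel has dimension at most one -/
theorem ker_unique {i l t : E → I} (h1 : (alex σ K i l t).coeff 1 ≠ 0) (f f' : I → K)
    (fr : f r = 0) (fr' : f' r = 0) (s : I) (fs : f s ≠ 0) (fs' : f' s = 0)
    (hf : ∀ e, f (l e) = f (t e)) (hf' : ∀ e, f' (l e) = f' (t e)) (x : I) : f' x = 0 := by
  by_contra hx
  apply h1
  have hsr : s ≠ r := fun h => fs (by rw [h, fr])
  have hxr : x ≠ r := fun h => hx (by rw [h, fr'])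
  -- the adjugate vanishes
  have hadj : (inc σ K l t).adjugate = 0 := by
    ext a b
    rw [Matrix.adjugate_apply, Matrix.zero_apply, ← Matrix.exists_mulVec_eq_zero_iff]
    have key : ∀ g : I → K, g r = 0 → (∀ e, g (l e) = g (t e)) → g (σ a).1 = 0 →
        (inc σ K l t).updateRow b (Pi.single a 1) *ᵥ (fun a => g (σ a).1) = 0 := by
      intro g gr hg hga
      funext e
      have h2 := congrFun (inc_mulVec (σ := σ) l t g gr) e
      simp only [Matrix.mulVec] at h2 ⊢
      by_cases he : e = b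
      · rw [he, Matrix.updateRow_self, single_dotProduct, one_mul, hga]
        rfl
      · rw [Matrix.updateRow_ne he, h2, hg e, sub_self]
        rfl
    by_cases ha : f' (σ a).1 = 0
    · refine ⟨_, ?_, key f' fr' hf' ha⟩
      intro h
      have := congrFun h (σ.symm ⟨x, hxr⟩)
      simp only [Equiv.apply_symm_apply] at this
      exact hx this
    · refine ⟨_, ?_, key (fun i => f' (σ a).1 * f i - f (σ a).1 * f' i) ?_ ?_ ?_⟩
      · intro h
        have := congrFun h (σ.symm ⟨s, hsr⟩)
        simp only [Equiv.apply_symm_apply, fs', mul_zero, sub_zero] at this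
        exact (mul_ne_zero ha fs) this
      · show f' (σ a).1 * f r - f (σ a).1 * f' r = 0
        rw [fr, fr']
        ring
      · intro e
        show f' (σ a).1 * f (l e) - f (σ a).1 * f' (l e) =
          f' (σ a).1 * f (t e) - f (σ a).1 * f' (t e)
        rw [hf e, hf' e]
      · show f' (σ a).1 * f (σ a).1 - f (σ a).1 * f' (σ a).1 = 0
        ring
  have hadj2 : ∀ a b, (X : K[X]) ∣ (amat σ K i l t).adjugate a b := by
    intro a b
    have h2 := RingHom.map_adjugate (evalRingHom (0 : K)) (amat σ K i l t)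
    rw [eval_amat, zero_smul, zero_add, hadj] at h2
    have h3 := congrFun (congrFun h2 a) b
    rw [X_dvd_iff, coeff_zero_eq_eval_zero]
    exact h3
  have h2 := amat_mulVec (σ := σ) i l t f (fun _ => 0) fr rfl
  have h4 := det_mul_apply (amat σ K i l t) (fun a => C (f (σ a).1) + X * C 0)
    (σ.symm ⟨s, hsr⟩)
  rw [h2] at h4
  simp only [Equiv.apply_symm_apply, C_0, mul_zero, add_zero, sub_self] at h4
  have h5 : (X : K[X]) ^ 2 ∣ (amat σ K i l t).det * C (f s) := by
    rw [h4]
    show _ ∣ ∑ b, _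
    refine Finset.dvd_sum fun b _ => ?_
    simp only
    rw [hf b, sub_self, C_0, zero_add, pow_two]
    exact mul_dvd_mul (hadj2 _ _) (Dvd.intro _ rfl)
  have h6 : ¬ (X : K[X]) ∣ C (f s) := by
    rw [X_dvd_iff, coeff_C_zero]
    exact fs
  have h7 := Polynomial.prime_X.pow_dvd_of_dvd_mul_right 2 h6 h5
  exact X_pow_dvd_iff.1 h7 1 (by norm_num)

end det

end Pool.Agent.V5helper80.One
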