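import Pool.Agent.V5helper80.One.Li
import Pool.Agent.V5helper80.Rel.Log

/-!
# Cyclic reduction, and relators in `P * ℤ`
-/

set_option autoImplicit false

namespace Pool.Agent.V5helper80.One

open Monoid (CoprodI)
open Monoid.CoprodI (of Word)
open Pool.Agent.V5helper80.Rel
open Pool.Agent.TH625.LOG

section
variable {I : Type} {G : I → Type} [∀ i, Group (G i)]

/-- the product of a list of letters -/
def lp (l : List (Σ i, G i)) : CoprodI G := (l.map fun x => of x.2).prod

theorem lp_append (l m : List (Σ i, G i)) : lp (l ++ m) = lp l * lp m := by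
  simp [lp]

/-- the periodic sequence of a cyclically reduced list -/
def mkPer (l : List (Σ i, G i)) (hpos : 0 < l.length) (h1 : ∀ x ∈ l, x.2 ≠ 1)
    (hadj : ∀ k, (l.get ⟨k % l.length, Nat.mod_lt _ hpos⟩).1 ≠
      (l.get ⟨(k + 1) % l.length, Nat.mod_lt _ hpos⟩).1) : Per I G where
  n := l.length
  hn := hpos
  s := fun k => l.get ⟨k % l.length, Nat.mod_lt _ hpos⟩
  per := fun k => by simp only [Nat.add_mod_right]
  ne1 := fun k => h1 _ (List.get_mem _ _)
  adj := hadj

theorem mkPer_W (l : List (Σ i, G i)) (hpos : 0 < l.length) (h1 : ∀ x ∈ l, x.2 ≠ 1)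
    (hadj : ∀ k, (l.get ⟨k % l.length, Nat.mod_lt _ hpos⟩).1 ≠
      (l.get ⟨(k + 1) % l.length, Nat.mod_lt _ hpos⟩).1) (k : ℕ) (hk : k ≤ l.length) :
    (mkPer l hpos h1 hadj).W k = lp (l.take k) := by
  induction k with
  | zero => simp [lp]; rfl
  | succ k ih =>
    have hk' : k < l.length := by omega
    rw [Per.W_succ, ih (by omega)]
    have h2 : (mkPer l hpos h1 hadj).s k = l[k] := by
      show l.get ⟨k % l.length, Nat.mod_lt _ hpos⟩ = _
      simp only [Nat.mod_eq_of_lt hk']
      rfl
    rw [List.take_succ_eq_append_getElem hk', lp_append]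
    congr 1
    rw [h2]
    simp [lp]

/-- a cyclically reduced list gives a periodic relator -/
theorem exists_per (l : List (Σ i, G i)) (hl : 2 ≤ l.length) (h1 : ∀ x ∈ l, x.2 ≠ 1)
    (hch : l.IsChain fun x y => x.1 ≠ y.1)
    (hwrap : (l.get ⟨l.length - 1, by omega⟩).1 ≠ (l.get ⟨0, by omega⟩).1) :
    ∃ R : Per I G, R.rel = lp l := by
  have hpos : 0 < l.length := by omega
  have hadj : ∀ k, (l.get ⟨k % l.length, Nat.mod_lt _ hpos⟩).1 ≠
      (l.get ⟨(k + 1) % l.length, Nat.mod_lt _ hpos⟩).1 := by
    intro k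
    have hlt := Nat.mod_lt k hpos
    by_cases h : k % l.length + 1 < l.length
    · have h2 : (k + 1) % l.length = k % l.length + 1 := by
        rw [Nat.add_mod, Nat.mod_eq_of_lt (show 1 < l.length by omega), Nat.mod_eq_of_lt h]
      rw [List.isChain_iff_getElem] at hch
      have h3 := hch (k % l.length) h
      simp only [h2]
      exact h3
    · have h3 : k % l.length = l.length - 1 := by omega
      have h2 : (k + 1) % l.length = 0 := by
        rw [Nat.add_mod, Nat.mod_eq_of_lt (show 1 < l.length by omega), h3,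
          show l.length - 1 + 1 = l.length by omega, Nat.mod_self]
      simp only [h2, h3]
      exact hwrap
  refine ⟨mkPer l hpos h1 hadj, ?_⟩
  have h2 := mkPer_W l hpos h1 hadj l.length le_rfl
  rw [List.take_length] at h2
  exact h2

/-- every element is conjugate to an element of a factor or to a cyclically reduced word -/
theorem cyc_red : ∀ (n : ℕ) (l : List (Σ i, G i)), l.length = n → (∀ x ∈ l, x.2 ≠ 1) →
    (l.IsChain fun x y => x.1 ≠ y.1) →
    ∃ g : CoprodI G, g * lp l * g⁻¹ = 1 ∨ (∃ (i : I) (x : G i), g * lp l * g⁻¹ = of x) ∨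
      ∃ R : Per I G, R.rel = g * lp l * g⁻¹ := by
  intro n
  induction n using Nat.strong_induction_on with
  | _ n ih =>
  intro l hl h1 hch
  rcases l with _ | ⟨x, t⟩
  · exact ⟨1, Or.inl (by simp [lp])⟩
  rcases List.eq_nil_or_concat t with rfl | ⟨m, z, rfl⟩
  · exact ⟨1, Or.inr (Or.inl ⟨x.1, x.2, by simp [lp]⟩)⟩
  rw [List.concat_eq_append] at hl h1 hch ⊢
  have hlen : m.length + 2 = n := by rw [← hl]; simp
  by_cases hw : z.1 = x.1
  · have hm1 : ∀ u ∈ m, u.2 ≠ 1 := fun u hu => h1 u (by simp [hu])
    have hchm : (m ++ [z]).IsChain fun x y => x.1 ≠ y.1 := hch.tail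
    obtain ⟨i, x⟩ := x
    obtain ⟨j, z⟩ := z
    simp only at hw
    subst hw
    have hprod : lp (⟨j, x⟩ :: (m ++ [⟨j, z⟩])) = of x * (lp m * of z) := by
      simp [lp]
    have hconj : (of x)⁻¹ * lp (⟨j, x⟩ :: (m ++ [⟨j, z⟩])) * ((of x)⁻¹)⁻¹ =
        lp m * of (z * x) := by
      rw [hprod, map_mul]
      group
    have hfin : ∀ l' : List (Σ i, G i), lp l' = lp m * of (z * x) → l'.length < n →
        (∀ x ∈ l', x.2 ≠ 1) → (l'.IsChain fun x y => x.1 ≠ y.1) →
        ∃ g : CoprodI G, g * lp (⟨j, x⟩ :: (m ++ [⟨j, z⟩])) * g⁻¹ = 1 ∨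
          (∃ (i : I) (y : G i), g * lp (⟨j, x⟩ :: (m ++ [⟨j, z⟩])) * g⁻¹ = of y) ∨
          ∃ R : Per I G, R.rel = g * lp (⟨j, x⟩ :: (m ++ [⟨j, z⟩])) * g⁻¹ := by
      intro l' h2 h3 h4 h5
      obtain ⟨g, hg⟩ := ih _ h3 l' rfl h4 h5
      have h6 : g * lp l' * g⁻¹ = (g * (of x)⁻¹) * lp (⟨j, x⟩ :: (m ++ [⟨j, z⟩])) *
          (g * (of x)⁻¹)⁻¹ := by
        rw [h2, ← hconj]
        group
      rw [h6] at hg
      exact ⟨_, hg⟩
    by_cases hzx : z * x = 1
    · refine hfin m (by rw [hzx, map_one, mul_one]) (by omega) hm1 ?_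
      exact (List.isChain_append.1 hchm).1
    · refine hfin (m ++ [⟨j, z * x⟩]) (by simp [lp]) (by simp; omega) ?_ ?_
      · intro u hu
        rcases List.mem_append.1 hu with hu | hu
        · exact hm1 u hu
        · have : u = ⟨j, z * x⟩ := by simpa using hu
          rw [this]
          exact hzx
      · rw [List.isChain_append] at hchm ⊢
        refine ⟨hchm.1, by simp, ?_⟩
        intro u hu v hv
        have hv' : v = ⟨j, z * x⟩ := by simpa using hv.symm
        have := hchm.2.2 u hu ⟨j, z⟩ (by simp)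
        rw [hv']
        exact this
  · obtain ⟨R, hR⟩ := exists_per (x :: (m ++ [z])) (by simp) h1 hch (by
      have : (x :: (m ++ [z])).get ⟨(x :: (m ++ [z])).length - 1, by simp⟩ = z := by
        simp
      rw [this]
      exact hw)
    exact ⟨1, Or.inr (Or.inr ⟨R, by rw [hR]; group⟩)⟩

theorem cyc_red' (r : CoprodI G) :
    ∃ g : CoprodI G, g * r * g⁻¹ = 1 ∨ (∃ (i : I) (x : G i), g * r * g⁻¹ = of x) ∨
      ∃ R : Per I G, R.rel = g * r * g⁻¹ := by
  classical
  have h : lp (Word.equiv r).toList = r := by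
    show (Word.equiv r).prod = r
    exact (Word.equiv (M := G)).symm_apply_apply r
  have := cyc_red _ (Word.equiv r).toList rfl (Word.equiv r).ne_one (Word.equiv r).chain_ne
  rwa [h] at this

theorem normalClosure_conj {L : Type} [Group L] (r g : L) :
    Subgroup.normalClosure {g * r * g⁻¹} = Subgroup.normalClosure {r} := by
  have h1 : r ∈ Subgroup.normalClosure {r} := Subgroup.subset_normalClosure (Set.mem_singleton r)
  have h2 : g * r * g⁻¹ ∈ Subgroup.normalClosure {r} :=
    Subgroup.normalClosure_normal.conj_mem r h1 g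
  have h3 : g * r * g⁻¹ ∈ Subgroup.normalClosure {g * r * g⁻¹} :=
    Subgroup.subset_normalClosure (Set.mem_singleton _)
  have h4 : g⁻¹ * (g * r * g⁻¹) * g⁻¹⁻¹ ∈ Subgroup.normalClosure {g * r * g⁻¹} :=
    Subgroup.normalClosure_normal.conj_mem _ h3 g⁻¹
  have h5 : g⁻¹ * (g * r * g⁻¹) * g⁻¹⁻¹ = r := by group
  rw [h5] at h4
  exact le_antisymm (Subgroup.normalClosure_le_normal (Set.singleton_subset_iff.2 h2))
    (Subgroup.normalClosure_le_normal (Set.singleton_subset_iff.2 h4))

end

/-- two indices -/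
inductive I2
  | a
  | z

/-- the two groups -/
def G2 (P : Type) : I2 → Type
  | .a => P
  | .z => Multiplicative ℤ

instance (P : Type) [Group P] : ∀ i, Group (G2 P i)
  | .a => inferInstanceAs (Group P)
  | .z => inferInstanceAs (Group (Multiplicative ℤ))

/-- the group `P * ⟨z⟩` -/
abbrev Ex (P : Type) [Group P] : Type := CoprodI (G2 P)

variable {P : Type} [Group P]

/-- the inclusion of `P` -/
def inA : P →* Ex P := of (M := G2 P) (i := .a)

/-- the inclusion of the integers -/
def incZ : Multiplicative ℤ →* Ex P := of (M := G2 P) (i := .z)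

/-- the new generator -/
def zz : Ex P := incZ (Multiplicative.ofAdd (1 : ℤ))

/-- the universal property -/
def liftE {H : Type} [Group H] (f : P →* H) (h : H) : Ex P →* H :=
  Monoid.CoprodI.lift fun i => match i with
    | .a => f
    | .z => zpowersHom H h

theorem liftE_inA {H : Type} [Group H] (f : P →* H) (h : H) (x : P) :
    liftE f h (inA x) = f x := Monoid.CoprodI.lift_of _ _

theorem liftE_zz {H : Type} [Group H] (f : P →* H) (h : H) : liftE f h zz = h := by
  have h1 : liftE f h zz = zpowersHom H h (Multiplicative.ofAdd (1 : ℤ)) :=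
    Monoid.CoprodI.lift_of _ _
  rw [h1, zpowersHom_apply]
  simp

theorem of_z (k : Multiplicative ℤ) : (incZ k : Ex P) = zz ^ k.toAdd := by
  unfold zz
  rw [← map_zpow]
  congr 1
  have : (Multiplicative.ofAdd (1 : ℤ)) ^ k.toAdd = k := by
    rw [← ofAdd_zsmul, smul_eq_mul, mul_one]
    rfl
  exact this.symm

theorem ext_E {H : Type} [Group H] {f g : Ex P →* H} (h1 : ∀ x, f (inA x) = g (inA x))
    (h2 : f zz = g zz) : f = g := by
  apply Monoid.CoprodI.ext_hom
  intro i
  cases i with
  | a => ext x; exact h1 x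
  | z =>
    have h3 : f.comp (incZ (P := P)) = g.comp incZ := MonoidHom.ext_mint h2
    exact h3

/-- the exponent sum of the new generator -/
def ex : Ex P →* Multiplicative ℤ := liftE 1 (Multiplicative.ofAdd 1)

theorem ex_inA (x : P) : ex (inA x) = 1 := liftE_inA _ _ _

theorem ex_zz : ex (zz : Ex P) = Multiplicative.ofAdd 1 := liftE_zz _ _

/-- **One relator with nonzero exponent sum.** -/
theorem locInd_ex (hP : LocInd P) (r : Ex P) (hr : ex r ≠ 1)
    (hprop : ∀ (v : Ex P) (k : ℤ), v ^ k = r → k = 1 ∨ k = -1) :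
    LocInd (Ex P ⧸ Subgroup.normalClosure {r}) := by
  obtain ⟨g, hg⟩ := cyc_red' r
  have hex : ex (g * r * g⁻¹) = ex r := by
    rw [map_mul, map_mul, map_inv]
    exact mul_inv_eq_of_eq_mul (mul_comm _ _)
  rcases hg with hg | ⟨i, x, hg⟩ | ⟨R, hg⟩
  · exfalso
    rw [hg, map_one] at hex
    exact hr hex.symm
  · cases i with
    | a =>
      exfalso
      have h1 : ex (g * r * g⁻¹) = 1 := by
        rw [hg]
        exact ex_inA x
      exact hr (hex.symm.trans h1)
    | z =>
      have hx : g * r * g⁻¹ = zz ^ (show Multiplicative ℤ from x).toAdd := hg.trans (of_z x)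
      set k := (show Multiplicative ℤ from x).toAdd
      have hr' : r = (g⁻¹ * zz * g) ^ k := by
        have h1 : (g⁻¹ * zz * g) ^ k = g⁻¹ * zz ^ k * g := by
          have := conj_zpow (a := g⁻¹) (b := (zz : Ex P)) (i := k)
          rwa [inv_inv] at this
        rw [h1, ← hx]
        group
      have hk := hprop _ k hr'.symm
      let ρ : Ex P →* P := liftE (MonoidHom.id P) 1
      have hρr : ρ r = 1 := by
        rw [hr', map_zpow, map_mul, map_mul, map_inv]
        have : ρ zz = 1 := liftE_zz _ _
        rw [this]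
        group
      let f : (Ex P ⧸ Subgroup.normalClosure {r}) →* P := QuotientGroup.lift _ ρ (by
        intro y hy
        have h1 : Subgroup.normalClosure {r} ≤ ρ.ker := by
          refine Subgroup.normalClosure_le_normal ?_
          rintro _ rfl
          exact hρr
        exact h1 hy)
      let h : P →* (Ex P ⧸ Subgroup.normalClosure {r}) :=
        (QuotientGroup.mk' (Subgroup.normalClosure {r})).comp inA
      have hz1 : QuotientGroup.mk' (Subgroup.normalClosure {r}) (zz : Ex P) = 1 := by
        have h1 : (zz : Ex P) ∈ Subgroup.normalClosure {r} := by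
          rw [← normalClosure_conj r g, hx]
          have h2 : (zz : Ex P) ^ k ∈ Subgroup.normalClosure {(zz : Ex P) ^ k} :=
            Subgroup.subset_normalClosure rfl
          rcases hk with hk | hk
          · rw [hk] at h2 ⊢
            rwa [zpow_one] at h2 ⊢
          · rw [hk] at h2 ⊢
            rw [zpow_neg, zpow_one] at h2 ⊢
            have := Subgroup.inv_mem _ h2
            rwa [inv_inv] at this
        exact (QuotientGroup.eq_one_iff _).2 h1
      have hcomp : (h.comp f).comp (QuotientGroup.mk' (Subgroup.normalClosure {r})) =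
          QuotientGroup.mk' (Subgroup.normalClosure {r}) := by
        apply ext_E
        · intro y
          show h (ρ (inA y)) = _
          rw [show ρ (inA y) = y from liftE_inA _ _ _]
          rfl
        · show h (ρ zz) = _
          rw [show ρ zz = 1 from liftE_zz _ _, map_one, hz1]
      refine locInd_of_injective hP f ?_
      intro y y' hyy
      obtain ⟨u, rfl⟩ := QuotientGroup.mk'_surjective _ y
      obtain ⟨u', rfl⟩ := QuotientGroup.mk'_surjective _ y'
      have e1 := DFunLike.congr_fun hcomp u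
      have e2 := DFunLike.congr_fun hcomp u'
      have e3 : h (f (QuotientGroup.mk' (Subgroup.normalClosure {r}) u)) =
          h (f (QuotientGroup.mk' (Subgroup.normalClosure {r}) u')) := congrArg h hyy
      exact e1.symm.trans (e3.trans e2)
  · refine locInd_one R ?_ ?_ (QuotientGroup.mk' _) (QuotientGroup.mk'_surjective _) ?_
    · intro i
      cases i with
      | a => exact hP
      | z => exact locInd_int
    · intro v k hv
      refine hprop (g⁻¹ * v * g) k ?_
      have h1 : (g⁻¹ * v * g) ^ k = g⁻¹ * v ^ k * g := by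
        have := conj_zpow (a := g⁻¹) (b := v) (i := k)
        rwa [inv_inv] at this
      rw [h1, hv, hg]
      group
    · rw [QuotientGroup.ker_mk', hg, normalClosure_conj]

end Pool.Agent.V5helper80.One
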