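import Pool.Agent.V5helper80.One.Log

/-!
# Labelled oriented trees: the classes with one vertex
-/

set_option autoImplicit false

namespace Pool.Agent.V5helper80.One

open Pool.Agent.V5helper80.Rel
open Pool.Agent.TH625.LOG

/-- reindexing -/
theorem alex_reindex {I E E' : Type} [Fintype E] [DecidableEq E] [Fintype E'] [DecidableEq E']
    [DecidableEq I] {r : I} (τ : E' ≃ E) (σ : E ≃ {x : I // x ≠ r}) (i l t : E → I) :
    alex (τ.trans σ) ℚ (fun e => i (τ e)) (fun e => l (τ e)) (fun e => t (τ e)) =
      alex σ ℚ i l t := by
  unfold alex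
  rw [← Matrix.det_submatrix_equiv_self τ]
  rfl

/-- the group of a class with one vertex -/
theorem locInd_single {V E : Type} (L : LOG V E) (v : V) :
    LocInd (part L fun u => id u = id v).G := by
  let f := degG (part L fun u => id u = id v)
  let g : Multiplicative ℤ →* (part L fun u => id u = id v).G :=
    zpowersHom _ ((part L fun u => id u = id v).gen ⟨v, rfl⟩)
  have hcomp : g.comp f = MonoidHom.id _ := by
    apply hom_ext
    rintro ⟨u, hu⟩
    have hu' : u = v := hu
    subst hu'
    show g (f _) = _
    rw [show f ((part L fun w => id w = id u).gen ⟨u, hu⟩) = Multiplicative.ofAdd 1 from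
      degG_gen _ _]
    show (zpowersHom _ ((part L fun w => id w = id u).gen ⟨u, rfl⟩)) (Multiplicative.ofAdd 1) = _
    rw [zpowersHom_apply, toAdd_ofAdd, zpow_one]
    rfl
  refine locInd_of_injective locInd_int f ?_
  intro x y hxy
  have := congrArg g hxy
  have hx := DFunLike.congr_fun hcomp x
  have hy := DFunLike.congr_fun hcomp y
  exact hx.symm.trans (this.trans hy)

section
open Classical
variable {V E : Type} [Fintype V] [Fintype E]

theorem no_loop (L : LOG V E) (hL : L.Conn) (hcard : Fintype.card V = Fintype.card E + 1) (e : E) :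
    L.ini e ≠ L.ter e := by
  intro h
  have := forest_of_log L hL hcard {L.ini e} {e} (Finset.singleton_nonempty _) (by
    intro e' he'
    rw [Finset.mem_singleton] at he'
    subst he'
    exact ⟨Finset.mem_singleton_self _, by rw [← h]; exact Finset.mem_singleton_self _⟩)
  rw [Finset.card_singleton, Finset.card_singleton] at this
  omega

theorem treeP_id (L : LOG V E) (hL : L.Conn) (hcard : Fintype.card V = Fintype.card E + 1) :
    TreeP L (id : V → V) := by
  intro v
  have h1 : vc (id : V → V) (id v) = {v} := by
    ext u
    rw [mem_vc, Finset.mem_singleton]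
    rfl
  have h2 : ec L (vc (id : V → V) (id v)) = ∅ := by
    rw [h1]
    refine Finset.eq_empty_of_forall_notMem fun e he => ?_
    rw [mem_ec, Finset.mem_singleton, Finset.mem_singleton] at he
    exact no_loop L hL hcard e (he.1.trans he.2.1.symm)
  rw [h2, h1]
  rfl

/-- **The theorem for labelled oriented trees without classes.** -/
theorem locInd_lot (L : LOG V E) (hL : L.Conn) (hcard : Fintype.card V = Fintype.card E + 1)
    (r : V) (σ : E ≃ {x : V // x ≠ r})
    (hcoef : (alex σ ℚ L.ini L.lab L.ter).natTrailingDegree ≤ 1 ∨
      Fintype.card E ≤ (alex σ ℚ L.ini L.lab L.ter).natDegree + 1) : LocInd L.G := by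
  let τ : Out L (id : V → V) ≃ E := Equiv.subtypeUnivEquiv (by
    intro e h
    exact no_loop L hL hcard e (h.1.trans h.2.symm))
  refine locInd_log L hL hcard id Function.surjective_id (treeP_id L hL hcard)
    (fun v => locInd_single L v) r (τ.trans σ) ?_
  have h1 : alexC L (id : V → V) (τ.trans σ) = alex σ ℚ L.ini L.lab L.ter :=
    alex_reindex τ σ L.ini L.lab L.ter
  rw [h1, Fintype.card_congr τ]
  exact hcoef

end

end Pool.Agent.V5helper80.One
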