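import Pool.Agent.V5helper80.One.Low

/-!
# The theorem on the lowest and the highest coefficients
-/

set_option autoImplicit false

namespace Pool.Agent.V5helper80.One

open Monoid (CoprodI)
open Monoid.CoprodI (of)
open Pool.Agent.V5helper80.Rel
open Pool.Agent.TH625.LOG

section reflect
variable {I E : Type} [Fintype E] [DecidableEq E] [DecidableEq I] {r : I}
  (σ : E ≃ {x : I // x ≠ r}) {K : Type} [Field K] [Infinite K]

omit [Infinite K] in
theorem natDegree_alex (i l t : E → I) : (alex σ K i l t).natDegree ≤ Fintype.card E :=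
  Polynomial.natDegree_det_X_add_C_le _ _

omit [Infinite K] in
theorem inc_neg (p q : E → I) : inc σ K p q = - inc σ K q p := by
  unfold inc
  abel

theorem alex_rev (i l t : E → I) : alex σ K t l i =
    (-1) ^ Fintype.card E * (alex σ K i l t).reflect (Fintype.card E) := by
  apply Polynomial.eq_of_infinite_eval_eq
  have h1 : {x : K | x ≠ 0}.Infinite := by
    have : {x : K | x ≠ 0} = ({0} : Set K)ᶜ := rfl
    rw [this]
    exact (Set.finite_singleton (0 : K)).infinite_compl
  refine h1.mono fun x hx => ?_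
  have hx0 : x ≠ 0 := hx
  show (alex σ K t l i).eval x = _
  rw [eval_alex, Polynomial.eval_mul, Polynomial.eval_pow, Polynomial.eval_neg,
    Polynomial.eval_one]
  let _ : Invertible (x⁻¹ : K) := invertibleOfNonzero (inv_ne_zero hx0)
  have h2 := Polynomial.eval₂_reflect_mul_pow (RingHom.id K) (x⁻¹) (Fintype.card E)
    (alex σ K i l t) (natDegree_alex σ i l t)
  rw [invOf_eq_inv, inv_inv] at h2
  have h3 : (alex σ K i l t).eval x⁻¹ = (x⁻¹ • inc σ K i l + inc σ K l t).det := eval_alex _ _ _ _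
  have h4 : Polynomial.eval₂ (RingHom.id K) x⁻¹ (alex σ K i l t) = (alex σ K i l t).eval x⁻¹ := rfl
  have h5 : Polynomial.eval₂ (RingHom.id K) x ((alex σ K i l t).reflect (Fintype.card E)) =
    ((alex σ K i l t).reflect (Fintype.card E)).eval x := rfl
  rw [h4, h5, h3] at h2
  have h6 : x • inc σ K t l + inc σ K l i = (-x) • (x⁻¹ • inc σ K i l + inc σ K l t) := by
    rw [inc_neg σ t l, inc_neg σ l i, smul_add, smul_smul]
    rw [show -x * x⁻¹ = -1 by rw [neg_mul, mul_inv_cancel₀ hx0]]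
    rw [smul_neg, neg_smul, neg_smul, one_smul]
    abel
  rw [h6, Matrix.det_smul, ← h2, neg_pow]
  have h7 : x ^ Fintype.card E * (x⁻¹) ^ Fintype.card E = 1 := by
    rw [← mul_pow, mul_inv_cancel₀ hx0, one_pow]
  linear_combination (-1) ^ Fintype.card E *
    Polynomial.eval x ((alex σ K i l t).reflect (Fintype.card E)) * h7

theorem alex_rev_coeff (i l t : E → I) (k : ℕ) (hk : k ≤ Fintype.card E)
    (h : (alex σ K i l t).coeff (Fintype.card E - k) ≠ 0) : (alex σ K t l i).coeff k ≠ 0 := by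
  rw [alex_rev]
  have h1 : ((-1 : Polynomial K) ^ Fintype.card E) =
      Polynomial.C ((-1) ^ Fintype.card E) := by
    rw [map_pow, map_neg, map_one]
  rw [h1, Polynomial.coeff_C_mul, Polynomial.coeff_reflect, Polynomial.revAt_le hk]
  exact mul_ne_zero (pow_ne_zero _ (neg_ne_zero.2 one_ne_zero)) h

end reflect

variable {I E : Type} {G : I → Type} [∀ i, Group (G i)]

/-- the inverse heights -/
def Hg.rev (T : Hg G) : Hg G where
  ht i := (T.ht i)⁻¹
  t i := (T.t i)⁻¹
  h1 i := by
    rw [map_inv, MonoidHom.inv_apply, inv_inv, T.h1]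

/-- the inverse relations -/
def rv (D : Dat I E G) : Dat I E G where
  ci := D.ct
  cl := D.cl
  ct := D.ci
  x e := (D.z e)⁻¹
  y e := (D.y' e)⁻¹
  y' e := (D.y e)⁻¹
  z e := (D.x e)⁻¹

theorem hz_rev (T : Hg G) (i : I) (g : G i) : T.rev.hz i g⁻¹ = T.hz i g := by
  have h1 : (T.ht i)⁻¹ g⁻¹ = T.ht i g := by
    rw [MonoidHom.inv_apply, map_inv, inv_inv]
  exact congrArg Multiplicative.toAdd h1

theorem allOne_rv {T : Hg G} {D : Dat I E G} (hD : AllOne T D) : AllOne T.rev (rv D) := by
  intro e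
  obtain ⟨e1, e2, e3, e4⟩ := hD e
  exact ⟨(hz_rev T _ _).trans e4, (hz_rev T _ _).trans e3, (hz_rev T _ _).trans e2,
    (hz_rev T _ _).trans e1⟩

theorem rel_rv (D : Dat I E G) (e : E) : (rv D).rel e =
    (of (D.x e) * of (D.y e))⁻¹ * D.rel e * (of (D.x e) * of (D.y e)) := by
  have h1 : (rv D).rel e = (of (D.z e)⁻¹ * of (D.y' e)⁻¹) * (of (D.y e)⁻¹ * of (D.x e)⁻¹)⁻¹ := rfl
  have h2 : D.rel e = (of (D.x e) * of (D.y e)) * (of (D.y' e) * of (D.z e))⁻¹ := rfl
  rw [h1, h2, map_inv, map_inv, map_inv, map_inv]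
  group

theorem nc_rv (D : Dat I E G) : Subgroup.normalClosure (Set.range (rv D).rel) =
    Subgroup.normalClosure (Set.range D.rel) := by
  apply le_antisymm
  · refine Subgroup.normalClosure_le_normal ?_
    rintro _ ⟨e, rfl⟩
    rw [rel_rv]
    have h1 : D.rel e ∈ Subgroup.normalClosure (Set.range D.rel) :=
      Subgroup.subset_normalClosure ⟨e, rfl⟩
    have h2 := Subgroup.normalClosure_normal.conj_mem _ h1 (of (D.x e) * of (D.y e))⁻¹
    rwa [inv_inv] at h2
  · refine Subgroup.normalClosure_le_normal ?_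
    rintro _ ⟨e, rfl⟩
    have h1 : (rv D).rel e ∈ Subgroup.normalClosure (Set.range (rv D).rel) :=
      Subgroup.subset_normalClosure ⟨e, rfl⟩
    have h2 := Subgroup.normalClosure_normal.conj_mem _ h1 (of (D.x e) * of (D.y e))
    rw [rel_rv] at h2
    have h3 : of (D.x e) * of (D.y e) * ((of (D.x e) * of (D.y e))⁻¹ * D.rel e *
        (of (D.x e) * of (D.y e))) * (of (D.x e) * of (D.y e))⁻¹ = D.rel e := by group
    rwa [h3] at h2

theorem Forest.symm {V : Type} {p q : E → V} (h : Forest p q) : Forest q p :=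
  fun U D hU hD => h U D hU fun e he => ⟨(hD e he).2, (hD e he).1⟩

/-- **Theorem.** The Alexander determinant does not vanish to the second order at zero, or its
degree is at most one less than the number of relations. -/
theorem locInd_coef [Fintype I] [Fintype E] [DecidableEq I] [DecidableEq E] {T : Hg G}
    (D : Dat I E G) (hD : AllOne T D)
    (hLI : ∀ i, LocInd (G i)) (r : I) (σ : E ≃ {x : I // x ≠ r})
    (hcard : Fintype.card I = Fintype.card E + 1) (hT : Forest D.ci D.ct)
    (hcoef : (alex σ ℚ D.ci D.cl D.ct).natTrailingDegree ≤ 1 ∨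
      Fintype.card E ≤ (alex σ ℚ D.ci D.cl D.ct).natDegree + 1)
    {Q : Type} [Group Q] (π : CoprodI G →* Q) (hsurj : Function.Surjective π)
    (hker : π.ker = Subgroup.normalClosure (Set.range D.rel)) : LocInd Q := by
  have h0 : alex σ ℚ D.ci D.cl D.ct ≠ 0 := alex_ne_zero hT
  rcases hcoef with h | h
  · refine locInd_low D hD hLI r σ hcard hT ?_ π hsurj hker
    have h1 : (alex σ ℚ D.ci D.cl D.ct).coeff (alex σ ℚ D.ci D.cl D.ct).natTrailingDegree ≠ 0 :=
      mt Polynomial.trailingCoeff_eq_zero.1 h0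
    rcases (show (alex σ ℚ D.ci D.cl D.ct).natTrailingDegree = 0 ∨
      (alex σ ℚ D.ci D.cl D.ct).natTrailingDegree = 1 by omega) with h2 | h2
    · rw [h2] at h1; exact Or.inl h1
    · rw [h2] at h1; exact Or.inr h1
  · have hdeg := natDegree_alex (K := ℚ) σ D.ci D.cl D.ct
    have h1 : (alex σ ℚ D.ci D.cl D.ct).coeff (alex σ ℚ D.ci D.cl D.ct).natDegree ≠ 0 :=
      mt Polynomial.leadingCoeff_eq_zero.1 h0
    refine locInd_low (rv D) (allOne_rv hD) hLI r σ hcard (Forest.symm hT) ?_ π hsurj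
      (hker.trans (nc_rv D).symm)
    rcases (show (alex σ ℚ D.ci D.cl D.ct).natDegree = Fintype.card E ∨
      ((alex σ ℚ D.ci D.cl D.ct).natDegree = Fintype.card E - 1 ∧ 1 ≤ Fintype.card E) by omega)
      with h2 | h2
    · rw [h2] at h1
      exact Or.inl (alex_rev_coeff σ D.ci D.cl D.ct 0 (Nat.zero_le _) (by rwa [Nat.sub_zero]))
    · rw [h2.1] at h1
      exact Or.inr (alex_rev_coeff σ D.ci D.cl D.ct 1 h2.2 h1)

end Pool.Agent.V5helper80.One
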