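import Pool.Agent.V5helper80.One.Cyc
import Pool.Agent.V5helper80.One.Count

/-!
# Local indicability of one-relator quotients of free products
-/

set_option autoImplicit false

namespace Pool.Agent.V5helper80.One

open Monoid (CoprodI)
open Monoid.CoprodI (of)
open Pool.Agent.V5helper80.Rel
open Pool.Agent.TH625.LOG

section
open Classical
variable {I A : Type} {G : I → Type} [∀ i, Group (G i)] [MulAction (CoprodI G) A] {R : Per I G}

/-- the induction -/
theorem triv_of_HZ (K : Cone (Subgroup.zpowers R.rel)) {Q : Type} [Group Q] (π : CoprodI G →* Q)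
    (hπ : π R.rel = 1)
    (hst : ∀ (i : I) (a : A) (g : G i), ¬ Live (orb G (a, i)) → mv (of g) a = a → g = 1) :
    ∀ (m : ℕ) (S : Finset (A × I)) (F : Finset A), S.card = m → R.Cplx S F →
      R.HZ S F → Triv π S := by
  intro m
  induction m using Nat.strong_induction_on with
  | _ m ih =>
    intro S F hm hC hz
    have hst' : ∀ (i : I) (a : A) (g : G i), ¬ Live (orb G (a, i)) → mv (of g) a = a →
        π (of g) = 1 := fun i a g h1 h2 => by rw [hst i a g h1 h2, map_one, map_one]
    rcases S.eq_empty_or_nonempty with hS0 | hS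
    · exact ⟨fun _ => 1, fun i a g h => by rw [hS0] at h; exact absurd h (Finset.notMem_empty _)⟩
    by_cases hall : ∀ s ∈ S, 2 ≤ (R.passes F s).card
    · exfalso
      have h2 := ineq K hC hall hst
      have h3 := rank_ineq R S F hS hz
      omega
    · push Not at hall
      obtain ⟨s, hs, hlt⟩ := hall
      have hcard : (S.erase s).card < m := by
        rw [← hm]; exact Finset.card_erase_lt_of_mem hs
      have h3 : (R.passes F s).card = 0 ∨ (R.passes F s).card = 1 := by omega
      rcases h3 with h3 | h3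
      · have h4 := Finset.card_eq_zero.1 h3
        obtain ⟨h5, h6⟩ := step_zero π hst' hC hz s hs h4
        exact h6 (ih _ hcard _ _ rfl (Cplx.erase_edge hC s h4) h5)
      · obtain ⟨⟨a, q⟩, h4⟩ := Finset.card_eq_one.1 h3
        obtain ⟨h5, h6, h7⟩ := step_one π hπ hC hz s a q h4
        exact h7 (ih _ hcard _ _ rfl h5 h6)

end

variable {I : Type} {G : I → Type} [∀ i, Group (G i)]

/-- the cyclic subgroup of the relator is relatively convex -/
theorem exists_cone_rel (R : Per I G) (hLI : ∀ i, LocInd (G i))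
    (hprop : ∀ (v : CoprodI G) (k : ℤ), v ^ k = R.rel → k = 1 ∨ k = -1) :
    Nonempty (Cone (Subgroup.zpowers R.rel)) := by
  refine exists_cone R.rel fun M hM hr hnot => ?_
  by_contra hno
  push Not at hno
  obtain ⟨v, hv⟩ := cyclic_of R hLI M hM hr hno
  obtain ⟨k, hk⟩ := Subgroup.mem_zpowers_iff.1 (hv hr)
  refine hnot (hv.trans ?_)
  rw [Subgroup.zpowers_le, Subgroup.mem_zpowers_iff]
  rcases hprop v k hk with rfl | rfl
  · exact ⟨1, by rw [zpow_one, ← hk, zpow_one]⟩
  · exact ⟨-1, by rw [← hk, ← zpow_mul]; norm_num⟩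

theorem J_rel {M : Subgroup (CoprodI G)} {c : ∀ i, (CoprodI G ⧸ M) → G i → ℚ} (hc : IsCoc c)
    (R : Per I G) (a : CoprodI G ⧸ M) (k : ℕ) :
    J c hc (R.W k) a = ∑ j ∈ Finset.range k, c _ (R.pos a j) (R.s j).2 := by
  induction k with
  | zero => rw [R.W_zero, J_one]; simp
  | succ k ih => rw [R.W_succ, J_mul, ih, Finset.sum_range_succ, J_of]; rfl

theorem closed_of_mem {M : Subgroup (CoprodI G)} (R : Per I G) (g : CoprodI G)
    (hm : g * R.rel * g⁻¹ ∈ M) : R.Closed (mv g (bp M)) := by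
  have h2 := mv_bp hm
  rw [mv_mul, mv_mul] at h2
  have h4 := congrArg (mv g) h2
  rwa [mv_inv'] at h4

theorem J_line {M : Subgroup (CoprodI G)} {c : ∀ i, (CoprodI G ⧸ M) → G i → ℚ} (hc : IsCoc c)
    (R : Per I G) (g : CoprodI G) (hm : g * R.rel * g⁻¹ ∈ M)
    (hE : R.ar c (mv g (bp M)) = 0) : g * R.rel * g⁻¹ ∈ Zer c hc := by
  refine ⟨hm, ?_⟩
  have hcl := closed_of_mem R g hm
  have hr : J c hc R.rel (mv g (bp M)) = 0 := by
    show J c hc (R.W R.n) _ = 0
    rw [J_rel]
    exact hE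
  rw [mul_assoc, J_mul, J_mul, hr, hcl, J_inv, mv_inv]
  ring

/-- **One-relator quotients of free products of locally indicable groups.** -/
theorem locInd_one (R : Per I G) (hLI : ∀ i, LocInd (G i))
    (hprop : ∀ (v : CoprodI G) (k : ℤ), v ^ k = R.rel → k = 1 ∨ k = -1)
    {Q : Type} [Group Q] (π : CoprodI G →* Q)
    (hsurj : Function.Surjective π) (hker : π.ker = Subgroup.normalClosure {R.rel}) :
    LocInd Q := by
  classical
  obtain ⟨K⟩ := exists_cone_rel R hLI hprop
  intro H hH hne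
  by_contra hno
  apply hne
  obtain ⟨S, hS⟩ := hH
  choose lf hlf using hsurj
  let W : Finset (CoprodI G) := S.image lf
  have hWS : ∀ w ∈ W, π w ∈ H := by
    intro w hw
    obtain ⟨s, hs, rfl⟩ := Finset.mem_image.1 hw
    rw [hlf, ← hS]
    exact Subgroup.subset_closure hs
  let K0 : Subgroup (CoprodI G) := Subgroup.closure (W : Set (CoprodI G))
  have hK : K0.map π = H := by
    rw [MonoidHom.map_closure, ← hS]
    congr 1
    ext x
    constructor
    · rintro ⟨w, hw, rfl⟩
      obtain ⟨s, hs, rfl⟩ := Finset.mem_image.1 (Finset.mem_coe.1 hw)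
      rw [hlf]; exact hs
    · intro hx
      exact ⟨lf x, Finset.mem_coe.2 (Finset.mem_image_of_mem lf hx), hlf x⟩
  have hrange : Set.range (fun _ : Unit => R.rel) = {R.rel} := Set.range_const
  have hex : ∀ w : CoprodI G, ∃ C : Finset (Unit × CoprodI G), w ∈ W →
      ∃ N : ℕ, 0 < N ∧ ∃ k ∈ ⁅K0, K0⁆,
        w ^ N * k⁻¹ ∈ Subgroup.closure {x | ∃ q ∈ C, x = q.2 * R.rel * q.2⁻¹} := by
    intro w
    by_cases hw : w ∈ W
    · obtain ⟨N, hN, h1⟩ := NPI.pow_mem_commutator H ⟨S, hS⟩ hno (π w) (hWS w hw)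
      rw [← hK, ← Subgroup.map_commutator] at h1
      obtain ⟨k, hk, hk2⟩ := h1
      obtain ⟨C, hC⟩ := exists_lines (fun _ : Unit => R.rel) (w ^ N * k⁻¹) (by
        rw [hrange, ← hker, MonoidHom.mem_ker, map_mul, map_inv, map_pow, hk2, mul_inv_cancel])
      exact ⟨C, fun _ => ⟨N, hN, k, hk, hC⟩⟩
    · exact ⟨∅, fun h => absurd h hw⟩
  choose Cf hCf using hex
  let C : Finset (Unit × CoprodI G) := W.biUnion Cf
  let lines : Finset (CoprodI G) := C.image fun q => q.2 * R.rel * q.2⁻¹
  let M : Subgroup (CoprodI G) := Subgroup.closure ((W ∪ lines : Finset (CoprodI G)) : Set _)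
  have hMfg : M.FG := ⟨W ∪ lines, rfl⟩
  have hKM : K0 ≤ M := Subgroup.closure_mono (by simp)
  have hWM : ∀ w ∈ W, w ∈ M := fun w hw => hKM (Subgroup.subset_closure hw)
  have hline : ∀ q ∈ C, q.2 * R.rel * q.2⁻¹ ∈ M := fun q hq =>
    Subgroup.subset_closure (Finset.mem_coe.2 (Finset.mem_union_right _
      (Finset.mem_image_of_mem _ hq)))
  let F : Finset (CoprodI G ⧸ M) := C.image fun q => mv q.2 (bp M)
  choose P hP using fun w => path_edges M π w (bp M)
  let T : Finset ((CoprodI G ⧸ M) × I) :=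
    (F.biUnion fun a => (Finset.range (2 * R.n)).image (R.ts a)) ∪ W.biUnion P
  have hCx : R.Cplx T F := by
    intro a ha
    have hcl : R.Closed a := by
      obtain ⟨q, hq, rfl⟩ := Finset.mem_image.1 ha
      exact closed_of_mem R q.2 (hline q hq)
    refine ⟨hcl, fun k => Finset.mem_union_left _ ?_⟩
    refine Finset.mem_biUnion.2 ⟨a, ha, ?_⟩
    rw [← ts_mod hcl]
    exact Finset.mem_image_of_mem _ (Finset.mem_range.2 (Nat.mod_lt _ (by have := R.hn; omega)))
  have hz : R.HZ T F := by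
    intro c hc hcE
    have hMZ : M ≤ Zer c hc := by
      have hl : ∀ q ∈ C, q.2 * R.rel * q.2⁻¹ ∈ Zer c hc := fun q hq =>
        J_line hc R q.2 (hline q hq) (hcE _ (Finset.mem_image_of_mem _ hq))
      rw [Subgroup.closure_le]
      intro w hw
      rcases Finset.mem_union.1 (Finset.mem_coe.1 hw) with hw | hw
      · obtain ⟨N, hN, k, hk, h1⟩ := hCf w hw
        have h2 : w ^ N * k⁻¹ ∈ Zer c hc := by
          refine (Subgroup.closure_le _).2 ?_ h1
          rintro x ⟨q, hq, rfl⟩
          exact hl q (Finset.mem_biUnion.2 ⟨w, hw, hq⟩)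
        have h3 : k ∈ Zer c hc := comm_le_Zer hc (Subgroup.commutator_mono hKM hKM hk)
        have h4 : w ^ N ∈ Zer c hc := by
          have := (Zer c hc).mul_mem h2 h3
          rwa [inv_mul_cancel_right] at this
        exact mem_Zer_of_pow hc (hWM w hw) hN h4
      · obtain ⟨q, hq, rfl⟩ := Finset.mem_image.1 hw
        exact hl q hq
    obtain ⟨δ, hδ⟩ := coboundary hc hMZ
    exact ⟨δ, fun i a g _ _ => hδ i a g⟩
  have hπ : π R.rel = 1 := by
    rw [← MonoidHom.mem_ker, hker]
    exact Subgroup.subset_normalClosure rfl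
  have hst : ∀ (i : I) (a : CoprodI G ⧸ M) (g : G i), ¬ Live (orb G (a, i)) →
      mv (of g) a = a → g = 1 :=
    fun i a g hd hg => stb_trivial hLI i a (stbF_fg M hMfg a) hd g hg
  obtain ⟨p, hp⟩ := (triv_iff π T).1 (triv_of_HZ K π hπ hst _ T F rfl hCx hz)
  have hone : ∀ w ∈ W, π w = 1 := by
    intro w hw
    have h1 := hP w p (hp.mono (by
      intro x hx
      exact Finset.mem_coe.2 (Finset.mem_union_right _
        (Finset.mem_biUnion.2 ⟨w, hw, Finset.mem_coe.1 hx⟩))))
    rw [mv_bp (hWM w hw)] at h1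
    exact (mul_eq_left.1 h1.symm)
  rw [← hS, Subgroup.closure_eq_bot_iff]
  intro x hx
  have h1 := hone (lf x) (Finset.mem_image_of_mem lf hx)
  rw [hlf] at h1
  exact h1

end Pool.Agent.V5helper80.One
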