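import Pool.Agent.V5helper80.One.High

/-!
# Labelled oriented trees with a partition into subtrees
-/

set_option autoImplicit false

namespace Pool.Agent.V5helper80.One

open Monoid (CoprodI)
open Monoid.CoprodI (of)
open Pool.Agent.V5helper80.Rel
open Pool.Agent.TH625.LOG

section quot
variable {V E I : Type} (L : LOG V E) (cl : V → I)

open Classical in
/-- the group of `L` is locally indicable if the quotient of the free product of the groups of the
classes is -/
theorem locInd_of_quot (hQ : LocInd (CoprodI (CG L cl) ⧸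
    Subgroup.normalClosure (Set.range (dat L cl).rel))) : LocInd L.G := by
  set D := dat L cl with hD
  set N : Subgroup (CoprodI (CG L cl)) := Subgroup.normalClosure (Set.range D.rel) with hN
  -- the two homomorphisms
  have hrel0 : ∀ e : Out L cl, D.rel e =
      (gof L cl (L.ini e.1) * gof L cl (L.lab e.1)) *
        (gof L cl (L.lab e.1) * gof L cl (L.ter e.1))⁻¹ := fun e => rfl
  let φ : L.G →* CoprodI (CG L cl) ⧸ N :=
    liftG L (fun v => QuotientGroup.mk' N (gof L cl v)) (by
      intro e
      by_cases h : cl (L.ini e) = cl (L.lab e) ∧ cl (L.ter e) = cl (L.lab e)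
      · have h2 := gen_rel (part L fun u => cl u = cl (L.lab e)) ⟨e, h.1, h.2, rfl⟩
        rw [gof_eq L cl (L.ini e) (cl (L.lab e)) h.1, gof_eq L cl (L.ter e) (cl (L.lab e)) h.2,
          gof_eq L cl (L.lab e) (cl (L.lab e)) rfl, ← map_mul, ← map_mul, ← map_mul, ← map_mul]
        exact congrArg _ (congrArg _ h2)
      · have h4 : ∃ eo : Out L cl, eo.1 = e := ⟨⟨e, h⟩, rfl⟩
        obtain ⟨eo, rfl⟩ := h4
        have h2 : D.rel eo ∈ N := Subgroup.subset_normalClosure ⟨eo, rfl⟩
        have h3 : QuotientGroup.mk' N (D.rel eo) = 1 := (QuotientGroup.eq_one_iff _).2 h2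
        rw [hrel0 eo, map_mul, map_inv, mul_inv_eq_one] at h3
        rw [← map_mul, ← map_mul]
        exact h3)
  let ψ0 : CoprodI (CG L cl) →* L.G :=
    Monoid.CoprodI.lift fun i => partHom L fun u => cl u = i
  have hψ0 : ∀ v, ψ0 (gof L cl v) = L.gen v := by
    intro v
    simp only [ψ0, gof]
    rw [Monoid.CoprodI.lift_of]
    exact liftG_gen _ _ _ _
  let ψ : CoprodI (CG L cl) ⧸ N →* L.G :=
    QuotientGroup.lift N ψ0 (by
      intro x hx
      have h2 : N ≤ ψ0.ker := by
        refine Subgroup.normalClosure_le_normal ?_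
        rintro _ ⟨e, rfl⟩
        show ψ0 (D.rel e) = 1
        rw [hrel0, map_mul, map_inv, mul_inv_eq_one, map_mul, map_mul, hψ0, hψ0, hψ0]
        exact gen_rel L e.1
      exact h2 hx)
  have hcomp : ψ.comp φ = MonoidHom.id L.G := by
    apply hom_ext
    intro v
    show ψ (φ (L.gen v)) = L.gen v
    rw [show φ (L.gen v) = QuotientGroup.mk' N (gof L cl v) from liftG_gen _ _ _ _]
    exact hψ0 v
  refine locInd_of_injective hQ φ ?_
  intro x y hxy
  have := congrArg ψ hxy
  have hx := DFunLike.congr_fun hcomp x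
  have hy := DFunLike.congr_fun hcomp y
  exact hx.symm.trans (this.trans hy)

/-- the heights on the groups of the classes -/
noncomputable def hgC (hc : Function.Surjective cl) : Hg (CG L cl) where
  ht i := degG (part L fun u => cl u = i)
  t i := (part L fun u => cl u = i).gen ⟨(hc i).choose, (hc i).choose_spec⟩
  h1 i := degG_gen _ _

theorem allOne_dat (hc : Function.Surjective cl) : AllOne (hgC L cl hc) (dat L cl) := by
  have h : ∀ v, (hgC L cl hc).hz (cl v) (gcl L cl v) = 1 := by
    intro v
    show (degG _ (gcl L cl v)).toAdd = 1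
    unfold gcl
    rw [degG_gen, toAdd_ofAdd]
  exact fun e => ⟨h _, h _, h _, h _⟩

end quot

section tree
open Classical
variable {V E I : Type} [Fintype V] [Fintype E] [Fintype I]

/-- the outer edges are finite in number -/
noncomputable instance (L : LOG V E) (cl : V → I) : Fintype (Out L cl) :=
  inferInstanceAs (Fintype {e : E // ¬ (cl (L.ini e) = cl (L.lab e) ∧ cl (L.ter e) = cl (L.lab e))})

/-- the quotient has one vertex more than edges -/
theorem card_quot (L : LOG V E) (hcard : Fintype.card V = Fintype.card E + 1) (cl : V → I)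
    (hc : Function.Surjective cl) (hT : TreeP L cl) :
    Fintype.card I = Fintype.card (Out L cl) + 1 := by
  have h1 : Fintype.card V = ∑ i : I, (vc cl i).card := by
    rw [← Finset.card_univ, Finset.card_eq_sum_card_fiberwise (f := cl) (t := Finset.univ)
      (fun _ _ => Finset.mem_univ _)]
    rfl
  have h2 : ∀ i : I, (vc cl i).card = (ec L (vc cl i)).card + 1 := by
    intro i
    obtain ⟨v, rfl⟩ := hc i
    exact hT v
  have h3 : ∑ i : I, (vc cl i).card = ∑ i : I, (ec L (vc cl i)).card + Fintype.card I := by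
    rw [Finset.sum_congr rfl fun i _ => h2 i, Finset.sum_add_distrib, Finset.sum_const,
      Finset.card_univ, smul_eq_mul, mul_one]
  have h4 : ∑ i : I, (ec L (vc cl i)).card =
      (Finset.univ.filter fun e => cl (L.ini e) = cl (L.lab e) ∧ cl (L.ter e) = cl (L.lab e)).card := by
    rw [Finset.card_eq_sum_card_fiberwise (f := fun e => cl (L.lab e)) (t := Finset.univ)
      (fun _ _ => Finset.mem_univ _)]
    refine Finset.sum_congr rfl fun i _ => ?_
    congr 1
    ext e
    rw [mem_ec, mem_vc, mem_vc, mem_vc, Finset.mem_filter, Finset.mem_filter]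
    constructor
    · rintro ⟨h5, h6, h7⟩
      exact ⟨⟨Finset.mem_univ _, h5.trans h7.symm, h6.trans h7.symm⟩, h7⟩
    · rintro ⟨⟨_, h5, h6⟩, h7⟩
      exact ⟨h5.trans h7, h6.trans h7, h7⟩
  have h5 : Fintype.card (Out L cl) = (Finset.univ.filter fun e =>
      ¬ (cl (L.ini e) = cl (L.lab e) ∧ cl (L.ter e) = cl (L.lab e))).card :=
    Fintype.card_subtype _
  have h6 := Finset.card_filter_add_card_filter_not (s := (Finset.univ : Finset E))
    (fun e => cl (L.ini e) = cl (L.lab e) ∧ cl (L.ter e) = cl (L.lab e))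
  rw [Finset.card_univ] at h6
  omega

/-- the quotient is a tree -/
theorem forest_quot (L : LOG V E) (hL : L.Conn) (hcard : Fintype.card V = Fintype.card E + 1)
    (cl : V → I) (hc : Function.Surjective cl) (hT : TreeP L cl) :
    Forest (fun e : Out L cl => cl (L.ini e.1)) (fun e => cl (L.ter e.1)) := by
  refine forest_of_conn _ _ (fun f hf x y => ?_) (card_quot L hcard cl hc hT)
  obtain ⟨v, rfl⟩ := hc x
  obtain ⟨w, rfl⟩ := hc y
  have h1 : ∀ e, f (cl (L.ini e)) = f (cl (L.ter e)) := by
    intro e
    by_cases h : cl (L.ini e) = cl (L.lab e) ∧ cl (L.ter e) = cl (L.lab e)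
    · rw [h.1, h.2]
    · exact hf ⟨e, h⟩
  have h : Relation.ReflTransGen L.Adj v w := hL v w
  induction h with
  | refl => rfl
  | tail _ hab ih =>
    rw [ih]
    obtain ⟨e, he⟩ := hab
    rcases he with ⟨h2, h3⟩ | ⟨h2, h3⟩
    · rw [← h2, ← h3, h1]
    · rw [← h2, ← h3, h1]

/-- the Alexander determinant of the quotient -/
noncomputable def alexC (L : LOG V E) (cl : V → I) {r : I} (σ : Out L cl ≃ {x : I // x ≠ r}) :
    Polynomial ℚ :=
  alex σ ℚ (fun e => cl (L.ini e.1)) (fun e => cl (L.lab e.1)) (fun e => cl (L.ter e.1))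

/-- **The theorem for labelled oriented trees.** -/
theorem locInd_log (L : LOG V E) (hL : L.Conn) (hcard : Fintype.card V = Fintype.card E + 1)
    (cl : V → I) (hc : Function.Surjective cl) (hT : TreeP L cl)
    (hLI : ∀ v, LocInd (part L fun u => cl u = cl v).G) (r : I)
    (σ : Out L cl ≃ {x : I // x ≠ r})
    (hcoef : (alexC L cl σ).natTrailingDegree ≤ 1 ∨
      Fintype.card (Out L cl) ≤ (alexC L cl σ).natDegree + 1) : LocInd L.G := by
  apply locInd_of_quot L cl
  refine locInd_coef (dat L cl) (allOne_dat L cl hc) (fun i => ?_) r σ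
    (card_quot L hcard cl hc hT) (forest_quot L hL hcard cl hc hT) hcoef
    (QuotientGroup.mk' _) (QuotientGroup.mk'_surjective _) (QuotientGroup.ker_mk' _)
  obtain ⟨v, rfl⟩ := hc i
  exact hLI v

theorem exists_enum (L : LOG V E) (hcard : Fintype.card V = Fintype.card E + 1)
    (cl : V → I) (hc : Function.Surjective cl) (hT : TreeP L cl) (r : I) :
    Nonempty (Out L cl ≃ {x : I // x ≠ r}) := by
  have h1 := card_quot L hcard cl hc hT
  refine ⟨Fintype.equivOfCardEq ?_⟩
  have h2 : Fintype.card {x : I // x ≠ r} = Fintype.card I - 1 := by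
    rw [Fintype.card_subtype_compl, Fintype.card_subtype_eq]
  rw [h2]
  omega

/-- at most four classes -/
theorem locInd_four (L : LOG V E) (hL : L.Conn) (hcard : Fintype.card V = Fintype.card E + 1)
    (cl : V → I) (hc : Function.Surjective cl) (hT : TreeP L cl)
    (hLI : ∀ v, LocInd (part L fun u => cl u = cl v).G) (h4 : Fintype.card I ≤ 4) :
    LocInd L.G := by
  have h1 := card_quot L hcard cl hc hT
  obtain ⟨r⟩ : Nonempty I := Fintype.card_pos_iff.1 (by omega)
  obtain ⟨σ⟩ := exists_enum L hcard cl hc hT r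
  refine locInd_log L hL hcard cl hc hT hLI r σ ?_
  have h2 := (alexC L cl σ).natTrailingDegree_le_natDegree
  omega

end tree

end Pool.Agent.V5helper80.One
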