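import Pool.Agent.V5helper80.One.NP

/-!
# The theorem on the low coefficients
-/

set_option autoImplicit false

namespace Pool.Agent.V5helper80.One

open Monoid (CoprodI)
open Monoid.CoprodI (of)
open Pool.Agent.V5helper80.Rel
open Pool.Agent.TH625.LOG

variable {I E : Type} {G : I → Type} [∀ i, Group (G i)] {T : Hg G}

/-- a stage in the regular case -/
structure Stz (T : Hg G) (D : Dat I E G) (r : I) (b : ℕ) where
  X : Type
  [grp : Group X]
  li : LocInd X
  a : ∀ i, (T.ht i).ker →* X
  Y : I → ℤ → X
  gauge : ∀ k : ℤ, 0 ≤ k → k ≤ b + 1 → Y r k = 1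
  eqs : Eqs D a Y (b + 1)
  univ : ∀ (H : Type) [Group H] (α : ∀ i, (T.ht i).ker →* H) (Z : I → ℤ → H),
    (∀ i, Z i 0 = 1) → (∀ k, Z r k = 1) → Eqs D α Z (b + 1) →
    ∃ F : X →* H, (∀ i g, F (a i g) = α i g) ∧
      ∀ (i : I) (k : ℤ), 0 ≤ k → k ≤ b + 1 → F (Y i k) = Z i k

attribute [instance] Stz.grp

/-- forget the gauge -/
def Stz.sta {D : Dat I E G} {r : I} {b : ℕ} (S : Stz T D r b) : Sta T D r (b + 1) where
  X := S.X
  li := S.li
  a := S.a
  Y := S.Y
  eqs := S.eqs
  univ := S.univ

open Classical in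
theorem first_z (T : Hg G) (D : Dat I E G) (hLI : ∀ i, LocInd (G i)) (r : I) :
    Nonempty (Stz T D r 0) := by
  let p0 : I → CoprodI (BG T) := fun i => if i = r then 1 else bl T i (Multiplicative.ofAdd 1)
  let Y : I → ℤ → CoprodI (BG T) := fun i k => if k ≤ 0 then 1 else p0 i
  have hY0 : ∀ i k, k ≤ 0 → Y i k = 1 := fun i k hk => if_pos hk
  have hY1 : ∀ i k, 0 < k → Y i k = p0 i := fun i k hk => if_neg (by omega)
  have hpr : p0 r = 1 := if_pos rfl
  refine ⟨{ X := CoprodI (BG T)
            li := locInd_BG T hLI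
            a := bk T
            Y := Y
            gauge := ?_
            eqs := ?_
            univ := ?_ }⟩
  · intro k h0 hk
    push_cast at hk
    rcases (show k ≤ 0 ∨ 0 < k by omega) with h | h
    · exact hY0 _ _ h
    · rw [hY1 _ _ h, hpr]
  · intro e k h0 hk
    push_cast at hk
    omega
  · intro H _ α Z hZ0 hZr _
    refine ⟨bLift T α fun i => Z i 1, fun i g => bLift_bk T α _ i g, fun i k h0 hk => ?_⟩
    push_cast at hk
    rcases (show k = 0 ∨ k = 1 by omega) with h | h
    · rw [h, hY0 i 0 le_rfl, map_one, hZ0]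
    · rw [h, hY1 i 1 (by omega)]
      by_cases hr : i = r
      · rw [hr, hpr, map_one, hZr]
      · have : p0 i = bl T i (Multiplicative.ofAdd 1) := if_neg hr
        rw [this, bLift_bl]

open Classical in
theorem next_z [Fintype I] [Fintype E] {D : Dat I E G} (hD : AllOne T D) {r : I} {b : ℕ}
    (hF : Forest D.cl D.ct)
    (hconn : ∀ f : I → ℚ, (∀ e, f (D.cl e) = f (D.ct e)) → ∀ x, f x = f r)
    (S : Stz T D r b) : Nonempty (Stz T D r (b + 1)) := by
  obtain ⟨p, hpr, hp⟩ := exists_pot D.cl D.ct hF r fun e => Gam T D S.a S.Y b e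
  let Y' : I → ℤ → S.X := fun i k => if k ≤ b + 1 then S.Y i k else S.Y i (b + 1) * p i
  have hY'1 : ∀ (i : I) (k : ℤ), k ≤ b + 1 → Y' i k = S.Y i k := fun i k hk => if_pos hk
  have hY'2 : ∀ i, Y' i (b + 1 + 1) = S.Y i (b + 1) * p i := fun i => if_neg (by omega)
  have hG : ∀ e, Gam T D S.a S.Y b e = Gam T D S.a Y' b e := fun e =>
    Gam_map D hD (MonoidHom.id S.X) (fun _ _ => rfl) b (fun i => (hY'1 i b (by omega)).symm)
      (fun i => (hY'1 i (b + 1) le_rfl).symm) e
  refine ⟨{ X := S.X
            li := S.li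
            a := S.a
            Y := Y'
            gauge := ?_
            eqs := ?_
            univ := ?_ }⟩
  · intro k h0 hk
    push_cast at hk
    rcases (show k ≤ b + 1 ∨ k = b + 1 + 1 by omega) with h | h
    · rw [hY'1 r k h, S.gauge k h0 h]
    · rw [h, hY'2, S.gauge _ (by omega) le_rfl, hpr, mul_one]
  · intro e k h0 hk
    push_cast at hk
    rcases (show k + 2 ≤ b + 1 ∨ k = b by omega) with h | h
    · exact Eqs.map hD (MonoidHom.id S.X) (fun _ _ => rfl) (b + 1)
        (fun i k _ hk => (hY'1 i k hk).symm) S.eqs e k h0 h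
    · subst h
      rw [eqn_iff_gam D hD]
      rw [hY'2, hY'2, hY'1 _ _ le_rfl, hY'1 _ _ le_rfl, ← hG, hp]
      group
  · intro H _ α Z hZ0 hZr hE
    push_cast at hE
    have hE' : Eqs D α Z (b + 1) := fun e k h0 hk => hE e k h0 (by omega)
    obtain ⟨F, hFa, hFY⟩ := S.univ H α Z hZ0 hZr hE'
    have hFG : ∀ e, F (Gam T D S.a S.Y b e) = Gam T D α Z b e := fun e =>
      Gam_map D hD F hFa b (fun i => hFY i b (by omega) (by omega))
        (fun i => hFY i (b + 1) (by omega) le_rfl) e
    let h : I → H := fun i => (Z i (b + 1))⁻¹ * Z i (b + 1 + 1)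
    have hh : ∀ e, h (D.cl e) = F (Gam T D S.a S.Y b e) * h (D.ct e) := by
      intro e
      rw [hFG]
      exact (eqn_iff_gam D hD α Z b e).1 (hE e b (by omega) (by omega))
    have hu : ∀ i, F (p i) = h i := by
      intro i
      by_contra hne
      have h3 := hconn (fun i => if F (p i) = h i then 1 else 0) (fun e => by
        have : F (p (D.cl e)) = h (D.cl e) ↔ F (p (D.ct e)) = h (D.ct e) := by
          rw [hp e, map_mul, hh e, mul_right_inj]
        simp only [this]) i
      have h4 : F (p r) = h r := by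
        rw [hpr, map_one]
        simp only [h, hZr]
        group
      rw [if_neg hne, if_pos h4] at h3
      exact absurd h3 (by norm_num)
    refine ⟨F, hFa, fun i k h0 hk => ?_⟩
    push_cast at hk
    rcases (show k ≤ b + 1 ∨ k = b + 1 + 1 by omega) with h' | h'
    · rw [hY'1 i k h', hFY i k h0 h']
    · rw [h', hY'2, map_mul, hu, hFY i (b + 1) (by omega) le_rfl]
      simp only [h]
      group

open Classical in
/-- **Theorem.** One of the two lowest coefficients of the Alexander determinant does not vanish. -/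
theorem locInd_low [Fintype I] [Fintype E] [DecidableEq I] [DecidableEq E] {T : Hg G}
    (D : Dat I E G) (hD : AllOne T D)
    (hLI : ∀ i, LocInd (G i)) (r : I) (σ : E ≃ {x : I // x ≠ r})
    (hcard : Fintype.card I = Fintype.card E + 1) (hT : Forest D.ci D.ct)
    (hcoef : (alex σ ℚ D.ci D.cl D.ct).coeff 0 ≠ 0 ∨ (alex σ ℚ D.ci D.cl D.ct).coeff 1 ≠ 0)
    {Q : Type} [Group Q] (π : CoprodI G →* Q) (hsurj : Function.Surjective π)
    (hker : π.ker = Subgroup.normalClosure (Set.range D.rel)) : LocInd Q := by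
  by_cases h0 : (alex σ ℚ D.ci D.cl D.ct).coeff 0 = 0
  · have h1 := hcoef.resolve_left (not_not.2 h0)
    rw [coeff_zero] at h0
    obtain ⟨f, fr, ⟨s, fs⟩, hf⟩ := exists_ker h0
    obtain ⟨μ, hμ, hμ2⟩ := exists_coker h0
    obtain ⟨e0, he0⟩ := Function.ne_iff.1 hμ
    let c : I → ℤ := fun i => if f i = f s then 1 else 0
    have cr : c r = 0 := if_neg (by rw [fr]; exact fun h => fs h.symm)
    have cs : c s = 1 := if_pos rfl
    have hc : ∀ e, c (D.cl e) = c (D.ct e) := fun e => by simp only [c, hf]
    have hC : Cmb D r s e0 c := by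
      refine cmb_of D r s e0 c hc cr cs hcard (fun g hg1 hg2 => ?_) ?_
      · have hg3 : ∀ e, g (D.cl e) = g (D.ct e) := by
          intro e
          by_cases he : e = e0
          · subst he
            have h2 := hμ2 g
            rw [Finset.sum_eq_single e (fun e' _ he' => by rw [hg2 e' he', sub_self, mul_zero])
              (fun h => absurd (Finset.mem_univ _) h)] at h2
            rcases mul_eq_zero.1 h2 with h3 | h3
            · exact absurd h3 he0
            · exact sub_eq_zero.1 h3
          · exact hg2 e he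
        have h2 := ker_unique (σ := σ) h1 f (fun i => g i - g r) fr (sub_self _) s fs
          (by rw [hg1, sub_self]) hf (fun e => by rw [hg3 e])
        intro x y
        have hx : g x - g r = 0 := h2 x
        have hy : g y - g r = 0 := h2 y
        linarith
      · rintro ⟨φ, hφ⟩
        refine no_phi (σ := σ) h1 (fun i => (c i : ℚ)) (fun i => (φ i : ℚ)) ?_ s ?_ ?_ ?_
        · rw [cr, Int.cast_zero]
        · rw [cs, Int.cast_one]
          exact one_ne_zero
        · intro e
          rw [hc e]
        · intro e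
          exact_mod_cast hφ e
    have hst : ∀ b : ℕ, Nonempty (Stg T D r c b) := by
      intro b
      induction b with
      | zero => exact first_stage T D hLI r s c cr cs
      | succ b ih =>
        obtain ⟨S⟩ := ih
        obtain ⟨p, hpr, hps, hp⟩ := hC.pot (Ex S.P) (fun e => Gam T D S.a S.Y b e)
        exact next_stage hD hC S p hpr hps hp fun v k hv => np hD hC S p hpr hp σ hT v k hv
    refine locInd_of_sta D hD r (fun m => ?_) π hsurj hker
    obtain ⟨S⟩ := hst m
    exact ⟨S.sta⟩
  · rw [coeff_zero] at h0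
    have hconn : ∀ f : I → ℚ, (∀ e, f (D.cl e) = f (D.ct e)) → ∀ x, f x = f r :=
      fun f hf x => const_of_det h0 f hf x
    have hF : Forest D.cl D.ct :=
      forest_of_conn D.cl D.ct (fun f hf x y => (hconn f hf x).trans (hconn f hf y).symm) hcard
    have hst : ∀ b : ℕ, Nonempty (Stz T D r b) := by
      intro b
      induction b with
      | zero => exact first_z T D hLI r
      | succ b ih =>
        obtain ⟨S⟩ := ih
        exact next_z hD hF hconn S
    refine locInd_of_sta D hD r (fun m => ?_) π hsurj hker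
    obtain ⟨S⟩ := hst m
    exact ⟨S.sta⟩

end Pool.Agent.V5helper80.One
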