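import Pool.Agent.V5helper80.One.Seq

/-!
# The relators of the recursion are not proper powers
-/

set_option autoImplicit false

namespace Pool.Agent.V5helper80.One

open Monoid (CoprodI)
open Monoid.CoprodI (of)
open Pool.Agent.V5helper80.Rel
open Pool.Agent.TH625.LOG

variable {I E : Type} {G : I → Type} [∀ i, Group (G i)] {T : Hg G}

section
variable {K : Type} [Field K]

/-- the partial sums -/
def zs (y : ℕ → I → K) (i : I) (k : ℤ) : Multiplicative K :=
  Multiplicative.ofAdd (∑ j ∈ Finset.range k.toNat, y j i)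

theorem zs_step (y : ℕ → I → K) (i : I) (n : ℕ) :
    (zs y i n)⁻¹ * zs y i (n + 1) = Multiplicative.ofAdd (y n i) := by
  unfold zs
  rw [show ((n : ℤ) + 1).toNat = n + 1 by omega, Int.toNat_natCast, Finset.sum_range_succ,
    ofAdd_add]
  group

theorem cc_zs (y : ℕ → I → K) (i : I) (n : ℕ) (g : G i) (hg : T.hz i g = 1) :
    cc T (fun _ => 1) (zs y) i n g = Multiplicative.ofAdd (y n i) := by
  unfold cc
  rw [hg, MonoidHom.one_apply, mul_one, zs_step]

theorem cc_zs0 (y : ℕ → I → K) (i : I) (k : ℤ) (g : G i) (hg : T.hz i g = 0) :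
    cc T (fun _ => 1) (zs y) i k g = 1 := by
  unfold cc
  rw [hg, MonoidHom.one_apply, mul_one, add_zero, inv_mul_cancel]

theorem Gam_zs {D : Dat I E G} (hD : AllOne T D) (y : ℕ → I → K) (n : ℕ) (e : E) :
    Gam T D (fun _ => 1) (zs y) n e = Multiplicative.ofAdd (y n (D.cl e) - y n (D.ci e)) := by
  obtain ⟨e1, e2, e3, e4⟩ := hD e
  unfold Gam
  rw [cc_zs0 y (D.cl e) (n + 1) (D.y e * (T.t _)⁻¹)
      (by rw [T.hz_mul, T.hz_inv, T.hz_t, e2]; norm_num),
    cc_zs0 y (D.ct e) (n + 1) (D.z e * (T.t _)⁻¹)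
      (by rw [T.hz_mul, T.hz_inv, T.hz_t, e4]; norm_num),
    cc_zs y _ _ _ e1, cc_zs y _ _ _ e3, inv_one, one_mul, mul_one, ← ofAdd_neg, ← ofAdd_add]
  congr 1
  ring

theorem eqs_zs {D : Dat I E G} (hD : AllOne T D) (y : ℕ → I → K) (b : ℕ)
    (hy : ∀ n, n < b → ∀ e, y n (D.ci e) + y (n + 1) (D.cl e) =
      y n (D.cl e) + y (n + 1) (D.ct e)) : Eqs D (fun i => (1 : (T.ht i).ker →* Multiplicative K)) (zs y)
      (b + 1) := by
  intro e k h0 hk
  obtain ⟨n, rfl⟩ := Int.eq_ofNat_of_zero_le h0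
  obtain ⟨e1, e2, e3, e4⟩ := hD e
  have h1 : ((n : ℤ) + 1) = ((n + 1 : ℕ) : ℤ) := by push_cast; ring
  rw [h1, cc_zs y _ _ _ e1, cc_zs y _ _ _ e2, cc_zs y _ _ _ e3, cc_zs y _ _ _ e4, ← ofAdd_add,
    ← ofAdd_add, hy n (by omega)]

/-- extension of solutions -/
theorem extend {D : Dat I E G} (hD : AllOne T D) {r : I} {c : I → ℤ} {b : ℕ} {e0 : E}
    (S : Stg T D r c b) (p : I → Ex S.P) (hpr : p r = 1)
    (hp : ∀ e, e ≠ e0 → p (D.cl e) = Gam T D S.a S.Y b e * p (D.ct e))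
    (hw : ∀ F : Ex S.P →* Multiplicative K, F (wrd S e0 p) = 1) (y : ℕ → I → K)
    (yr : ∀ n, y n r = 0)
    (hy : ∀ n, n < b → ∀ e, y n (D.ci e) + y (n + 1) (D.cl e) =
      y n (D.cl e) + y (n + 1) (D.ct e)) :
    ∃ y' : I → K, y' r = 0 ∧ ∀ e, y b (D.ci e) + y' (D.cl e) = y b (D.cl e) + y' (D.ct e) := by
  obtain ⟨F, hFa, hFY⟩ := S.univ (Multiplicative K) (fun _ => 1) (zs y)
    (fun i => by unfold zs; simp)
    (fun k => by
      unfold zs
      rw [Finset.sum_eq_zero fun j _ => yr j, ofAdd_zero]) (eqs_zs hD y b hy)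
  have hFG : ∀ e, F (Gam T D S.a S.Y b e) = Gam T D (fun _ => 1) (zs y) b e := fun e =>
    Gam_map D hD F hFa b (fun i => hFY i b (by omega) (by omega))
      (fun i => hFY i (b + 1) (by omega) le_rfl) e
  have hFp : ∀ e, F (p (D.cl e)) = F (Gam T D S.a S.Y b e) * F (p (D.ct e)) := by
    intro e
    by_cases he : e = e0
    · subst he
      have h1 := hw F
      unfold wrd at h1
      rw [map_mul, map_mul, map_inv, mul_assoc, inv_mul_eq_one] at h1
      exact h1
    · rw [hp e he, map_mul]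
  refine ⟨fun i => (F (p i)).toAdd, ?_, fun e => ?_⟩
  · simp only
    rw [hpr, map_one, toAdd_one]
  · have h1 := congrArg Multiplicative.toAdd (hFp e)
    rw [hFG, Gam_zs hD, toAdd_mul, toAdd_ofAdd] at h1
    simp only
    rw [h1]
    ring

end

open Classical in
/-- **The relator is not a proper power.** -/
theorem np [Fintype I] [Fintype E] {D : Dat I E G} (hD : AllOne T D) {r s : I} {c : I → ℤ}
    {b : ℕ} {e0 : E} (hC : Cmb D r s e0 c) (S : Stg T D r c b) (p : I → Ex S.P) (hpr : p r = 1)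
    (hp : ∀ e, e ≠ e0 → p (D.cl e) = Gam T D S.a S.Y b e * p (D.ct e))
    (σ : E ≃ {x : I // x ≠ r}) (hT : Forest D.ci D.ct) (v : Ex S.P) (k : ℤ)
    (hv : v ^ k = wrd S e0 p) : k = 1 ∨ k = -1 := by
  by_contra hk
  have hk1 : k.natAbs ≠ 1 := by
    intro h
    exact hk (Int.natAbs_eq_iff.1 h)
  obtain ⟨q, hq, hqk⟩ := Nat.exists_prime_and_dvd hk1
  have : Fact q.Prime := ⟨hq⟩
  have hqk' : ((k : ℤ) : ZMod q) = 0 := by
    rw [ZMod.intCast_zmod_eq_zero_iff_dvd]
    exact Int.natCast_dvd.2 hqk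
  have hw : ∀ F : Ex S.P →* Multiplicative (ZMod q), F (wrd S e0 p) = 1 := by
    intro F
    apply Multiplicative.toAdd.injective
    rw [← hv, map_zpow, toAdd_zpow, toAdd_one, zsmul_eq_mul, hqk', zero_mul]
  let Sol : (ℕ → I → ZMod q) → Prop := fun y => (∀ n, y n r = 0) ∧
    ∀ n, n < b → ∀ e, y n (D.ci e) + y (n + 1) (D.cl e) = y n (D.cl e) + y (n + 1) (D.ct e)
  have step : ∀ w : {w : ℕ → I → ZMod q // Sol w}, ∃ w' : {w : ℕ → I → ZMod q // Sol w},
      ∀ e, w.1 b (D.ci e) + w'.1 b (D.cl e) = w.1 b (D.cl e) + w'.1 b (D.ct e) := by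
    rintro ⟨w, hw1, hw2⟩
    obtain ⟨y', hy1, hy2⟩ := extend hD S p hpr hp hw w hw1 hw2
    refine ⟨⟨fun n => if n < b then w (n + 1) else y', ?_, ?_⟩, ?_⟩
    · intro n
      simp only
      split_ifs
      · exact hw1 _
      · exact hy1
    · intro n hn e
      simp only
      rw [if_pos hn]
      by_cases hn1 : n + 1 < b
      · rw [if_pos hn1]
        exact hw2 (n + 1) hn1 e
      · rw [if_neg hn1, show n + 1 = b by omega]
        exact hy2 e
    · intro e
      simp only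
      rw [if_neg (lt_irrefl b)]
      exact hy2 e
  choose f hf using step
  have hcr : ((c r : ℤ) : ZMod q) = 0 := by rw [hC.cr, Int.cast_zero]
  let w0 : {w : ℕ → I → ZMod q // Sol w} := ⟨fun n i => if n = b then (c i : ZMod q) else 0, by
    intro n
    simp only
    split_ifs
    · exact hcr
    · rfl, by
    intro n hn e
    simp only
    rw [if_neg hn.ne, if_neg hn.ne]
    split_ifs
    · rw [hC.hc]
    · rfl⟩
  have h1 := seq_zero (K := ZMod q) (l := D.cl) σ hT (fun n => (f^[n] w0).1 b)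
    (fun n => (f^[n] w0).2.1 b) (fun e => by
      show (if b = b then (c (D.cl e) : ZMod q) else 0) = if b = b then (c (D.ct e) : ZMod q) else 0
      rw [hC.hc]) (fun n e => by
      rw [Function.iterate_succ_apply']
      exact hf (f^[n] w0) e) s
  have h2 : (if b = b then (c s : ZMod q) else 0) = 0 := h1
  rw [if_pos rfl, hC.cs, Int.cast_one] at h2
  exact one_ne_zero h2

end Pool.Agent.V5helper80.One
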