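import Pool.Agent.V5helper80.One.Defs

/-!
# The rank inequality and the removal of edges
-/

set_option autoImplicit false

namespace Pool.Agent.V5helper80.One

open Monoid (CoprodI)
open Monoid.CoprodI (of)
open Pool.Agent.V5helper80.Rel

variable {I A : Type} {G : I → Type} [∀ i, Group (G i)] [MulAction (CoprodI G) A]

theorem ar_add (R : Per I G) (c d : ∀ i, A → G i → ℚ) (t : ℚ) (a : A) :
    R.ar (fun i b g => c i b g + t * d i b g) a = R.ar c a + t * R.ar d a := by
  unfold Per.ar
  rw [Finset.mul_sum, ← Finset.sum_add_distrib]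

open Classical in
theorem rank_ineq (R : Per I G) (S : Finset (A × I)) (F : Finset A)
    (hS : S.Nonempty) (hz : R.HZ S F) :
    S.card + 1 ≤ F.card + (S.image Prod.fst).card +
      ((S.image (orb G)).filter fun κ => ¬ Live κ).card := by
  set K := S.image (orb G) with hK
  set K' := K.filter fun κ => Live κ with hK'
  have hlive : ∀ κ : K', Live κ.1 := fun κ => (Finset.mem_filter.1 κ.2).2
  choose c hc1 hc2 hc3 using fun κ : K' => hlive κ
  -- the linear map
  let coc : (S → ℚ) × (K' → ℚ) → ∀ i, A → G i → ℚ := fun ts i a g =>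
    ((if h : (mv (of g) a, i) ∈ S then ts.1 ⟨_, h⟩ else 0) -
      (if h : (a, i) ∈ S then ts.1 ⟨_, h⟩ else 0)) + ∑ κ : K', ts.2 κ * c κ i a g
  have hcoc : ∀ ts, IsCoc (coc ts) := by
    intro ts
    refine isCoc_add ?_ ?_
    · exact isCoc_cob (G := G) (fun x => if h : x ∈ S then ts.1 ⟨x, h⟩ else 0)
    · intro i a g h
      simp only
      rw [← Finset.sum_add_distrib]
      refine Finset.sum_congr rfl fun κ _ => ?_
      rw [hc1 κ i a g h]
      ring
  have hcadd : ∀ ts ts' i a g, coc (ts + ts') i a g = coc ts i a g + coc ts' i a g := by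
    intro ts ts' i a g
    have h3 : ∑ κ : K', (ts + ts').2 κ * c κ i a g =
        ∑ κ : K', ts.2 κ * c κ i a g + ∑ κ : K', ts'.2 κ * c κ i a g := by
      rw [← Finset.sum_add_distrib]
      refine Finset.sum_congr rfl fun κ _ => ?_
      rw [Prod.snd_add, Pi.add_apply]
      ring
    simp only [coc]
    rw [h3]
    split_ifs <;> try simp only [Prod.fst_add, Pi.add_apply]
    all_goals ring
  have hcsmul : ∀ (r : ℚ) ts i a g, coc (r • ts) i a g = r * coc ts i a g := by
    intro r ts i a g
    have h3 : ∑ κ : K', (r • ts).2 κ * c κ i a g = r * ∑ κ : K', ts.2 κ * c κ i a g := by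
      rw [Finset.mul_sum]
      refine Finset.sum_congr rfl fun κ _ => ?_
      rw [Prod.smul_snd, Pi.smul_apply, smul_eq_mul]
      ring
    simp only [coc]
    rw [h3]
    split_ifs <;> try simp only [Prod.smul_fst, Pi.smul_apply, smul_eq_mul]
    all_goals ring
  let Φ : ((S → ℚ) × (K' → ℚ)) →ₗ[ℚ] (F → ℚ) :=
    { toFun := fun ts f => R.ar (coc ts) f.1
      map_add' := by
        intro ts ts'
        funext f
        simp only [Pi.add_apply]
        unfold Per.ar
        rw [← Finset.sum_add_distrib]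
        exact Finset.sum_congr rfl fun k _ => hcadd _ _ _ _ _
      map_smul' := by
        intro r ts
        funext f
        simp only [Pi.smul_apply, smul_eq_mul, RingHom.id_apply]
        unfold Per.ar
        rw [Finset.mul_sum]
        exact Finset.sum_congr rfl fun k _ => hcsmul _ _ _ _ _ }
  let B := S.image Prod.fst
  have hB : ∀ x : S, x.1.1 ∈ B := fun x => Finset.mem_image_of_mem _ x.2
  have hKm : ∀ x : S, orb G x.1 ∈ K := fun x => Finset.mem_image_of_mem _ x.2
  let Ψ : ((B → ℚ) × (K → ℚ)) →ₗ[ℚ] ((S → ℚ) × (K' → ℚ)) :=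
    { toFun := fun dk => (fun x => dk.1 ⟨x.1.1, hB x⟩ + dk.2 ⟨orb G x.1, hKm x⟩, 0)
      map_add' := by
        intro d d'
        refine Prod.ext ?_ ?_
        · funext x
          simp only [Prod.fst_add, Prod.snd_add, Pi.add_apply]
          ring
        · simp
      map_smul' := by
        intro r d
        refine Prod.ext ?_ ?_
        · funext x
          simp only [Prod.smul_fst, Prod.smul_snd, Pi.smul_apply, smul_eq_mul, RingHom.id_apply]
          ring
        · simp }
  have hle : LinearMap.ker Φ ≤ LinearMap.range Ψ := by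
    rintro ⟨τ, s⟩ hts
    rw [LinearMap.mem_ker] at hts
    obtain ⟨δ, hδ⟩ := hz (coc (τ, s)) (hcoc _) (by
      intro f hf
      exact congrFun hts ⟨f, hf⟩)
    have hs : s = 0 := by
      funext κ
      obtain ⟨i, a, g, hκ, hg, hne⟩ := hc3 κ
      obtain ⟨⟨b, j⟩, hb, hb'⟩ := Finset.mem_image.1 (Finset.mem_filter.1 κ.2).1
      obtain ⟨h, hh⟩ := orb_eq.1 (hκ.trans hb'.symm)
      obtain ⟨rfl, rfl⟩ := Prod.mk.inj hh
      have h1 : mv (of (h⁻¹ * g * h)) (mv (of h) a) = mv (of h) a := by
        rw [map_mul, map_mul, mv_mul, mv_mul, map_inv, mv_inv, hg]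
      have h2 := hδ j (mv (of h) a) (h⁻¹ * g * h) hb (by rw [h1]; exact hb)
      rw [h1, sub_self] at h2
      have h3 : coc (τ, s) j (mv (of h) a) (h⁻¹ * g * h) = s κ * c κ j a g := by
        simp only [coc]
        rw [h1, sub_self, zero_add, Finset.sum_eq_single κ]
        · rw [isCoc_conj (hc1 κ) j a g h hg]
        · intro κ' _ hne'
          rw [hc2 κ' j _ _ ?_, mul_zero]
          intro h4
          rw [hb'] at h4
          exact hne' (Subtype.ext h4.symm)
        · intro h4
          exact absurd (Finset.mem_univ _) h4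
      rw [h3] at h2
      exact (mul_eq_zero.1 h2).resolve_right hne
    subst hs
    have hτ : ∀ (i : I) (a : A) (g : G i) (h1 : (a, i) ∈ S) (h2 : (mv (of g) a, i) ∈ S),
        τ ⟨_, h2⟩ - τ ⟨_, h1⟩ = δ (mv (of g) a) - δ a := by
      intro i a g h1 h2
      rw [← hδ i a g h1 h2]
      simp only [coc]
      rw [dif_pos h1, dif_pos h2]
      simp
    have hrep : ∀ κ : K, ∃ x : S, orb G x.1 = κ.1 := fun κ => by
      obtain ⟨x, hx, hx'⟩ := Finset.mem_image.1 κ.2
      exact ⟨⟨x, hx⟩, hx'⟩
    choose rep hrep using hrep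
    refine ⟨(fun b => δ b.1, fun κ => τ (rep κ) - δ (rep κ).1.1), ?_⟩
    refine Prod.ext ?_ rfl
    funext x
    show δ x.1.1 + (τ (rep ⟨orb G x.1, hKm x⟩) - δ (rep ⟨orb G x.1, hKm x⟩).1.1) = τ x
    have h1 := hrep ⟨orb G x.1, hKm x⟩
    set y := rep ⟨orb G x.1, hKm x⟩
    obtain ⟨⟨a, i⟩, hx⟩ := x
    obtain ⟨⟨b, j⟩, hy⟩ := y
    obtain ⟨g, hg⟩ := orb_eq.1 h1
    obtain ⟨rfl, rfl⟩ := Prod.mk.inj hg
    have h2 := hτ i b g hy hx
    show δ (mv (of g) b) + (τ ⟨(b, i), hy⟩ - δ b) = τ ⟨(mv (of g) b, i), hx⟩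
    linarith
  have h1 := LinearMap.finrank_range_add_finrank_ker Φ
  have h2 := LinearMap.finrank_range_add_finrank_ker Ψ
  have h3 : Module.finrank ℚ (LinearMap.range Φ) ≤ F.card := by
    have := Submodule.finrank_le (LinearMap.range Φ)
    simpa using this
  have h4 : Module.finrank ℚ (LinearMap.ker Φ) ≤ Module.finrank ℚ (LinearMap.range Ψ) :=
    Submodule.finrank_mono hle
  have h5 : 1 ≤ Module.finrank ℚ (LinearMap.ker Ψ) := by
    have hne : LinearMap.ker Ψ ≠ ⊥ := by
      intro h
      have h6 : ((fun _ => (1 : ℚ), fun _ => (-1 : ℚ)) : (B → ℚ) × (K → ℚ)) ∈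
          LinearMap.ker Ψ := by
        rw [LinearMap.mem_ker]
        refine Prod.ext ?_ rfl
        funext x
        show (1 : ℚ) + -1 = 0
        norm_num
      rw [h, Submodule.mem_bot] at h6
      obtain ⟨x, hx⟩ := hS
      have := congrFun (congrArg Prod.fst h6) ⟨x.1, Finset.mem_image_of_mem _ hx⟩
      simp at this
    have : 0 < Module.finrank ℚ (LinearMap.ker Ψ) := by
      rw [Module.finrank_pos_iff]
      exact Submodule.nontrivial_iff_ne_bot.2 hne
    omega
  have h6 : Module.finrank ℚ ((S → ℚ) × (K' → ℚ)) = S.card + K'.card := by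
    rw [Module.finrank_prod]; simp
  have h7 : Module.finrank ℚ ((B → ℚ) × (K → ℚ)) = B.card + K.card := by
    rw [Module.finrank_prod]; simp
  have h8 : K'.card + (K.filter fun κ => ¬ Live κ).card = K.card := by
    rw [hK']
    exact Finset.card_filter_add_card_filter_not _
  have h9 : B.card = (S.image Prod.fst).card := rfl
  omega

section
open Classical
variable {R : Per I G}

theorem ind_side (s : A × I) (a : A) (k : ℕ) :
    ind G s _ (R.pos a k) (R.s k).2 =
      (if R.ts a (2 * k + 1) = s then 1 else 0) - (if R.ts a (2 * k) = s then 1 else 0) := by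
  unfold ind
  rw [R.ts_odd, R.ts_even, R.pos_succ]

theorem ar_ind_zero (s : A × I) (a : A) (h : ∀ q < 2 * R.n, R.ts a q ≠ s) :
    R.ar (ind G s) a = 0 := by
  unfold Per.ar
  refine Finset.sum_eq_zero fun k hk => ?_
  have hk' := Finset.mem_range.1 hk
  rw [ind_side, if_neg (h _ (by omega)), if_neg (h _ (by omega)), sub_zero]

theorem ar_ind_ne (s : A × I) (a : A) (q : ℕ) (hq : q < 2 * R.n) (hqs : R.ts a q = s)
    (h : ∀ q' < 2 * R.n, R.ts a q' = s → q' = q) : R.ar (ind G s) a ≠ 0 := by
  have hv : ∀ q' < 2 * R.n, (R.ts a q' = s ↔ q' = q) :=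
    fun q' h' => ⟨h q' h', fun h1 => by rw [h1]; exact hqs⟩
  unfold Per.ar
  rw [Finset.sum_eq_single (q / 2)]
  · rw [ind_side]
    rcases Nat.even_or_odd' q with ⟨k, hk | hk⟩
    · have h1 : q / 2 = k := by omega
      rw [h1]
      simp only [hv (2 * k) (by omega), hv (2 * k + 1) (by omega)]
      rw [if_neg (by omega), if_pos hk.symm]
      norm_num
    · have h1 : q / 2 = k := by omega
      rw [h1]
      simp only [hv (2 * k) (by omega), hv (2 * k + 1) (by omega)]
      rw [if_pos hk.symm, if_neg (by omega)]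
      norm_num
  · intro k hk hne
    have hk' := Finset.mem_range.1 hk
    rw [ind_side]
    simp only [hv (2 * k) (by omega), hv (2 * k + 1) (by omega)]
    rw [if_neg (by omega), if_neg (by omega), sub_zero]
  · intro h1
    exact absurd (Finset.mem_range.2 (by omega)) h1

/-- a segment of the line in the group -/
theorem seg_pot {Q : Type} [Group Q] (π : CoprodI G →* Q) (p : A → Q) (a : A) (k l : ℕ)
    (hkl : k ≤ l)
    (h : ∀ j, k ≤ j → j < l → p (R.pos a (j + 1)) = p (R.pos a j) * π (of (R.s j).2)) :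
    p (R.pos a l) = p (R.pos a k) * ((π (R.W k))⁻¹ * π (R.W l)) := by
  induction l, hkl using Nat.le_induction with
  | base => rw [inv_mul_cancel, mul_one]
  | succ l hkl ih =>
    rw [h l hkl (by omega), ih (fun j h1 h2 => h j h1 (by omega)), R.W_succ, map_mul]
    group

/-- the last side in the group -/
theorem last_side {Q : Type} [Group Q] (π : CoprodI G →* Q) (hπ : π R.rel = 1)
    (p : A → Q) (a : A) (ha : R.Closed a) (k : ℕ) (hk : k < R.n)
    (h : ∀ j, j < R.n → j ≠ k → p (R.pos a (j + 1)) = p (R.pos a j) * π (of (R.s j).2)) :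
    p (R.pos a (k + 1)) = p (R.pos a k) * π (of (R.s k).2) := by
  have h1 := seg_pot (R := R) π p a 0 k (by omega) (fun j _ h2 => h j (by omega) (by omega))
  have h2 := seg_pot (R := R) π p a (k + 1) R.n (by omega)
    (fun j h1 h2 => h j (by omega) (by omega))
  have h3 : R.pos a R.n = R.pos a 0 := by
    have := R.pos_add ha 0
    rwa [zero_add] at this
  rw [h3, show R.W R.n = R.rel from rfl, hπ, mul_one, R.W_succ, map_mul] at h2
  rw [R.W_zero, map_one, inv_one, one_mul] at h1
  rw [h1, h2]
  group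

variable {S : Finset (A × I)} {F : Finset A}

theorem Cplx.erase_edge (hC : R.Cplx S F) (s : A × I) (hs : R.passes F s = ∅) :
    R.Cplx (S.erase s) F := by
  intro a ha
  refine ⟨(hC a ha).1, fun q => Finset.mem_erase.2 ⟨?_, (hC a ha).2 q⟩⟩
  intro h
  have h1 : R.ts a (q % (2 * R.n)) = s := by
    rw [← h]
    have h2 : ∀ m r, R.ts a (r + m * (2 * R.n)) = R.ts a r := by
      intro m r
      induction m with
      | zero => simp
      | succ m ih =>
        rw [show r + (m + 1) * (2 * R.n) = r + m * (2 * R.n) + 2 * R.n by ring,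
          R.ts_add (hC a ha).1, ih]
    conv_rhs => rw [← Nat.mod_add_div q (2 * R.n), mul_comm (2 * R.n), h2]
  have h3 : (a, q % (2 * R.n)) ∈ R.passes F s :=
    Per.mem_passes.2 ⟨ha, Nat.mod_lt _ (by have := R.hn; omega), h1⟩
  rw [hs] at h3
  exact absurd h3 (Finset.notMem_empty _)

theorem HZ.erase (hz : R.HZ S F) (s : A × I) : R.HZ (S.erase s) F := by
  intro c hc hc'
  obtain ⟨δ, hδ⟩ := hz c hc hc'
  exact ⟨δ, fun i a g h1 h2 => hδ i a g (Finset.mem_of_mem_erase h1)
    (Finset.mem_of_mem_erase h2)⟩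

/-- in a live orbit there is a second edge or a pass -/
theorem dead_of_single (hC : R.Cplx S F) (hz : R.HZ S F) (a : A) (i : I) (hsS : (a, i) ∈ S)
    (hs : R.passes F (a, i) = ∅) (hB : ∀ x ∈ S, orb G x = orb G (a, i) → x = (a, i)) :
    ¬ Live (orb G (a, i)) := by
  rintro ⟨c, hc, hsupp, j, b, g, hb, hg, hne'⟩
  obtain ⟨δ, hδ⟩ := hz c hc (by
    intro f hf
    unfold Per.ar
    refine Finset.sum_eq_zero fun k hk => ?_
    refine hsupp _ _ _ fun h => ?_
    have h1 := hB _ ((hC f hf).2 (2 * k)) (by rw [R.ts_even]; exact h)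
    have h2 : (f, 2 * k) ∈ R.passes F (a, i) :=
      Per.mem_passes.2 ⟨hf, by have := Finset.mem_range.1 hk; omega, h1⟩
    rw [hs] at h2
    exact absurd h2 (Finset.notMem_empty _))
  obtain ⟨h, hh⟩ := orb_eq.1 hb
  obtain ⟨rfl, rfl⟩ := Prod.mk.inj hh
  have h1 : mv (of (h⁻¹ * g * h)) (mv (of h) b) = mv (of h) b := by
    rw [map_mul, map_mul, mv_mul, mv_mul, map_inv, mv_inv, hg]
  have h2 := hδ i (mv (of h) b) (h⁻¹ * g * h) hsS (by rw [h1]; exact hsS)
  rw [h1, sub_self, isCoc_conj hc i b g h hg] at h2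
  exact hne' h2

/-- an edge without passes -/
theorem step_zero {Q : Type} [Group Q] (π : CoprodI G →* Q)
    (hst : ∀ (i : I) (a : A) (g : G i), ¬ Live (orb G (a, i)) → mv (of g) a = a → π (of g) = 1)
    (hC : R.Cplx S F) (hz : R.HZ S F) (s : A × I) (hsS : s ∈ S) (hs : R.passes F s = ∅) :
    R.HZ (S.erase s) F ∧ (Triv π (S.erase s) → Triv π S) := by
  have hne : ∀ f ∈ F, ∀ q < 2 * R.n, R.ts f q ≠ s := by
    intro f hf q hq h
    have : (f, q) ∈ R.passes F s := Per.mem_passes.2 ⟨hf, hq, h⟩
    rw [hs] at this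
    exact absurd this (Finset.notMem_empty _)
  constructor
  · exact HZ.erase hz s
  · rw [triv_iff, triv_iff]
    rintro ⟨p, hp⟩
    obtain ⟨a, i⟩ := s
    by_cases hB : ∃ g0 : G i, (mv (of g0) a, i) ∈ S.erase (a, i)
    · obtain ⟨g0, hg0⟩ := hB
      obtain ⟨δ, hδ⟩ := hz (ind G (a, i)) (isCoc_ind _) (by
        intro f hf
        exact ar_ind_zero _ f (hne f hf))
      have hg0S := Finset.mem_of_mem_erase hg0
      have hg0ne := Finset.ne_of_mem_erase hg0
      have h1 := hδ i a g0 hsS hg0S
      unfold ind at h1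
      rw [if_neg hg0ne, if_pos rfl] at h1
      let u : Q := p (mv (of g0) a) * (π (of g0))⁻¹ * (p a)⁻¹
      let p' : A → Q := fun y => if δ y = δ a then u * p y else p y
      have hp' : Pot π ((S.erase (a, i) : Finset (A × I)) : Set (A × I)) p' := by
        intro j b g hb hgb
        have hb' := Finset.mem_coe.1 hb
        have hgb' := Finset.mem_coe.1 hgb
        have h2 := hδ j b g (Finset.mem_of_mem_erase hb') (Finset.mem_of_mem_erase hgb')
        unfold ind at h2
        rw [if_neg (Finset.ne_of_mem_erase hb'), if_neg (Finset.ne_of_mem_erase hgb')] at h2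
        have h3 : δ (mv (of g) b) = δ b := by linarith
        have h4 := hp j b g hb hgb
        simp only [p', h3]
        split_ifs
        · rw [h4]
          exact (mul_assoc u _ _).symm
        · exact h4
      have h5 : p' (mv (of g0) a) = p (mv (of g0) a) := by
        simp only [p']
        rw [if_neg]
        intro h6
        rw [h6] at h1
        norm_num at h1
      have h6 : p' a = u * p a := by simp only [p', if_true]
      have h7 : p' (mv (of g0⁻¹) (mv (of g0) a)) = p' (mv (of g0) a) * π (of g0⁻¹) := by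
        rw [map_inv, map_inv, mv_inv, h5, h6]
        simp only [u]
        rw [inv_mul_cancel_right]
      have h8 := hp'.extend i (mv (of g0) a) g0⁻¹ (Finset.mem_coe.2 hg0) h7
      refine ⟨p', h8.mono ?_⟩
      intro x hx
      by_cases hxs : x = (a, i)
      · left
        rw [hxs, map_inv, mv_inv]
      · right
        exact Finset.mem_coe.2 (Finset.mem_erase.2 ⟨hxs, hx⟩)
    · -- the orbit has only one edge
      push Not at hB
      have hB' : ∀ x ∈ S, orb G x = orb G (a, i) → x = (a, i) := by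
        rintro ⟨b, j⟩ hx hxo
        obtain ⟨g, hg⟩ := orb_eq.1 hxo.symm
        by_contra hne'
        refine hB g ?_
        rw [← hg]
        exact Finset.mem_erase.2 ⟨hne', hx⟩
      have hdead := dead_of_single hC hz a i hsS hs hB'
      refine ⟨p, ?_⟩
      intro j b g hb hgb
      by_cases hbs : (b, j) = (a, i)
      · obtain ⟨rfl, rfl⟩ := Prod.mk.inj hbs
        have h1 := hB' _ (Finset.mem_coe.1 hgb) (orb_mv _ _ _)
        have h2 : mv (of g) b = b := congrArg Prod.fst h1
        rw [h2, hst j b g hdead h2, mul_one]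
      · have hgbs : (mv (of g) b, j) ≠ (a, i) := by
          intro h
          refine hbs (hB' _ (Finset.mem_coe.1 hb) ?_)
          rw [← h, orb_mv]
        exact hp j b g (Finset.mem_coe.2 (Finset.mem_erase.2 ⟨hbs, hb⟩))
          (Finset.mem_coe.2 (Finset.mem_erase.2 ⟨hgbs, hgb⟩))

/-- removing an edge with nonzero intersection number and the line -/
theorem HZ.erase_line (hz : R.HZ S F) (s : A × I) (a : A) (h1 : R.ar (ind G s) a ≠ 0)
    (h2 : ∀ b ∈ F, b ≠ a → R.ar (ind G s) b = 0) : R.HZ (S.erase s) (F.erase a) := by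
  intro c hc hc'
  set t : ℚ := - R.ar c a / R.ar (ind G s) a with ht
  obtain ⟨δ, hδ⟩ := hz (fun i a g => c i a g + t * ind G s i a g)
    (isCoc_add hc (isCoc_smul (isCoc_ind s) t)) (by
      intro b hb
      rw [ar_add]
      by_cases h : b = a
      · rw [h, ht]
        field_simp
        ring
      · rw [hc' b (Finset.mem_erase.2 ⟨h, hb⟩), h2 b hb h]
        ring)
  refine ⟨δ, fun i b g hb hgb => ?_⟩
  have h3 := hδ i b g (Finset.mem_of_mem_erase hb) (Finset.mem_of_mem_erase hgb)
  unfold ind at h3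
  rw [if_neg (Finset.ne_of_mem_erase hb), if_neg (Finset.ne_of_mem_erase hgb)] at h3
  linarith

theorem ts_mod {a : A} (ha : R.Closed a) (q : ℕ) : R.ts a (q % (2 * R.n)) = R.ts a q := by
  have h2 : ∀ m r, R.ts a (r + m * (2 * R.n)) = R.ts a r := by
    intro m r
    induction m with
    | zero => simp
    | succ m ih =>
      rw [show r + (m + 1) * (2 * R.n) = r + m * (2 * R.n) + 2 * R.n by ring,
        R.ts_add ha, ih]
  conv_rhs => rw [← Nat.mod_add_div q (2 * R.n), mul_comm (2 * R.n), h2]

/-- an edge with one pass -/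
theorem step_one {Q : Type} [Group Q] (π : CoprodI G →* Q) (hπ : π R.rel = 1)
    (hC : R.Cplx S F) (hz : R.HZ S F) (s : A × I) (a : A) (q : ℕ)
    (hs : R.passes F s = {(a, q)}) :
    R.Cplx (S.erase s) (F.erase a) ∧ R.HZ (S.erase s) (F.erase a) ∧
      (Triv π (S.erase s) → Triv π S) := by
  have hfq : (a, q) ∈ R.passes F s := by rw [hs]; exact Finset.mem_singleton_self _
  obtain ⟨hf, hqn, hq⟩ := Per.mem_passes.1 hfq
  simp only at hf hqn hq
  have huniq : ∀ f' ∈ F, ∀ q' < 2 * R.n, R.ts f' q' = s → f' = a ∧ q' = q := by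
    intro f' hf' q' hq' h
    have : (f', q') ∈ R.passes F s := Per.mem_passes.2 ⟨hf', hq', h⟩
    rw [hs, Finset.mem_singleton] at this
    exact ⟨congrArg Prod.fst this, congrArg Prod.snd this⟩
  have hpos : 0 < 2 * R.n := by have := R.hn; omega
  refine ⟨?_, ?_, ?_⟩
  · intro f' hf'
    have hf'F := Finset.mem_of_mem_erase hf'
    refine ⟨(hC f' hf'F).1, fun q' => Finset.mem_erase.2 ⟨?_, (hC f' hf'F).2 q'⟩⟩
    intro h
    rw [← ts_mod (hC f' hf'F).1] at h
    exact (Finset.ne_of_mem_erase hf') (huniq f' hf'F _ (Nat.mod_lt _ hpos) h).1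
  · refine HZ.erase_line hz s a (ar_ind_ne s a q hqn hq fun q' hq' h => (huniq a hf q' hq' h).2) ?_
    intro b hb hba
    exact ar_ind_zero s b fun q' hq' h => hba (huniq b hb q' hq' h).1
  · rw [triv_iff, triv_iff]
    rintro ⟨p, hp⟩
    refine ⟨p, ?_⟩
    have hmem : ∀ q' < 2 * R.n, q' ≠ q → R.ts a q' ∈ S.erase s := fun q' hq' hne =>
      Finset.mem_erase.2 ⟨fun h => hne (huniq a hf q' hq' h).2, (hC a hf).2 q'⟩
    have hside : ∀ j, j < R.n → j ≠ q / 2 →
        p (R.pos a (j + 1)) = p (R.pos a j) * π (of (R.s j).2) := by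
      intro j hj hne
      have h1 := hmem (2 * j) (by omega) (by omega)
      have h2 := hmem (2 * j + 1) (by omega) (by omega)
      rw [R.ts_even] at h1
      rw [R.ts_odd, R.pos_succ] at h2
      rw [R.pos_succ]
      exact hp _ _ _ h1 h2
    have hlast := last_side π hπ p a (hC a hf).1 (q / 2) (by omega) hside
    rw [R.pos_succ] at hlast
    rcases Nat.even_or_odd' q with ⟨k, rfl | rfl⟩
    · -- the missing edge is at the start
      rw [show 2 * k / 2 = k by omega] at hlast
      have hother := hmem (2 * k + 1) (by omega) (by omega)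
      rw [R.ts_odd, R.pos_succ] at hother
      rw [R.ts_even] at hq
      have h1 : p (mv (of (R.s k).2⁻¹) (mv (of (R.s k).2) (R.pos a k))) =
          p (mv (of (R.s k).2) (R.pos a k)) * π (of (R.s k).2⁻¹) := by
        rw [map_inv, mv_inv, map_inv, hlast, mul_inv_cancel_right]
      have h2 := hp.extend _ _ _ (Finset.mem_coe.2 hother) h1
      rw [map_inv, mv_inv, hq] at h2
      refine h2.mono ?_
      intro x hx
      by_cases hxs : x = s
      · exact Or.inl hxs
      · exact Or.inr (Finset.mem_coe.2 (Finset.mem_erase.2 ⟨hxs, hx⟩))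
    · -- the missing edge is at the end
      rw [show (2 * k + 1) / 2 = k by omega] at hlast
      have hother := hmem (2 * k) (by omega) (by omega)
      rw [R.ts_even] at hother
      rw [R.ts_odd, R.pos_succ] at hq
      have h2 := hp.extend _ _ _ (Finset.mem_coe.2 hother) hlast
      rw [hq] at h2
      refine h2.mono ?_
      intro x hx
      by_cases hxs : x = s
      · exact Or.inl hxs
      · exact Or.inr (Finset.mem_coe.2 (Finset.mem_erase.2 ⟨hxs, hx⟩))

/-- no lines: everything is trivial -/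
theorem triv_of_HZ_empty {Q : Type} [Group Q] (π : CoprodI G →* Q)
    (hst : ∀ (i : I) (a : A) (g : G i), ¬ Live (orb G (a, i)) → mv (of g) a = a → π (of g) = 1) :
    ∀ (m : ℕ) (S : Finset (A × I)), S.card = m → R.HZ S ∅ → Triv π S := by
  intro m
  induction m using Nat.strong_induction_on with
  | _ m ih =>
    intro S hm hz
    rcases S.eq_empty_or_nonempty with hS0 | ⟨s, hs⟩
    · exact ⟨fun _ => 1, fun i a g h => by rw [hS0] at h; exact absurd h (Finset.notMem_empty _)⟩
    · have hC : R.Cplx S ∅ := fun a ha => absurd ha (Finset.notMem_empty _)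
      have hp : R.passes (∅ : Finset A) s = ∅ := by
        rw [Finset.eq_empty_iff_forall_notMem]
        intro q hq
        exact absurd (Per.mem_passes.1 hq).1 (Finset.notMem_empty _)
      obtain ⟨h5, h6⟩ := step_zero π hst hC hz s hs hp
      exact h6 (ih _ (by rw [← hm]; exact Finset.card_erase_lt_of_mem hs) _ rfl h5)

end

end Pool.Agent.V5helper80.One
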