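import Pool.Agent.V5helper80.One.Comb
import Pool.Agent.V5helper80.One.Det

/-!
# Sequences in the kernel
-/

set_option autoImplicit false

namespace Pool.Agent.V5helper80.One

open Matrix Pool.Agent.V5helper80.Rel

section seq
variable {I E : Type} [Fintype I] [Fintype E] [DecidableEq E] [DecidableEq I] {r : I}
  {σ : E ≃ {x : I // x ≠ r}} {K : Type} [Field K]

theorem inc_add (i l t : E → I) : inc σ K i l + inc σ K l t = inc σ K i t := by
  unfold inc
  abel

/-- the incidence matrix of a tree is regular -/
theorem det_inc_ne {p q : E → I} (hT : Forest p q) : (inc σ K p q).det ≠ 0 := by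
  intro h
  obtain ⟨μ, hμ, h1⟩ := exists_coker h
  apply hμ
  refine tinj p q hT r μ fun x _ => ?_
  have h2 := h1 fun y => if y = x then 1 else 0
  refine (Finset.sum_congr rfl fun e _ => ?_).trans h2
  congr

theorem alex_ne_zero {i l t : E → I} (hT : Forest i t) : alex σ K i l t ≠ 0 := by
  intro h
  have h1 := eval_alex (σ := σ) (K := K) i l t 1
  rw [one_smul, inc_add, h, Polynomial.eval_zero] at h1
  exact det_inc_ne hT h1.symm

/-- a solution of the infinite system which starts in the kernel is trivial -/
theorem seq_zero {i l t : E → I} (σ : E ≃ {x : I // x ≠ r}) (hT : Forest i t) (z : ℕ → I → K)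
    (hzr : ∀ n, z n r = 0) (h0 : ∀ e, z 0 (l e) = z 0 (t e))
    (h : ∀ n e, z n (i e) + z (n + 1) (l e) = z n (l e) + z (n + 1) (t e)) (x : I) :
    z 0 x = 0 := by
  by_contra hx
  have hxr : x ≠ r := fun h => hx (by rw [h, hzr])
  apply alex_ne_zero (σ := σ) (K := K) (l := l) hT
  let ρ : Polynomial K →+* PowerSeries K := Polynomial.coeToPowerSeries.ringHom
  have hρ : Function.Injective ρ := Polynomial.coe_injective K
  apply hρ
  rw [map_zero]
  unfold alex
  rw [RingHom.map_det, ← Matrix.exists_mulVec_eq_zero_iff]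
  refine ⟨fun a => PowerSeries.mk fun n => z n (σ a).1, ?_, ?_⟩
  · intro h1
    have h2 := congrArg (PowerSeries.coeff 0) (congrFun h1 (σ.symm ⟨x, hxr⟩))
    rw [PowerSeries.coeff_mk, Equiv.apply_symm_apply] at h2
    exact hx h2
  · funext e
    have h1 : (ρ.mapMatrix (amat σ K i l t) *ᵥ fun a => PowerSeries.mk fun n => z n (σ a).1) e =
        PowerSeries.X * (∑ a, PowerSeries.C (inc σ K i l e a) *
          PowerSeries.mk fun n => z n (σ a).1) +
        ∑ a, PowerSeries.C (inc σ K l t e a) * PowerSeries.mk fun n => z n (σ a).1 := by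
      show ∑ a, ρ (amat σ K i l t e a) * _ = _
      rw [Finset.mul_sum, ← Finset.sum_add_distrib]
      refine Finset.sum_congr rfl fun a _ => ?_
      have h2 : ρ (amat σ K i l t e a) = PowerSeries.X * PowerSeries.C (inc σ K i l e a) +
          PowerSeries.C (inc σ K l t e a) := by
        show ρ (Polynomial.X * Polynomial.C _ + Polynomial.C _) = _
        rw [map_add, map_mul]
        simp only [ρ, Polynomial.coeToPowerSeries.ringHom_apply, Polynomial.coe_X,
          Polynomial.coe_C]
      rw [h2, add_mul, mul_assoc]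
    rw [h1]
    ext n
    rw [map_add, Pi.zero_apply, map_zero]
    have h3 : ∀ (p q : E → I) (m : ℕ), PowerSeries.coeff m (∑ a, PowerSeries.C (inc σ K p q e a) *
        PowerSeries.mk fun n => z n (σ a).1) = z m (p e) - z m (q e) := by
      intro p q m
      rw [map_sum, ← congrFun (inc_mulVec (σ := σ) p q (z m) (hzr m)) e]
      refine Finset.sum_congr rfl fun a _ => ?_
      rw [PowerSeries.coeff_C_mul, PowerSeries.coeff_mk]
    rcases n with _ | n
    · rw [PowerSeries.coeff_zero_X_mul, zero_add, h3, h0, sub_self]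
    · rw [PowerSeries.coeff_succ_X_mul, h3, h3]
      linear_combination h n e

end seq

end Pool.Agent.V5helper80.One
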