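import Pool.Agent.V5helper80.One.Lev

/-!
# The recursion over the levels
-/

set_option autoImplicit false

namespace Pool.Agent.V5helper80.One

open Monoid (CoprodI)
open Monoid.CoprodI (of)
open Pool.Agent.V5helper80.Rel
open Pool.Agent.TH625.LOG

variable {I E : Type} {G : I → Type} [∀ i, Group (G i)] {T : Hg G}

/-- the coefficient of an equation -/
def Gam (T : Hg G) (D : Dat I E G) {X : Type} [Group X] (α : ∀ i, (T.ht i).ker →* X)
    (Y : I → ℤ → X) (k : ℤ) (e : E) : X :=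
  (cc T α Y (D.cl e) (k + 1) (D.y e * (T.t _)⁻¹))⁻¹ * (cc T α Y (D.ci e) k (D.x e))⁻¹ *
    cc T α Y (D.cl e) k (D.y' e) * cc T α Y (D.ct e) (k + 1) (D.z e * (T.t _)⁻¹)

theorem cc_top {X : Type} [Group X] (α : ∀ i, (T.ht i).ker →* X)
    (Y : I → ℤ → X) (i : I) (k : ℤ) (g : G i) (hg : T.hz i g = 1) :
    cc T α Y i k g = cc T α Y i k (g * (T.t i)⁻¹) * ((Y i k)⁻¹ * Y i (k + 1)) := by
  have h1 : g = g * (T.t i)⁻¹ * T.t i := by group
  conv_lhs => rw [h1]
  rw [cc_mul, T.hz_mul, T.hz_inv, T.hz_t, hg, show k + (1 + -1) = k by ring, cc_t]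

/-- the equation as a relation between the letters of the upper level -/
theorem eqn_iff_gam (D : Dat I E G) (hD : AllOne T D) {X : Type} [Group X]
    (α : ∀ i, (T.ht i).ker →* X) (Y : I → ℤ → X) (k : ℤ) (e : E) :
    (cc T α Y (D.ci e) k (D.x e) * cc T α Y (D.cl e) (k + 1) (D.y e) =
      cc T α Y (D.cl e) k (D.y' e) * cc T α Y (D.ct e) (k + 1) (D.z e)) ↔
    (Y (D.cl e) (k + 1))⁻¹ * Y (D.cl e) (k + 1 + 1) =
      Gam T D α Y k e * ((Y (D.ct e) (k + 1))⁻¹ * Y (D.ct e) (k + 1 + 1)) := by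
  obtain ⟨_, h2, _, h4⟩ := hD e
  rw [cc_top α Y _ (k + 1) (D.y e) h2, cc_top α Y _ (k + 1) (D.z e) h4]
  unfold Gam
  generalize cc T α Y (D.cl e) (k + 1) (D.y e * (T.t (D.cl e))⁻¹) = A
  generalize cc T α Y (D.ct e) (k + 1) (D.z e * (T.t (D.ct e))⁻¹) = B
  generalize cc T α Y (D.ci e) k (D.x e) = C
  generalize cc T α Y (D.cl e) k (D.y' e) = C'
  generalize (Y (D.cl e) (k + 1))⁻¹ * Y (D.cl e) (k + 1 + 1) = u
  generalize (Y (D.ct e) (k + 1))⁻¹ * Y (D.ct e) (k + 1 + 1) = v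
  constructor
  · intro h
    calc u = A⁻¹ * C⁻¹ * (C * (A * u)) := by group
      _ = _ := by rw [h]; group
  · intro h
    rw [h]
    group

theorem Gam_map (D : Dat I E G) (hD : AllOne T D) {X X' : Type} [Group X] [Group X']
    (F : X →* X') {α : ∀ i, (T.ht i).ker →* X} {Y : I → ℤ → X} {α' : ∀ i, (T.ht i).ker →* X'}
    {Y' : I → ℤ → X'} (hα : ∀ i g, F (α i g) = α' i g) (k : ℤ)
    (h0 : ∀ i, F (Y i k) = Y' i k) (h1 : ∀ i, F (Y i (k + 1)) = Y' i (k + 1)) (e : E) :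
    F (Gam T D α Y k e) = Gam T D α' Y' k e := by
  obtain ⟨e1, e2, e3, e4⟩ := hD e
  unfold Gam
  rw [map_mul, map_mul, map_mul, map_inv, map_inv,
    cc_map F hα _ _ _ (h1 _) (by rw [T.hz_mul, T.hz_inv, T.hz_t, e2, add_neg_cancel, add_zero]; exact h1 _),
    cc_map F hα _ _ _ (h0 _) (by rw [e1]; exact h1 _),
    cc_map F hα _ _ _ (h0 _) (by rw [e3]; exact h1 _),
    cc_map F hα _ _ _ (h1 _) (by rw [T.hz_mul, T.hz_inv, T.hz_t, e4, add_neg_cancel, add_zero]; exact h1 _)]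

/-- equations are preserved -/
theorem Eqs.map {D : Dat I E G} (hD : AllOne T D) {X X' : Type} [Group X] [Group X']
    (F : X →* X') {α : ∀ i, (T.ht i).ker →* X} {Y : I → ℤ → X} {α' : ∀ i, (T.ht i).ker →* X'}
    {Y' : I → ℤ → X'} (hα : ∀ i g, F (α i g) = α' i g) (m : ℤ)
    (hY : ∀ i k, 0 ≤ k → k ≤ m → F (Y i k) = Y' i k) (h : Eqs D α Y m) : Eqs D α' Y' m := by
  intro e k h0 hm
  obtain ⟨e1, e2, e3, e4⟩ := hD e
  have := congrArg F (h e k h0 hm)
  rw [map_mul, map_mul,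
    cc_map F hα _ _ _ (hY _ _ h0 (by omega)) (by rw [e1]; exact hY _ _ (by omega) (by omega)),
    cc_map F hα _ _ _ (hY _ _ (by omega) (by omega))
      (by rw [e2]; exact hY _ _ (by omega) (by omega)),
    cc_map F hα _ _ _ (hY _ _ h0 (by omega)) (by rw [e3]; exact hY _ _ (by omega) (by omega)),
    cc_map F hα _ _ _ (hY _ _ (by omega) (by omega))
      (by rw [e4]; exact hY _ _ (by omega) (by omega))] at this
  exact this

/-- a stage of the recursion -/
structure Stg (T : Hg G) (D : Dat I E G) (r : I) (c : I → ℤ) (b : ℕ) where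
  P : Type
  [grp : Group P]
  li : LocInd P
  a : ∀ i, (T.ht i).ker →* Ex P
  Y : I → ℤ → Ex P
  Y0 : ∀ i, Y i 0 = 1
  gauge : ∀ k : ℤ, 0 ≤ k → k ≤ b + 1 → Y r k = 1
  exa : ∀ i g, ex (a i g) = 1
  exY : ∀ (i : I) (k : ℤ), 0 ≤ k → k ≤ b → ex (Y i k) = 1
  exT : ∀ i, ex (Y i (b + 1)) = Multiplicative.ofAdd (c i)
  eqs : Eqs D a Y (b + 1)
  univ : ∀ (H : Type) [Group H] (α : ∀ i, (T.ht i).ker →* H) (Z : I → ℤ → H),
    (∀ i, Z i 0 = 1) → (∀ k, Z r k = 1) → Eqs D α Z (b + 1) →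
    ∃ F : Ex P →* H, (∀ i g, F (a i g) = α i g) ∧
      ∀ (i : I) (k : ℤ), 0 ≤ k → k ≤ b + 1 → F (Y i k) = Z i k

attribute [instance] Stg.grp

/-- the combinatorial data -/
structure Cmb (D : Dat I E G) (r s : I) (e0 : E) (c : I → ℤ) : Prop where
  hc : ∀ e, c (D.cl e) = c (D.ct e)
  cr : c r = 0
  cs : c s = 1
  pot : ∀ (Q : Type) [Group Q] (γ : E → Q), ∃ p : I → Q, p r = 1 ∧ p s = 1 ∧
    ∀ e, e ≠ e0 → p (D.cl e) = γ e * p (D.ct e)
  uniq : ∀ (H : Type) [Group H] (γ : E → H) (u h : I → H), u r = h r → u s = h s →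
    (∀ e, e ≠ e0 → u (D.cl e) = γ e * u (D.ct e)) →
    (∀ e, e ≠ e0 → h (D.cl e) = γ e * h (D.ct e)) → u = h
  nophi : ¬ ∃ φ : I → ℤ, ∀ e, φ (D.cl e) - φ (D.ct e) = c (D.cl e) - c (D.ci e)

/-- the relator of the next level -/
def wrd {D : Dat I E G} {r : I} {c : I → ℤ} {b : ℕ} (S : Stg T D r c b) (e0 : E)
    (p : I → Ex S.P) : Ex S.P :=
  (p (D.cl e0))⁻¹ * Gam T D S.a S.Y b e0 * p (D.ct e0)

theorem ex_cc {D : Dat I E G} {r : I} {c : I → ℤ} {b : ℕ} (S : Stg T D r c b) (i : I) (v : ℤ)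
    (g : G i) : (ex (cc T S.a S.Y i v g)).toAdd =
      (ex (S.Y i (v + T.hz i g))).toAdd - (ex (S.Y i v)).toAdd := by
  unfold cc
  simp only [MonoidHom.map_mul, MonoidHom.map_inv, S.exa, mul_one, toAdd_mul, toAdd_inv]
  ring

theorem ex_Gam {D : Dat I E G} (hD : AllOne T D) {r : I} {c : I → ℤ} {b : ℕ}
    (S : Stg T D r c b) (e : E) :
    (ex (Gam T D S.a S.Y b e)).toAdd = c (D.cl e) - c (D.ci e) := by
  obtain ⟨e1, e2, e3, e4⟩ := hD e
  have h0 : ∀ i, (ex (S.Y i b)).toAdd = 0 := fun i => by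
    rw [S.exY i b (by omega) le_rfl, toAdd_one]
  have h1 : ∀ i, (ex (S.Y i (b + 1))).toAdd = c i := fun i => by rw [S.exT i, toAdd_ofAdd]
  unfold Gam
  simp only [MonoidHom.map_mul, MonoidHom.map_inv, toAdd_mul, toAdd_inv, ex_cc, T.hz_mul,
    T.hz_inv, T.hz_t, e1, e2, e3, e4, add_neg_cancel, add_zero, h0, h1]
  ring

theorem ex_wrd {D : Dat I E G} (hD : AllOne T D) {r s : I} {c : I → ℤ} {b : ℕ} {e0 : E}
    (hC : Cmb D r s e0 c) (S : Stg T D r c b) (p : I → Ex S.P)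
    (hp : ∀ e, e ≠ e0 → p (D.cl e) = Gam T D S.a S.Y b e * p (D.ct e)) :
    ex (wrd S e0 p) ≠ 1 := by
  intro hw
  refine hC.nophi ⟨fun i => (ex (p i)).toAdd, fun e => ?_⟩
  by_cases he : e = e0
  · subst he
    have h1 := congrArg Multiplicative.toAdd hw
    unfold wrd at h1
    simp only [MonoidHom.map_mul, MonoidHom.map_inv, toAdd_mul, toAdd_inv, toAdd_one,
      ex_Gam hD] at h1
    simp only
    linarith
  · have h1 := congrArg (fun x => (ex x).toAdd) (hp e he)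
    simp only [MonoidHom.map_mul, toAdd_mul, ex_Gam hD] at h1
    simp only
    linarith

open Classical in
/-- the next stage -/
theorem next_stage {D : Dat I E G} (hD : AllOne T D) {r s : I} {c : I → ℤ} {b : ℕ} {e0 : E}
    (hC : Cmb D r s e0 c) (S : Stg T D r c b) (p : I → Ex S.P) (hpr : p r = 1) (hps : p s = 1)
    (hp : ∀ e, e ≠ e0 → p (D.cl e) = Gam T D S.a S.Y b e * p (D.ct e))
    (hprop : ∀ (v : Ex S.P) (k : ℤ), v ^ k = wrd S e0 p → k = 1 ∨ k = -1) :
    Nonempty (Stg T D r c (b + 1)) := by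
  set w := wrd S e0 p with hw
  have hLI := locInd_ex S.li w (ex_wrd hD hC S p hp) hprop
  let P' := Ex S.P ⧸ Subgroup.normalClosure {w}
  let mk : Ex S.P →* P' := QuotientGroup.mk' _
  have hmkw : mk w = 1 :=
    (QuotientGroup.eq_one_iff _).2 (Subgroup.subset_normalClosure (Set.mem_singleton _))
  have hmkp : ∀ e, mk (p (D.cl e)) = mk (Gam T D S.a S.Y b e) * mk (p (D.ct e)) := by
    intro e
    by_cases he : e = e0
    · subst he
      have h1 : mk ((p (D.cl e))⁻¹ * Gam T D S.a S.Y b e * p (D.ct e)) = 1 := hmkw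
      rw [map_mul, map_mul, map_inv, mul_assoc, inv_mul_eq_one] at h1
      exact h1
    · rw [hp e he, map_mul]
  let j : Ex S.P →* Ex P' := inA.comp mk
  let Y' : I → ℤ → Ex P' := fun i k =>
    if k ≤ b + 1 then j (S.Y i k) else j (S.Y i (b + 1) * p i) * zz ^ c i
  have hY'1 : ∀ (i : I) (k : ℤ), k ≤ b + 1 → Y' i k = j (S.Y i k) := fun i k hk => if_pos hk
  have hY'2 : ∀ i, Y' i (b + 1 + 1) = j (S.Y i (b + 1) * p i) * zz ^ c i := fun i =>
    if_neg (by omega)
  have hexj : ∀ x, ex (j x) = 1 := fun x => ex_inA _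
  let a' : ∀ i, (T.ht i).ker →* Ex P' := fun i => j.comp (S.a i)
  have hGj : ∀ e, j (Gam T D S.a S.Y b e) = Gam T D a' Y' b e := fun e =>
    Gam_map D hD j (fun _ _ => rfl) b (fun i => (hY'1 i b (by omega)).symm)
      (fun i => (hY'1 i (b + 1) le_rfl).symm) e
  refine ⟨{ P := P'
            li := hLI
            a := a'
            Y := Y'
            Y0 := fun i => by rw [hY'1 i 0 (by omega), S.Y0, map_one]
            gauge := ?_
            exa := fun i g => hexj _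
            exY := ?_
            exT := ?_
            eqs := ?_
            univ := ?_ }⟩
  · intro k h0 hk
    push_cast at hk
    rcases (show k ≤ b + 1 ∨ k = b + 1 + 1 by omega) with h | h
    · rw [hY'1 r k h, S.gauge k h0 h, map_one]
    · rw [h, hY'2, S.gauge _ (by omega) le_rfl, hpr, hC.cr, mul_one, map_one, zpow_zero, one_mul]
  · intro i k h0 hk
    push_cast at hk
    rw [hY'1 i k hk, hexj]
  · intro i
    push_cast
    rw [hY'2, map_mul, hexj, one_mul, map_zpow, ex_zz, ← ofAdd_zsmul, smul_eq_mul, mul_one]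
  · intro e k h0 hk
    push_cast at hk
    rcases (show k + 2 ≤ b + 1 ∨ k = b by omega) with h | h
    · exact Eqs.map hD j (fun _ _ => rfl) (b + 1) (fun i k _ hk => (hY'1 i k hk).symm) S.eqs e k
        h0 h
    · subst h
      rw [eqn_iff_gam D hD]
      rw [hY'2, hY'2, hY'1 _ _ le_rfl, hY'1 _ _ le_rfl, map_mul, map_mul, ← hGj, hC.hc]
      have h1 := congrArg inA (hmkp e)
      rw [map_mul] at h1
      have h2 : j (p (D.cl e)) = j (Gam T D S.a S.Y b e) * j (p (D.ct e)) := h1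
      rw [h2]
      group
  · intro H _ α Z hZ0 hZr hE
    push_cast at hE
    have hE' : Eqs D α Z (b + 1) := fun e k h0 hk => hE e k h0 (by omega)
    obtain ⟨F, hFa, hFY⟩ := S.univ H α Z hZ0 hZr hE'
    have hFG : ∀ e, F (Gam T D S.a S.Y b e) = Gam T D α Z b e := fun e =>
      Gam_map D hD F hFa b (fun i => hFY i b (by omega) (by omega))
        (fun i => hFY i (b + 1) (by omega) le_rfl) e
    let h : I → H := fun i => (Z i (b + 1))⁻¹ * Z i (b + 1 + 1)
    have hh : ∀ e, h (D.cl e) = F (Gam T D S.a S.Y b e) * h (D.ct e) := by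
      intro e
      rw [hFG]
      exact (eqn_iff_gam D hD α Z b e).1 (hE e b (by omega) (by omega))
    have hu : (fun i => F (p i) * h s ^ c i) = h := by
      refine hC.uniq H (fun e => F (Gam T D S.a S.Y b e)) _ _ ?_ ?_ ?_ (fun e _ => hh e)
      · simp only [h, hpr, hC.cr, hZr]
        simp
      · simp only [hps, hC.cs, map_one, zpow_one, one_mul]
      · intro e he
        rw [hp e he, map_mul, hC.hc, mul_assoc]
    have hFw : F w = 1 := by
      have h1 := hh e0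
      rw [← hu] at h1
      simp only [hC.hc] at h1
      rw [← mul_assoc] at h1
      have h2 := mul_right_cancel h1
      rw [hw, wrd, map_mul, map_mul, map_inv, mul_assoc, inv_mul_eq_one]
      exact h2
    let F' : P' →* H := QuotientGroup.lift _ F (by
      intro x hx
      have h1 : Subgroup.normalClosure {w} ≤ F.ker :=
        Subgroup.normalClosure_le_normal (Set.singleton_subset_iff.2 hFw)
      exact h1 hx)
    have hF' : ∀ x, F' (mk x) = F x := fun x => rfl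
    have hFj : ∀ x, liftE F' (h s) (j x) = F x := fun x => by
      show liftE F' (h s) (inA (mk x)) = F x
      rw [liftE_inA, hF']
    refine ⟨liftE F' (h s), fun i g => ?_, fun i k h0 hk => ?_⟩
    · show liftE F' (h s) (j (S.a i g)) = _
      rw [hFj, hFa]
    · push_cast at hk
      rcases (show k ≤ b + 1 ∨ k = b + 1 + 1 by omega) with h' | h'
      · rw [hY'1 i k h', hFj, hFY i k h0 h']
      · rw [h', hY'2, map_mul, hFj, map_mul, map_zpow, liftE_zz, hFY i (b + 1) (by omega) le_rfl]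
        have h1 : F (p i) * h s ^ c i = h i := congrFun hu i
        rw [mul_assoc, h1]
        simp only [h]
        group

end Pool.Agent.V5helper80.One
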